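import Pool.Agent.H471.GS.One
import Pool.Graph.R_seed8.Y961.GP.NS

set_option autoImplicit false

/-!
Products of values of zeta at generic shifts, against arbitrary measures which are not concentrated.
-/

namespace Pool.Agent.H471.GS

open Complex MeasureTheory Set
open scoped ENNReal
open Pool.Agent.Y969.GP (ht lam FR PS V co cr PX ff S_V S_CR S_AFE Gd)

lemma ball_bd {ν : Measure ℝ} [IsFiniteMeasure ν] {q H : ℝ} (hq : 0 ≤ q) (hH : 1 ≤ H)
    (hν : ∀ x : ℝ, ν (Icc x (x + 1)) ≤ ENNReal.ofReal q) (t : ℝ) :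
    ν.real (Metric.ball t H) ≤ 3 * H * q := by
  have hsub : Metric.ball t H ⊆ ⋃ i ∈ Finset.range ⌈2 * H⌉₊, Icc (t - H + (i : ℕ)) (t - H + (i : ℕ) + 1) := by
    intro s hs
    rw [Metric.mem_ball, Real.dist_eq, abs_lt] at hs
    simp only [mem_iUnion, Finset.mem_range, exists_prop]
    have h0 : 0 ≤ s - (t - H) := by linarith [hs.1]
    refine ⟨⌊s - (t - H)⌋₊, ?_, ?_, ?_⟩
    · have h1 : (⌊s - (t - H)⌋₊ : ℝ) ≤ s - (t - H) := Nat.floor_le h0
      have h2 : (2 * H : ℝ) ≤ ⌈2 * H⌉₊ := Nat.le_ceil _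
      have h3 : (⌊s - (t - H)⌋₊ : ℝ) < ⌈2 * H⌉₊ := by linarith [hs.2]
      exact_mod_cast h3
    · have h1 : (⌊s - (t - H)⌋₊ : ℝ) ≤ s - (t - H) := Nat.floor_le h0
      linarith
    · have h1 := Nat.lt_floor_add_one (s - (t - H))
      linarith
  have h1 : ν (Metric.ball t H) ≤ ENNReal.ofReal (3 * H * q) := by
    calc ν (Metric.ball t H) ≤ ν (⋃ i ∈ Finset.range ⌈2 * H⌉₊, Icc (t - H + (i : ℕ)) (t - H + (i : ℕ) + 1)) :=
          measure_mono hsub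
      _ ≤ ∑ i ∈ Finset.range ⌈2 * H⌉₊, ν (Icc (t - H + (i : ℕ)) (t - H + (i : ℕ) + 1)) :=
          measure_biUnion_finset_le _ _
      _ ≤ ∑ _i ∈ Finset.range ⌈2 * H⌉₊, ENNReal.ofReal q := Finset.sum_le_sum fun i _ => hν _
      _ = ENNReal.ofReal (⌈2 * H⌉₊ * q) := by
          rw [Finset.sum_const, Finset.card_range, nsmul_eq_mul, ENNReal.ofReal_mul (by positivity),
            ENNReal.ofReal_natCast]
      _ ≤ _ := by
          apply ENNReal.ofReal_le_ofReal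
          have h2 : (⌈2 * H⌉₊ : ℝ) < 2 * H + 1 := Nat.ceil_lt_add_one (by positivity)
          have h3 : (⌈2 * H⌉₊ : ℝ) ≤ 3 * H := by linarith
          exact mul_le_mul_of_nonneg_right h3 hq
  unfold Measure.real
  exact ENNReal.toReal_le_of_le_ofReal (by positivity) h1

lemma integ {ν : Measure ℝ} [IsFiniteMeasure ν] {T : ℝ} (hν : ∀ᵐ t ∂ν, t ∈ Icc 0 T) {q w : ℝ → ℂ}
    (hq : ContinuousOn q (Icc 0 T)) (hw : Measurable w) (hw1 : ∀ t, ‖w t‖ ≤ 1) :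
    Integrable (fun t => q t * w t) ν := by
  obtain ⟨C, hC⟩ := isCompact_Icc.exists_bound_of_continuousOn hq
  have h1 : Integrable w ν := Integrable.of_bound hw.aestronglyMeasurable 1
    (Filter.Eventually.of_forall hw1)
  refine h1.bdd_mul (aesm hν hq) (c := C) ?_
  filter_upwards [hν] with t ht'
  exact hC t ht'

/-- the constant of one shift -/
lemma kr_bd {T U κ δ0 δ1 c ε C1 C3 : ℝ} {X : ℕ} (hT : 1 ≤ T) (hTU : T ≤ U) (hε : 0 < ε) (hε4 : ε ≤ 1 / 4)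
    (hC1 : 0 < C1) (hC3 : 0 < C3) (h1 : δ0 ≤ δ1) (h2 : δ0 ≤ c / 2) (h3 : δ0 ≤ κ) (hX1 : (1 : ℝ) ≤ X)
    (hXe : (X : ℝ) ≤ 2 * (2 * U) ^ (1 + ε)) (hX3 : (X : ℝ) ≤ (2 * U) ^ (3 : ℝ))
    (gU : (C1 * 98304 + 18 * C3 ^ 2) * (1 + Real.log U) ^ 7 ≤ U ^ ε) :
    C1 * ((U + X) * (1 + Real.log X) ^ 5 * (1 + Real.log U) ^ 2 *
      (5 * T ^ (-δ1) + 3 * T ^ (-(c / 2)))) + 2 * U * (3 * C3 * T ^ (-(κ / 2))) ^ 2 ≤
      U ^ (1 + 2 * ε) * T ^ (-δ0) := by
  have hT0 : 0 < T := by linarith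
  have hU1 : 1 ≤ U := hT.trans hTU
  have hU0 : 0 < U := by linarith
  have hlU : 0 ≤ Real.log U := Real.log_nonneg hU1
  have hlX : 0 ≤ Real.log X := Real.log_nonneg hX1
  have hUe : 1 ≤ U ^ ε := Real.one_le_rpow hU1 hε.le
  have b1 : 5 * T ^ (-δ1) + 3 * T ^ (-(c / 2)) ≤ 8 * T ^ (-δ0) := by
    have := Real.rpow_le_rpow_of_exponent_le hT (by linarith : -δ1 ≤ -δ0)
    have := Real.rpow_le_rpow_of_exponent_le hT (by linarith : -(c / 2) ≤ -δ0)
    linarith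
  have b2 : (T ^ (-(κ / 2))) ^ 2 ≤ T ^ (-δ0) := by
    rw [← Real.rpow_natCast, ← Real.rpow_mul hT0.le]
    apply Real.rpow_le_rpow_of_exponent_le hT
    push_cast
    linarith
  have b3 : U + X ≤ 12 * (U * U ^ ε) := by
    have e1 : (2 * U) ^ (1 + ε) = 2 ^ (1 + ε) * (U * U ^ ε) := by
      rw [Real.mul_rpow (by norm_num) hU0.le, Real.rpow_add hU0, Real.rpow_one]
    have e2 : (2 : ℝ) ^ (1 + ε) ≤ 4 := by
      calc (2 : ℝ) ^ (1 + ε) ≤ 2 ^ (2 : ℝ) := Real.rpow_le_rpow_of_exponent_le (by norm_num) (by linarith)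
        _ = 4 := by norm_num
    have e3 : U ≤ U * U ^ ε := le_mul_of_one_le_right hU0.le hUe
    have e4 : 0 ≤ U * U ^ ε := by positivity
    rw [e1] at hXe
    have e5 : 2 ^ (1 + ε) * (U * U ^ ε) ≤ 4 * (U * U ^ ε) := mul_le_mul_of_nonneg_right e2 e4
    linarith
  have b4 : 1 + Real.log X ≤ 4 * (1 + Real.log U) := by
    have h1 : Real.log X ≤ 3 * Real.log (2 * U) := by
      have := Real.log_le_log (by linarith) hX3
      rwa [Real.log_rpow (by linarith)] at this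
    rw [Real.log_mul (by norm_num) hU0.ne'] at h1
    have := Real.log_two_lt_d9
    linarith
  have b5 : (1 + Real.log X) ^ 5 ≤ 1024 * (1 + Real.log U) ^ 5 := by
    calc (1 + Real.log X) ^ 5 ≤ (4 * (1 + Real.log U)) ^ 5 := by gcongr
      _ = _ := by ring
  have hT0' : 0 ≤ T ^ (-δ0) := by positivity
  have hS0 : 0 ≤ 5 * T ^ (-δ1) + 3 * T ^ (-(c / 2)) := by positivity
  have hUX : 0 ≤ U + X := by linarith
  generalize hS : 5 * T ^ (-δ1) + 3 * T ^ (-(c / 2)) = S at *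
  generalize hR : T ^ (-(κ / 2)) = R at *
  generalize hQ : T ^ (-δ0) = Q at *
  generalize hL : Real.log U = L at *
  generalize hLX : Real.log X = LX at *
  generalize hE : U ^ ε = E at *
  have c1 : C1 * ((U + X) * (1 + LX) ^ 5 * (1 + L) ^ 2 * S) ≤
      C1 * (12 * (U * E) * (1024 * (1 + L) ^ 5) * (1 + L) ^ 2 * (8 * Q)) := by gcongr
  have c2 : 2 * U * (3 * C3 * R) ^ 2 ≤ U * (18 * C3 ^ 2 * Q) := by
    calc 2 * U * (3 * C3 * R) ^ 2 = U * (18 * C3 ^ 2 * R ^ 2) := by ring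
      _ ≤ _ := by gcongr
  have c3 : (1 : ℝ) ≤ E * (1 + L) ^ 7 := by
    have : (1 : ℝ) ≤ (1 + L) ^ 7 := one_le_pow₀ (by linarith)
    exact one_le_mul_of_one_le_of_one_le hUe this
  have c4 : 0 ≤ U * Q := by positivity
  have e6 : U ^ (1 + 2 * ε) = U * (E * E) := by
    rw [← hE]
    nth_rewrite 2 [← Real.rpow_one U]
    rw [← Real.rpow_add hU0, ← Real.rpow_add hU0]
    congr 1; ring
  rw [e6]
  calc C1 * ((U + X) * (1 + LX) ^ 5 * (1 + L) ^ 2 * S) + 2 * U * (3 * C3 * R) ^ 2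
      ≤ C1 * (12 * (U * E) * (1024 * (1 + L) ^ 5) * (1 + L) ^ 2 * (8 * Q)) + U * (18 * C3 ^ 2 * Q) :=
        add_le_add c1 c2
    _ = U * Q * (C1 * 98304 * (E * (1 + L) ^ 7) + 18 * C3 ^ 2 * 1) := by ring
    _ ≤ U * Q * (C1 * 98304 * (E * (1 + L) ^ 7) + 18 * C3 ^ 2 * (E * (1 + L) ^ 7)) := by gcongr
    _ = U * Q * (E * ((C1 * 98304 + 18 * C3 ^ 2) * (1 + L) ^ 7)) := by ring
    _ ≤ U * Q * (E * E) := by gcongr
    _ = U * (E * E) * Q := by ring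

/-- the constant after the induction -/
lemma bn_bd {n : ℕ} {T U A δ0 ε Kr : ℝ} (hT : 1 ≤ T) (hTU : T ≤ U) (hUA : U ≤ T ^ A) (hε : 0 < ε)
    (hK : Kr ≤ U ^ (1 + 2 * ε) * T ^ (-δ0))
    (hεA : A * (n + 1) * ε ≤ δ0 / 4) (g2 : (n : ℝ) * 2 ^ n ≤ T ^ (δ0 / 4)) :
    Bn (ENNReal.ofReal (U ^ (1 + ε))) (ENNReal.ofReal Kr) n ≤ ENNReal.ofReal (U ^ n * T ^ (-(δ0 / 2))) := by
  have hT0 : 0 < T := by linarith
  have hU1 : 1 ≤ U := hT.trans hTU
  have hU0 : 0 < U := by linarith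
  cases n with
  | zero => simp [Bn]
  | succ k =>
    refine (Bn_le _ _ k).trans ?_
    have e1 : ((k + 1 : ℕ) : ℝ≥0∞) * 2 ^ (k + 1) * ENNReal.ofReal (U ^ (1 + ε)) ^ k * ENNReal.ofReal Kr =
        ENNReal.ofReal (((k + 1 : ℕ) : ℝ) * 2 ^ (k + 1) * (U ^ (1 + ε)) ^ k * Kr) := by
      rw [ENNReal.ofReal_mul (by positivity), ENNReal.ofReal_mul (by positivity),
        ENNReal.ofReal_mul (by positivity), ENNReal.ofReal_natCast,
        ENNReal.ofReal_pow (p := U ^ (1 + ε)) (by positivity),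
        ENNReal.ofReal_pow (p := 2) (by norm_num)]
      norm_num
    rw [e1]
    apply ENNReal.ofReal_le_ofReal
    have h2 : (U ^ (1 + ε)) ^ k * U ^ (1 + 2 * ε) ≤ U ^ (k + 1) * T ^ (δ0 / 4) := by
      have e2 : (U ^ (1 + ε)) ^ k * U ^ (1 + 2 * ε) = U ^ (k + 1) * U ^ ((k + 2) * ε) := by
        rw [← Real.rpow_natCast (U ^ (1 + ε)), ← Real.rpow_mul hU0.le, ← Real.rpow_add hU0,
          ← Real.rpow_natCast U, ← Real.rpow_add hU0]
        congr 1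
        push_cast
        ring
      rw [e2]
      refine mul_le_mul_of_nonneg_left ?_ (by positivity)
      calc U ^ ((k + 2) * ε) ≤ (T ^ A) ^ ((k + 2) * ε) := Real.rpow_le_rpow hU0.le hUA (by positivity)
        _ = T ^ (A * ((k + 2) * ε)) := by rw [← Real.rpow_mul hT0.le]
        _ ≤ T ^ (δ0 / 4) := by
            apply Real.rpow_le_rpow_of_exponent_le hT
            push_cast at hεA
            linarith
    have h1 : (U ^ (1 + ε)) ^ k * (U ^ (1 + 2 * ε) * T ^ (-δ0)) ≤ U ^ (k + 1) * (T ^ (δ0 / 4) * T ^ (-δ0)) := by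
      calc _ = ((U ^ (1 + ε)) ^ k * U ^ (1 + 2 * ε)) * T ^ (-δ0) := by ring
        _ ≤ (U ^ (k + 1) * T ^ (δ0 / 4)) * T ^ (-δ0) := mul_le_mul_of_nonneg_right h2 (by positivity)
        _ = _ := by ring
    have h3 : 0 ≤ ((k + 1 : ℕ) : ℝ) * 2 ^ (k + 1) * (U ^ (1 + ε)) ^ k := by positivity
    calc ((k + 1 : ℕ) : ℝ) * 2 ^ (k + 1) * (U ^ (1 + ε)) ^ k * Kr
        ≤ ((k + 1 : ℕ) : ℝ) * 2 ^ (k + 1) * (U ^ (1 + ε)) ^ k * (U ^ (1 + 2 * ε) * T ^ (-δ0)) :=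
          mul_le_mul_of_nonneg_left hK h3
      _ = (((k + 1 : ℕ) : ℝ) * 2 ^ (k + 1)) * ((U ^ (1 + ε)) ^ k * (U ^ (1 + 2 * ε) * T ^ (-δ0))) := by ring
      _ ≤ T ^ (δ0 / 4) * (U ^ (k + 1) * (T ^ (δ0 / 4) * T ^ (-δ0))) :=
          mul_le_mul g2 h1 (by positivity) (by positivity)
      _ = U ^ (k + 1) * (T ^ (δ0 / 4) * T ^ (δ0 / 4) * T ^ (-δ0)) := by ring
      _ = _ := by
          rw [← Real.rpow_add hT0, ← Real.rpow_add hT0]
          congr 2; ring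

theorem main (n : ℕ) (θ c A : ℝ) (hθ : 0 < θ) (hθ4 : θ < 1 / 4) (hc : 0 < c) (hA : 1 ≤ A) :
    ∃ δ T₀ : ℝ, 0 < δ ∧ 1 ≤ T₀ ∧ ∀ T U : ℝ, T₀ ≤ T → T ≤ U → U ≤ T ^ A →
    ∀ (ν : Measure ℝ) [IsProbabilityMeasure ν], (∀ᵐ t ∂ν, t ∈ Icc 0 T) →
    (∀ x : ℝ, ν (Icc x (x + 1)) ≤ ENNReal.ofReal (T ^ (-c))) →
    ∀ w : ℝ → ℂ, Measurable w → (∀ t, ‖w t‖ ≤ 1) →
    volume {α : Fin n → ℝ | (∀ j, 0 ≤ α j ∧ α j ≤ U) ∧ T ^ (-δ) <
      ‖(∫ t, (∏ j, (ff (t + α j) : ℂ)) * w t ∂ν) - ∫ t, (∏ j, sh ⌊T ^ θ⌋₊ (t + α j)) * w t ∂ν‖} ≤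
    ENNReal.ofReal (U ^ n * T ^ (-δ)) := by
  set κ : ℝ := 1 / 4 - θ with hκ
  have hκ0 : 0 < κ := by rw [hκ]; linarith
  have hκ4 : κ ≤ 1 / 4 := by rw [hκ]; linarith
  obtain ⟨δ1, T1, hδ1, hT1, hcop⟩ := cop Pool.Agent.Y957.VK.zs_all (θ / 2) (c / 2) (4 * A + 4)
    (by positivity) (by positivity) (by positivity)
  set δ0 : ℝ := min (min δ1 (c / 2)) κ with hδ0
  have hδ00 : 0 < δ0 := by positivity
  have hδ0a : δ0 ≤ δ1 := (min_le_left _ _).trans (min_le_left _ _)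
  have hδ0b : δ0 ≤ c / 2 := (min_le_left _ _).trans (min_le_right _ _)
  have hδ0c : δ0 ≤ κ := min_le_right _ _
  set ε : ℝ := min (1 / 4) (δ0 / (4 * A * (n + 1))) with hε
  have hA0 : 0 < A := by linarith
  have hε0 : 0 < ε := by positivity
  have hε4 : ε ≤ 1 / 4 := min_le_left _ _
  have hεA : A * (n + 1) * ε ≤ δ0 / 4 := by
    calc A * (n + 1) * ε ≤ A * (n + 1) * (δ0 / (4 * A * (n + 1))) := by
          gcongr
          exact min_le_right _ _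
      _ = δ0 / 4 := by field_simp
  obtain ⟨C3, hC3, hcmp⟩ := cmp ε hε0
  obtain ⟨C1, hC1, hone⟩ := one
  obtain ⟨U1, hU1, hmf⟩ := ms_ff ε hε0
  obtain ⟨U2, hU2, hms⟩ := ms_sh ε hε0
  obtain ⟨U3, hU3, hlp⟩ := logpow 7 ε hε0 (C1 * 98304 + 18 * C3 ^ 2)
  obtain ⟨C4, hC4, hNS⟩ := Pool.Agent.Y961.GP.t_NS n
  obtain ⟨T2, hT2, hl2⟩ := logpow 0 (δ0 / 4) (by positivity) (n * 2 ^ n)
  obtain ⟨T3, hT3, hl3⟩ := logpow 0 (δ0 / 8) (by positivity) (C4 + 1)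
  obtain ⟨T4, hT4, hl4⟩ := logpow 0 (θ / 2) (by positivity) 2
  refine ⟨δ0 / 8, max (max (max T1 T2) (max T3 T4)) (max (max U1 U2) U3), by positivity,
    ((hT1.trans (le_max_left _ _)).trans (le_max_left _ _)).trans (le_max_left _ _),
    fun T U hT hTU hUA ν _ hν hνc w hw hw1 => ?_⟩
  have hTT1 : T1 ≤ T := ((le_max_left _ _).trans (le_max_left _ _)).trans ((le_max_left _ _).trans hT)
  have hTT2 : T2 ≤ T := ((le_max_right _ _).trans (le_max_left _ _)).trans ((le_max_left _ _).trans hT)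
  have hTT3 : T3 ≤ T := ((le_max_left _ _).trans (le_max_right _ _)).trans ((le_max_left _ _).trans hT)
  have hTT4 : T4 ≤ T := ((le_max_right _ _).trans (le_max_right _ _)).trans ((le_max_left _ _).trans hT)
  have hTU1 : U1 ≤ U := (((le_max_left _ _).trans (le_max_left _ _)).trans ((le_max_right _ _).trans hT)).trans hTU
  have hTU2 : U2 ≤ U := (((le_max_right _ _).trans (le_max_left _ _)).trans ((le_max_right _ _).trans hT)).trans hTU
  have hTU3 : U3 ≤ U := ((le_max_right _ _).trans ((le_max_right _ _).trans hT)).trans hTU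
  have hT1' : 1 ≤ T := hT1.trans hTT1
  have hT0 : 0 < T := by linarith
  have hU1' : 1 ≤ U := hT1'.trans hTU
  have hU0 : 0 < U := by linarith
  have hlU : 0 ≤ Real.log U := Real.log_nonneg hU1'
  have g2 := hl2 T hTT2
  have g3 := hl3 T hTT3
  have g4 := hl4 T hTT4
  have gU := hlp U hTU3
  rw [pow_zero, mul_one] at g2 g3 g4
  -- parameters
  set a : ℝ := U ^ (1 - κ) with ha
  have ha1 : 1 ≤ a := Real.one_le_rpow hU1' (by linarith)
  have haU : a ≤ U := by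
    rw [ha]
    calc U ^ (1 - κ) ≤ U ^ (1 : ℝ) := Real.rpow_le_rpow_of_exponent_le hU1' (by linarith)
      _ = U := Real.rpow_one U
  have haT : T ^ (1 - κ) ≤ a := Real.rpow_le_rpow hT0.le hTU (by linarith)
  have ha0 : 0 < a := by linarith
  set X : ℕ := ⌈(2 * U) ^ (1 + ε)⌉₊ with hX
  have h2U : 1 ≤ 2 * U := by linarith
  have h2U0 : 0 < 2 * U := by linarith
  have hX1 : (2 * U) ^ (1 + ε) ≤ X := Nat.le_ceil _
  have hXe : (X : ℝ) ≤ 2 * (2 * U) ^ (1 + ε) := by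
    have h1 : (X : ℝ) < (2 * U) ^ (1 + ε) + 1 := Nat.ceil_lt_add_one (by positivity)
    have h2 : (1 : ℝ) ≤ (2 * U) ^ (1 + ε) := Real.one_le_rpow h2U (by linarith)
    linarith
  have hX3 : (X : ℝ) ≤ (2 * U) ^ (3 : ℝ) := by
    refine hXe.trans ?_
    calc 2 * (2 * U) ^ (1 + ε) ≤ (2 * U) ^ (1 : ℝ) * (2 * U) ^ (1 + ε) := by
          rw [Real.rpow_one]
          have : 0 < (2 * U) ^ (1 + ε) := by positivity
          nlinarith
      _ = (2 * U) ^ (2 + ε) := by rw [← Real.rpow_add h2U0]; congr 1; ring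
      _ ≤ _ := Real.rpow_le_rpow_of_exponent_le h2U (by linarith)
  have hXr1 : (1 : ℝ) ≤ X := le_trans (Real.one_le_rpow h2U (by linarith)) hX1
  have hlX : 0 ≤ Real.log X := Real.log_nonneg hXr1
  set Z : ℕ := ⌊T ^ θ⌋₊ with hZ
  have hZ1 : (Z : ℝ) ≤ T ^ θ := Nat.floor_le (by positivity)
  have hZ2 : T ^ (θ / 2) ≤ Z := by
    have h1 := Nat.lt_floor_add_one (T ^ θ)
    rw [← hZ] at h1
    have h2 : T ^ θ = T ^ (θ / 2) * T ^ (θ / 2) := by rw [← Real.rpow_add hT0]; congr 1; ring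
    nlinarith
  have hZn : 1 ≤ Z := by
    have : (1 : ℝ) ≤ Z := by linarith
    exact_mod_cast this
  have hZT : (Z : ℝ) ≤ T := by
    refine hZ1.trans ?_
    calc T ^ θ ≤ T ^ (1 : ℝ) := Real.rpow_le_rpow_of_exponent_le hT1' (by linarith)
      _ = T := Real.rpow_one T
  have hUX : U ≤ X := by
    calc U ≤ 2 * U := by linarith
      _ = (2 * U) ^ (1 : ℝ) := (Real.rpow_one _).symm
      _ ≤ (2 * U) ^ (1 + ε) := Real.rpow_le_rpow_of_exponent_le h2U (by linarith)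
      _ ≤ X := hX1
  have hZX : Z ≤ X := by
    have : (Z : ℝ) ≤ X := hZT.trans (hTU.trans hUX)
    exact_mod_cast this
  -- the coprime sums
  have hD : ∀ V : ℝ, T ^ (c / 2) ≤ |V| → |V| ≤ T → ∀ k : ℕ, Z ≤ k → k ≤ X →
      ‖∑ p ∈ FR k, ee V p‖ ≤ k * T ^ (-δ1) := by
    intro V hV1 hV2 k hk1 hk2
    refine hcop T hTT1 V hV1 hV2 k (hZ2.trans (by exact_mod_cast hk1)) ?_
    have h1 : (k : ℝ) ≤ X := by exact_mod_cast hk2
    refine h1.trans (hX3.trans ?_)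
    have h2 : (2 : ℝ) ≤ T := by
      calc (2 : ℝ) ≤ T ^ (θ / 2) := g4
        _ ≤ T ^ (1 : ℝ) := Real.rpow_le_rpow_of_exponent_le hT1' (by linarith)
        _ = T := Real.rpow_one T
    calc (2 * U) ^ (3 : ℝ) ≤ (T * T ^ A) ^ (3 : ℝ) := by gcongr
      _ = T ^ ((1 + A) * 3) := by
          nth_rewrite 1 [← Real.rpow_one T]
          rw [← Real.rpow_add hT0, ← Real.rpow_mul hT0.le]
      _ ≤ _ := Real.rpow_le_rpow_of_exponent_le hT1' (by linarith)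
  have hH1 : 1 ≤ T ^ (c / 2) := Real.one_le_rpow hT1' (by positivity)
  have hball : ∀ t : ℝ, ν.real (Metric.ball t (T ^ (c / 2))) ≤ 3 * T ^ (-(c / 2)) := by
    intro t
    refine (ball_bd (by positivity) hH1 hνc t).trans (le_of_eq ?_)
    rw [mul_assoc, ← Real.rpow_add hT0]
    congr 2
    ring
  -- the comparison
  have hE : ∀ u : ℝ, a ≤ u → u ≤ 2 * U → ‖(ff u : ℂ) - sh Z u - hi X Z u‖ ≤ 3 * C3 * T ^ (-(κ / 2)) := by
    intro u hu1 hu2
    have hu0 : 1 ≤ u := ha1.trans hu1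
    have huT : T ^ (1 - κ) ≤ u := haT.trans hu1
    have hZu : (Z : ℝ) ≤ u ^ (1 / 2 : ℝ) := by
      calc (Z : ℝ) ≤ T ^ θ := hZ1
        _ ≤ T ^ ((1 - κ) * (1 / 2)) := Real.rpow_le_rpow_of_exponent_le hT1' (by linarith)
        _ = (T ^ (1 - κ)) ^ (1 / 2 : ℝ) := by rw [Real.rpow_mul hT0.le]
        _ ≤ _ := Real.rpow_le_rpow (by positivity) huT (by norm_num)
    refine (hcmp U u X Z hU1' hu0 hu2 hX1 hX3 hZX hZu).trans ?_
    have b1 : u ^ (-(1 / 2) + ε) ≤ T ^ (-(κ / 2)) := by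
      calc u ^ (-(1 / 2) + ε) ≤ (T ^ (1 - κ)) ^ (-(1 / 2) + ε) :=
            Real.rpow_le_rpow_of_nonpos (by positivity) huT (by linarith)
        _ = T ^ ((1 - κ) * (-(1 / 2) + ε)) := by rw [Real.rpow_mul hT0.le]
        _ ≤ _ := Real.rpow_le_rpow_of_exponent_le hT1' (by nlinarith)
    have b2 : (2 * U)⁻¹ ≤ T ^ (-(κ / 2)) := by
      calc (2 * U)⁻¹ ≤ T⁻¹ := inv_anti₀ hT0 (by linarith)
        _ = T ^ (-1 : ℝ) := (Real.rpow_neg_one T).symm
        _ ≤ _ := Real.rpow_le_rpow_of_exponent_le hT1' (by linarith)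
    have b3 : Z * u ^ (-(1 / 4) : ℝ) ≤ T ^ (-(κ / 2)) := by
      calc Z * u ^ (-(1 / 4) : ℝ) ≤ T ^ θ * (T ^ (1 - κ)) ^ (-(1 / 4) : ℝ) := by
            apply mul_le_mul hZ1 _ (by positivity) (by positivity)
            exact Real.rpow_le_rpow_of_nonpos (by positivity) huT (by norm_num)
        _ = T ^ (θ + (1 - κ) * (-(1 / 4))) := by rw [← Real.rpow_mul hT0.le, ← Real.rpow_add hT0]
        _ ≤ _ := Real.rpow_le_rpow_of_exponent_le hT1' (by rw [hκ]; linarith)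
    calc _ ≤ C3 * (T ^ (-(κ / 2)) + T ^ (-(κ / 2)) + T ^ (-(κ / 2))) := by gcongr
      _ = _ := by ring
  -- the constant of one shift
  set Kr : ℝ := C1 * ((U + X) * (1 + Real.log X) ^ 5 * (1 + Real.log U) ^ 2 *
    (5 * T ^ (-δ1) + 3 * T ^ (-(c / 2)))) + 2 * U * (3 * C3 * T ^ (-(κ / 2))) ^ 2 with hKr
  have hKr1 : Kr ≤ U ^ (1 + 2 * ε) * T ^ (-δ0) :=
    kr_bd hT1' hTU hε0 hε4 hC1 hC3 hδ0a hδ0b hδ0c hXr1 hXe hX3 gU
  -- the induction
  have hw2 : MemLp w 2 ν := MemLp.of_bound hw.aestronglyMeasurable 1 (Filter.Eventually.of_forall hw1)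
  have hind := indK (ν := ν) (μ := volume.restrict (Icc a U)) (f := fun u => (ff u : ℂ)) (s := sh Z)
    (by have := ff_cont.measurable; fun_prop) (sh_meas Z) (M := ENNReal.ofReal (U ^ (1 + ε)))
    (K := ENNReal.ofReal Kr) (Sx := Icc a U) (ae_restrict_mem measurableSet_Icc) (St := Icc 0 T) hν
    (by
      intro x _
      have hcx : Continuous (fun t : ℝ => (ff (t + x) : ℂ)) :=
        Complex.continuous_ofReal.comp (ff_cont.comp (by fun_prop))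
      obtain ⟨C, hC⟩ := (isCompact_Icc (a := (0:ℝ)) (b := T)).exists_bound_of_continuousOn hcx.continuousOn
      exact ⟨C, hC⟩)
    (by
      intro x hx
      have hcx : ContinuousOn (fun t : ℝ => sh Z (t + x)) (Icc 0 T) := by
        intro t ht'
        apply ContinuousAt.continuousWithinAt
        exact ContinuousAt.comp (f := fun t : ℝ => t + x) (g := sh Z)
          (sh_cont Z (by linarith [ht'.1, hx.1])) (by fun_prop)
      obtain ⟨C, hC⟩ := (isCompact_Icc (a := (0:ℝ)) (b := T)).exists_bound_of_continuousOn hcx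
      exact ⟨C, hC⟩)
    (fun t ht' => hmf U a t hTU1 ha0.le ht'.1 (ht'.2.trans hTU))
    (fun t ht' => hms U a t Z hTU2 ha1 ht'.1 (ht'.2.trans hTU) hZn (hZT.trans hTU))
    (fun g _ hg2 => hone ν T hν g hg2 X Z hZn hZX a U ha1 haU hTU (T ^ (c / 2)) (T ^ (-δ1))
      (3 * T ^ (-(c / 2))) (3 * C3 * T ^ (-(κ / 2))) (by positivity) (by positivity) hball hD hE)
    n w hw hw2
  have hw3 : ∫⁻ t, ‖w t‖ₑ ^ 2 ∂ν ≤ 1 := by
    calc ∫⁻ t, ‖w t‖ₑ ^ 2 ∂ν ≤ ∫⁻ _t, 1 ∂ν := by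
          refine lintegral_mono fun t => ?_
          have h1 : ‖w t‖ₑ ≤ 1 := by
            rw [← ofReal_norm, ← ENNReal.ofReal_one]
            exact ENNReal.ofReal_le_ofReal (hw1 t)
          exact pow_le_one' h1 2
      _ = 1 := by simp
  -- the size of the bound
  have hBn : Bn (ENNReal.ofReal (U ^ (1 + ε))) (ENNReal.ofReal Kr) n ≤
      ENNReal.ofReal (U ^ n * T ^ (-(δ0 / 2))) := by
    exact bn_bd hT1' hTU hUA hε0 hKr1 hεA g2
  set D : (Fin n → ℝ) → ℂ := fun α => ∫ t, ((∏ j, (ff (t + α j) : ℂ)) - ∏ j, sh Z (t + α j)) * w t ∂ν with hDd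
  have hmean : ∫⁻ α in Icc (fun _ : Fin n => a) (fun _ => U), ‖D α‖ₑ ^ 2 ≤ ENNReal.ofReal (U ^ n * T ^ (-(δ0 / 2))) := by
    have e1 : (volume : Measure (Fin n → ℝ)).restrict (Icc (fun _ => a) (fun _ => U)) =
        Measure.pi fun _ => volume.restrict (Icc a U) := by
      rw [← Set.pi_univ_Icc, volume_pi, Measure.restrict_pi_pi]
    rw [e1]
    refine hind.trans ?_
    calc _ ≤ ENNReal.ofReal (U ^ n * T ^ (-(δ0 / 2))) * 1 := mul_le_mul' hBn hw3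
      _ = _ := mul_one _
  -- Chebyshev
  have hDm : Measurable (fun α => ‖D α‖ₑ ^ 2) := by
    refine int_meas (F := fun (c : Fin n → ℝ) t => ((∏ j, (ff (t + c j) : ℂ)) - ∏ j, sh Z (t + c j)) * w t) ?_
    have m1 := ff_cont.measurable
    have m2 := sh_meas Z
    unfold Function.uncurry
    fun_prop
  have hcheb : volume {α : Fin n → ℝ | α ∈ Icc (fun _ : Fin n => a) (fun _ => U) ∧ T ^ (-(δ0 / 8)) < ‖D α‖} ≤
      ENNReal.ofReal (U ^ n * T ^ (-(δ0 / 4))) := by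
    have s1 : {α : Fin n → ℝ | α ∈ Icc (fun _ : Fin n => a) (fun _ => U) ∧ T ^ (-(δ0 / 8)) < ‖D α‖} ⊆
        {α | ENNReal.ofReal ((T ^ (-(δ0 / 8))) ^ 2) ≤ ‖D α‖ₑ ^ 2} ∩ Icc (fun _ : Fin n => a) (fun _ => U) := by
      rintro α ⟨h1, h2⟩
      refine ⟨?_, h1⟩
      show ENNReal.ofReal ((T ^ (-(δ0 / 8))) ^ 2) ≤ ‖D α‖ₑ ^ 2
      rw [← ofReal_norm, ← ENNReal.ofReal_pow (norm_nonneg _)]
      apply ENNReal.ofReal_le_ofReal
      gcongr
    refine (measure_mono s1).trans ?_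
    rw [← Measure.restrict_apply' measurableSet_Icc]
    have hpos : 0 < (T ^ (-(δ0 / 8))) ^ 2 := by positivity
    have h3 := meas_ge_le_lintegral_div (μ := volume.restrict (Icc (fun _ : Fin n => a) (fun _ => U)))
      hDm.aemeasurable (ε := ENNReal.ofReal ((T ^ (-(δ0 / 8))) ^ 2))
      (by simpa using hpos.ne') ENNReal.ofReal_ne_top
    refine h3.trans ((ENNReal.div_le_div_right hmean _).trans ?_)
    rw [← ENNReal.ofReal_div_of_pos hpos]
    apply ENNReal.ofReal_le_ofReal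
    rw [div_le_iff₀ hpos, mul_assoc]
    refine mul_le_mul_of_nonneg_left ?_ (by positivity)
    rw [← Real.rpow_natCast, ← Real.rpow_mul hT0.le, ← Real.rpow_add hT0]
    apply Real.rpow_le_rpow_of_exponent_le hT1'
    push_cast
    linarith
  -- the inclusion
  have hsub : {α : Fin n → ℝ | (∀ j, 0 ≤ α j ∧ α j ≤ U) ∧ T ^ (-(δ0 / 8)) <
      ‖(∫ t, (∏ j, (ff (t + α j) : ℂ)) * w t ∂ν) - ∫ t, (∏ j, sh Z (t + α j)) * w t ∂ν‖} ⊆
      ({α : Fin n → ℝ | ∀ j, 0 ≤ α j ∧ α j ≤ U} \ Gd n a U) ∪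
      {α : Fin n → ℝ | α ∈ Icc (fun _ : Fin n => a) (fun _ => U) ∧ T ^ (-(δ0 / 8)) < ‖D α‖} := by
    rintro α ⟨h1, h2⟩
    by_cases hG : α ∈ Gd n a U
    · right
      have h3 : α ∈ Icc (fun _ : Fin n => a) (fun _ => U) := ⟨fun j => (hG.1 j).1, fun j => (hG.1 j).2⟩
      refine ⟨h3, ?_⟩
      have i1 : Integrable (fun t => (∏ j, (ff (t + α j) : ℂ)) * w t) ν := by
        refine integ hν (T := T) ?_ hw hw1
        refine continuousOn_finsetProd _ fun j _ => ?_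
        exact (Complex.continuous_ofReal.comp (ff_cont.comp (by fun_prop))).continuousOn
      have i2 : Integrable (fun t => (∏ j, sh Z (t + α j)) * w t) ν := by
        refine integ hν (T := T) ?_ hw hw1
        refine continuousOn_finsetProd _ fun j _ => ?_
        intro t ht'
        apply ContinuousAt.continuousWithinAt
        exact ContinuousAt.comp (f := fun t : ℝ => t + α j) (g := sh Z)
          (sh_cont Z (by linarith [ht'.1, (hG.1 j).1])) (by fun_prop)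
      have e : D α = (∫ t, (∏ j, (ff (t + α j) : ℂ)) * w t ∂ν) - ∫ t, (∏ j, sh Z (t + α j)) * w t ∂ν := by
        rw [← integral_sub i1 i2]
        simp only [hDd, sub_mul]
      rw [e]
      exact h2
    · left
      exact ⟨h1, hG⟩
  refine (measure_mono hsub).trans ((measure_union_le _ _).trans ?_)
  have hns := hNS a U ha0 haU
  refine (add_le_add hns hcheb).trans ?_
  rw [← ENNReal.ofReal_add (by positivity) (by positivity)]
  apply ENNReal.ofReal_le_ofReal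
  have k1 : a / U ≤ T ^ (-(δ0 / 4)) := by
    have e1 : a / U = U ^ (-κ) := by
      rw [ha]
      nth_rewrite 2 [← Real.rpow_one U]
      rw [← Real.rpow_sub hU0]
      congr 1; ring
    rw [e1]
    calc U ^ (-κ) ≤ T ^ (-κ) := Real.rpow_le_rpow_of_nonpos hT0 hTU (by linarith)
      _ ≤ _ := Real.rpow_le_rpow_of_exponent_le hT1' (by linarith)
  calc C4 * (a / U) * U ^ n + U ^ n * T ^ (-(δ0 / 4)) ≤ C4 * T ^ (-(δ0 / 4)) * U ^ n + U ^ n * T ^ (-(δ0 / 4)) := by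
        gcongr
    _ = U ^ n * ((C4 + 1) * T ^ (-(δ0 / 4))) := by ring
    _ ≤ U ^ n * (T ^ (δ0 / 8) * T ^ (-(δ0 / 4))) := by gcongr
    _ = U ^ n * T ^ (-(δ0 / 8)) := by
        rw [← Real.rpow_add hT0]
        congr 2; ring

end Pool.Agent.H471.GS
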