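import Pool.Agent.H471.GS.Par
import Pool.Graph.R_seed8.TH158.FM.Main

set_option autoImplicit false

/-!
Mean squares over one shift.
-/

namespace Pool.Agent.H471.GS

open Complex MeasureTheory Set
open Pool.Agent.Y969.GP (ht lam FR PS V co cr PX ff S_V S_CR S_AFE)

lemma ff_cont : Continuous ff := by
  have h1 : Continuous (fun u : ℝ => riemannZeta (1 / 2 + I * u)) := by
    rw [continuous_iff_continuousAt]
    intro t
    have h1 : ContinuousAt riemannZeta (1 / 2 + I * (t : ℂ)) := by
      apply (differentiableAt_riemannZeta _).continuousAt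
      intro e
      have := congrArg Complex.re e
      norm_num at this
    have h2 : ContinuousAt (fun t : ℝ => (1 / 2 + I * (t : ℂ) : ℂ)) t := by fun_prop
    exact ContinuousAt.comp (f := fun t : ℝ => (1 / 2 + I * (t : ℂ) : ℂ)) h1 h2
  unfold ff
  exact h1.norm.pow 2

/-- polynomial in the logarithm against a power -/
lemma logpow (k : ℕ) (η : ℝ) (hη : 0 < η) (K : ℝ) : ∃ T₀ : ℝ, 1 ≤ T₀ ∧ ∀ T : ℝ, T₀ ≤ T →
    K * (1 + Real.log T) ^ k ≤ T ^ η := by
  rcases Nat.eq_zero_or_pos k with h0 | h0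
  · subst h0
    obtain ⟨T₀, hT₀, h⟩ := log_small η hη |K|
    refine ⟨T₀, hT₀, fun T hT => ?_⟩
    have h1 := h T hT
    have h2 : 0 ≤ Real.log T := Real.log_nonneg (hT₀.trans hT)
    have h3 := le_abs_self K
    have h4 : 0 ≤ |K| * Real.log T := by positivity
    rw [pow_zero, mul_one]
    linarith
  · have hk : (0 : ℝ) < k := by exact_mod_cast h0
    obtain ⟨T₀, hT₀, h⟩ := log_small (η / (2 * k)) (by positivity) 1
    obtain ⟨T₁, hT₁, h'⟩ := log_small (η / 2) (by positivity) |K|
    refine ⟨max T₀ T₁, hT₀.trans (le_max_left _ _), fun T hT => ?_⟩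
    have h1 := h T ((le_max_left _ _).trans hT)
    have h1' := h' T ((le_max_right _ _).trans hT)
    have hT1 : 1 ≤ T := hT₀.trans ((le_max_left _ _).trans hT)
    have hT0 : 0 < T := by linarith
    have h2 : 0 ≤ Real.log T := Real.log_nonneg hT1
    have h3 := le_abs_self K
    have h4 : 0 ≤ |K| * Real.log T := by positivity
    rw [one_mul] at h1
    have h5 : (1 + Real.log T) ^ k ≤ T ^ (η / 2) := by
      calc (1 + Real.log T) ^ k ≤ (T ^ (η / (2 * k))) ^ k := by gcongr
        _ = T ^ (η / 2) := by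
          rw [← Real.rpow_natCast, ← Real.rpow_mul hT0.le]
          congr 1
          field_simp
    calc K * (1 + Real.log T) ^ k ≤ T ^ (η / 2) * T ^ (η / 2) := by
          apply mul_le_mul (by linarith) h5 (by positivity) (by positivity)
      _ = T ^ η := by rw [← Real.rpow_add hT0]; congr 1; ring

/-- the fourth moment of zeta over one shift -/
lemma ms_ff (ε : ℝ) (hε : 0 < ε) : ∃ U₀ : ℝ, 1 ≤ U₀ ∧ ∀ (U a t : ℝ), U₀ ≤ U → 0 ≤ a → 0 ≤ t → t ≤ U →
    ∫⁻ x in Icc a U, ‖(ff (t + x) : ℂ)‖ₑ ^ 2 ≤ ENNReal.ofReal (U ^ (1 + ε)) := by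
  obtain ⟨T₁, hT₁, h1⟩ := logpow 4 ε hε 2
  refine ⟨max T₁ 1000, hT₁.trans (le_max_left _ _), fun U a t hU ha ht0 htU => ?_⟩
  have hU1 : T₁ ≤ U := (le_max_left _ _).trans hU
  have hU2 : 1000 ≤ U := (le_max_right _ _).trans hU
  have hU0 : 0 < U := by linarith
  have g1 := h1 U hU1
  have e1 : ∀ x : ℝ, ‖(ff (t + x) : ℂ)‖ₑ ^ 2 = ENNReal.ofReal (ff (t + x) ^ 2) := by
    intro x
    rw [← ofReal_norm, Complex.norm_real, ← ENNReal.ofReal_pow (norm_nonneg _), Real.norm_eq_abs, sq_abs]
  simp_rw [e1]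
  have hc : Continuous (fun x => ff (t + x) ^ 2) := (ff_cont.comp (by fun_prop)).pow 2
  rw [← ofReal_integral_eq_lintegral_ofReal (hc.integrableOn_Icc)
    (Filter.Eventually.of_forall fun x => by positivity)]
  apply ENNReal.ofReal_le_ofReal
  rcases le_or_gt a U with haU | haU
  swap
  · rw [Icc_eq_empty (by linarith)]
    simp only [Measure.restrict_empty, integral_zero_measure]
    positivity
  rw [integral_Icc_eq_integral_Ioc, ← intervalIntegral.integral_of_le haU,
    intervalIntegral.integral_comp_add_left (fun y => ff y ^ 2) t]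
  have hc2 : Continuous (fun y => ff y ^ 2) := ff_cont.pow 2
  have s1 : ∫ y in (t + a)..(t + U), ff y ^ 2 ≤ ∫ y in (0:ℝ)..(2 * U), ff y ^ 2 := by
    apply intervalIntegral.integral_mono_interval (by linarith) (by linarith) (by linarith)
      (Filter.Eventually.of_forall fun y => by positivity) (hc2.intervalIntegrable _ _)
  refine s1.trans ?_
  have s2 := Pool.Agent.TH158.FM.fourth_all (2 * U) (by linarith)
  have s3 : ∫ y in (0:ℝ)..(2 * U), ff y ^ 2 =
      ∫ t in (0:ℝ)..(2 * U), ‖riemannZeta (Pool.Agent.TH158.FM.pt (1 / 2) t)‖ ^ 4 := by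
    congr 1
    funext y
    unfold ff Pool.Agent.TH158.FM.pt
    rw [← pow_mul]
    congr 3
    push_cast
    ring
  rw [s3]
  refine s2.trans ?_
  have l1 : Real.log (2 * U) ≤ 1 + Real.log U := by
    rw [Real.log_mul (by norm_num) hU0.ne']
    have := Real.log_two_lt_d9
    linarith
  have l2 : 0 ≤ Real.log (2 * U) := Real.log_nonneg (by linarith)
  calc 4 / 5 * (2 * U * Real.log (2 * U) ^ 4) ≤ 4 / 5 * (2 * U * (1 + Real.log U) ^ 4) := by gcongr
    _ ≤ U * (2 * (1 + Real.log U) ^ 4) := by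
        have : 0 ≤ U * (1 + Real.log U) ^ 4 := by
          have : 0 ≤ Real.log U := Real.log_nonneg (by linarith)
          positivity
        linarith
    _ ≤ U * U ^ ε := by gcongr
    _ = U ^ (1 + ε) := by rw [Real.rpow_add hU0, Real.rpow_one]

lemma sh_meas (Z : ℕ) : Measurable (sh Z) := by
  unfold sh
  refine Finset.measurable_fun_sum _ fun p _ => ?_
  have h1 : Measurable (fun u : ℝ => (√(ht p))⁻¹ * (Real.log (u / (2 * Real.pi * ht p)) +
      2 * Real.eulerMascheroniConstant)) := by fun_prop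
  exact (Complex.measurable_ofReal.comp h1).mul (ee_cont p).measurable

lemma sh_cont (Z : ℕ) {u : ℝ} (hu : 0 < u) : ContinuousAt (sh Z) u := by
  unfold sh
  refine tendsto_finsetSum _ fun p hp => ?_
  rw [mem_FR'] at hp
  have hp0 := ht_pos hp.1 hp.2.1
  have hpi := Real.pi_pos
  have h1 : ContinuousAt (fun u : ℝ => (√(ht p))⁻¹ * (Real.log (u / (2 * Real.pi * ht p)) +
      2 * Real.eulerMascheroniConstant)) u := by
    have h2 : ContinuousAt (fun u : ℝ => Real.log (u / (2 * Real.pi * ht p))) u :=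
      ContinuousAt.log (by fun_prop) (by positivity)
    fun_prop
  exact (Complex.continuous_ofReal.continuousAt.comp h1).mul (ee_cont p).continuousAt

/-- the mean square of the short polynomial over one shift -/
lemma ms_sh (ε : ℝ) (hε : 0 < ε) : ∃ U₀ : ℝ, 1 ≤ U₀ ∧ ∀ (U a t : ℝ) (Z : ℕ), U₀ ≤ U → 1 ≤ a → 0 ≤ t → t ≤ U →
    1 ≤ Z → (Z : ℝ) ≤ U →
    ∫⁻ x in Icc a U, ‖sh Z (t + x)‖ₑ ^ 2 ≤ ENNReal.ofReal (U ^ (1 + ε)) := by
  obtain ⟨C, hC, hLS⟩ := LS1
  obtain ⟨T₁, hT₁, h1⟩ := logpow 5 ε hε (32 * C)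
  refine ⟨T₁, hT₁, fun U a t Z hU ha ht0 htU hZ hZU => ?_⟩
  have hU1 : 1 ≤ U := hT₁.trans hU
  have hU0 : 0 < U := by linarith
  have g1 := h1 U hU
  have hlU : 0 ≤ Real.log U := Real.log_nonneg hU1
  have hZ1 : (1 : ℝ) ≤ Z := by exact_mod_cast hZ
  have hlZ : 0 ≤ Real.log Z := Real.log_nonneg hZ1
  have hlZU : Real.log Z ≤ Real.log U := Real.log_le_log (by linarith) hZU
  rcases le_or_gt a U with haU | haU
  swap
  · rw [Icc_eq_empty (by linarith)]
    simp
  have hcs : ContinuousOn (fun x => sh Z (t + x)) (Icc a U) := by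
    intro x hx
    apply ContinuousAt.continuousWithinAt
    exact ContinuousAt.comp (f := fun x : ℝ => t + x) (g := sh Z) (sh_cont Z (by linarith [hx.1]))
      (by fun_prop)
  have e1 : ∀ x : ℝ, ‖sh Z (t + x)‖ₑ ^ 2 = ENNReal.ofReal (‖sh Z (t + x)‖ ^ 2) := by
    intro x
    rw [← ofReal_norm, ← ENNReal.ofReal_pow (norm_nonneg _)]
  simp_rw [e1]
  have hi2 : Integrable (fun x => ‖sh Z (t + x)‖ ^ 2) (volume.restrict (Icc a U)) :=
    (hcs.norm.pow 2).integrableOn_compact isCompact_Icc
  rw [← ofReal_integral_eq_lintegral_ofReal hi2 (Filter.Eventually.of_forall fun x => by positivity)]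
  apply ENNReal.ofReal_le_ofReal
  have hpi := Real.pi_pos
  have hpi3 := Real.pi_gt_three
  have hpi4 := Real.pi_le_four
  -- the large sieve
  set cf : ℕ × ℕ → ℝ → ℝ := fun p x => (√(ht p))⁻¹ * (Real.log ((t + x) / (2 * Real.pi * ht p)) +
      2 * Real.eulerMascheroniConstant) with hcf
  have hls := hLS Z a U hZ hU1 (by linarith) haU (fun p x => ((cf p x : ℝ) : ℂ) * ee t p)
    (fun p x => (((√(ht p))⁻¹ * (1 / (t + x)) : ℝ) : ℂ) * ee t p)
    (fun p => (√(ht p))⁻¹ * (4 * (1 + Real.log U))) (by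
      intro p hp x hx
      rw [mem_FR'] at hp
      have hp0 := ht_pos hp.1 hp.2.1
      have htx : 0 < t + x := by linarith [hx.1]
      have d1 : HasDerivAt (fun x : ℝ => (t + x) / (2 * Real.pi * ht p)) (1 / (2 * Real.pi * ht p)) x := by
        have := ((hasDerivAt_id x).const_add t).div_const (2 * Real.pi * ht p)
        exact this
      have d2 := ((d1.log (by positivity)).add_const (2 * Real.eulerMascheroniConstant)).const_mul
        (√(ht p))⁻¹
      have e : (√(ht p))⁻¹ * (1 / (2 * Real.pi * ht p) / ((t + x) / (2 * Real.pi * ht p))) =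
          (√(ht p))⁻¹ * (1 / (t + x)) := by
        field_simp
      rw [e] at d2
      exact (d2.ofReal_comp).mul_const _) (by
      intro p hp
      refine ContinuousOn.mul ?_ continuousOn_const
      intro x hx
      have htx : t + x ≠ 0 := by linarith [hx.1]
      apply ContinuousAt.continuousWithinAt
      have : ContinuousAt (fun x : ℝ => (√(ht p))⁻¹ * (1 / (t + x))) x := by
        apply ContinuousAt.mul continuousAt_const
        exact continuousAt_const.div (by fun_prop) htx
      exact Complex.continuous_ofReal.continuousAt.comp this) (by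
      intro p hp x hx
      rw [mem_FR'] at hp
      have hp0 := ht_pos hp.1 hp.2.1
      have hhZ : ht p ≤ U := by
        refine le_trans ?_ hZU
        rw [← ht_cast]
        exact_mod_cast hp.2.2.1
      have hh1 : 1 ≤ ht p := by
        rw [← ht_cast]
        exact_mod_cast Nat.mul_pos hp.1 hp.2.1
      have htx : 1 ≤ t + x := by linarith [hx.1]
      have htx2 : t + x ≤ 2 * U := by linarith [hx.2]
      rw [norm_mul, norm_ee, mul_one, Complex.norm_real, Real.norm_eq_abs]
      simp only [hcf]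
      rw [abs_mul, abs_of_nonneg (by positivity : 0 ≤ (√(ht p))⁻¹)]
      refine mul_le_mul_of_nonneg_left ?_ (by positivity)
      rw [Real.log_div (by linarith) (by positivity), Real.log_mul (by positivity) hp0.ne',
        Real.log_mul (by norm_num) hpi.ne']
      have a1 : 0 ≤ Real.log (t + x) := Real.log_nonneg htx
      have a2 : Real.log (t + x) ≤ Real.log 2 + Real.log U := by
        rw [← Real.log_mul (by norm_num) hU0.ne']
        exact Real.log_le_log (by linarith) htx2
      have a3 : 0 ≤ Real.log (ht p) := Real.log_nonneg hh1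
      have a4 : Real.log (ht p) ≤ Real.log U := Real.log_le_log hp0 hhZ
      have a5 : 0 ≤ Real.log Real.pi := Real.log_nonneg (by linarith)
      have a6 : Real.log Real.pi ≤ 2 * Real.log 2 := by
        have : Real.log Real.pi ≤ Real.log (2 ^ 2) := Real.log_le_log hpi (by linarith)
        rwa [Real.log_pow] at this
      have a7 := Real.log_two_lt_d9
      have a8 := Real.log_two_gt_d9
      have a9 := Real.eulerMascheroniConstant_lt_two_thirds
      have a10 := Real.one_half_lt_eulerMascheroniConstant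
      rw [abs_le]
      constructor <;> nlinarith) (by
      intro p hp
      rw [mem_FR'] at hp
      have hp0 := ht_pos hp.1 hp.2.1
      have e : ∀ x ∈ uIcc a U, ‖(((√(ht p))⁻¹ * (1 / (t + x)) : ℝ) : ℂ) * ee t p‖ = (√(ht p))⁻¹ * (1 / (t + x)) := by
        intro x hx
        rw [uIcc_of_le haU] at hx
        have htx : 0 < t + x := by linarith [hx.1]
        rw [norm_mul, norm_ee, mul_one, Complex.norm_real, Real.norm_of_nonneg (by positivity)]
      rw [intervalIntegral.integral_congr e, intervalIntegral.integral_const_mul,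
        intervalIntegral.integral_comp_add_left (fun y => 1 / y) t,
        integral_one_div_of_pos (by linarith) (by linarith)]
      refine mul_le_mul_of_nonneg_left ?_ (by positivity)
      have a2 : Real.log ((t + U) / (t + a)) ≤ Real.log 2 + Real.log U := by
        rw [← Real.log_mul (by norm_num) hU0.ne']
        apply Real.log_le_log (by positivity)
        rw [div_le_iff₀ (by linarith)]
        nlinarith
      have a7 := Real.log_two_lt_d9
      linarith)
  have eL : ∀ x ∈ Icc a U, ‖sh Z (t + x)‖ ^ 2 =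
      ‖∑ p ∈ FR Z, ((cf p x : ℝ) : ℂ) * ee t p * cexp (I * ((x * lam p : ℝ) : ℂ))‖ ^ 2 := by
    intro x _
    congr 2
    unfold sh
    refine Finset.sum_congr rfl fun p _ => ?_
    have : ee (t + x) p = ee t p * cexp (I * ((x * lam p : ℝ) : ℂ)) := by
      unfold ee
      rw [← Complex.exp_add]
      congr 1
      push_cast
      ring
    rw [this, ← mul_assoc]
  rw [setIntegral_congr_fun measurableSet_Icc eL]
  refine hls.trans ?_
  have sw : ∑ p ∈ FR Z, ((√(ht p))⁻¹ * (4 * (1 + Real.log U))) ^ 2 ≤ (1 + Real.log U) ^ 2 * (16 * (1 + Real.log U) ^ 2) := by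
    have e : ∀ p ∈ FR Z, ((√(ht p))⁻¹ * (4 * (1 + Real.log U))) ^ 2 = (ht p)⁻¹ * (16 * (1 + Real.log U) ^ 2) := by
      intro p hp
      rw [mem_FR'] at hp
      rw [mul_pow, inv_pow, Real.sq_sqrt (ht_pos hp.1 hp.2.1).le]
      ring
    rw [Finset.sum_congr rfl e, ← Finset.sum_mul]
    refine mul_le_mul_of_nonneg_right ((sum_inv_ht Z).trans ?_) (by positivity)
    gcongr
  calc C * ((U + Z) * (1 + Real.log Z)) * ∑ p ∈ FR Z, ((√(ht p))⁻¹ * (4 * (1 + Real.log U))) ^ 2
      ≤ C * ((U + U) * (1 + Real.log U)) * ((1 + Real.log U) ^ 2 * (16 * (1 + Real.log U) ^ 2)) := by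
        gcongr
    _ = U * (32 * C * (1 + Real.log U) ^ 5) := by ring
    _ ≤ U * U ^ ε := by gcongr
    _ = U ^ (1 + ε) := by rw [Real.rpow_add hU0, Real.rpow_one]

end Pool.Agent.H471.GS
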