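import Pool.Agent.H471.GS.Ovl
import Pool.Graph.R_seed8.Y587.GP.V
import Pool.Graph.R_seed8.Y545.GP.CR
import Pool.Graph.R_seed8.Y620.SX.CRA
import Pool.Graph.R_seed8.Y891.GP.AFE
import Pool.Graph.R_seed8.Y587.GP.Chi

set_option autoImplicit false

/-!
The coefficients as functions of the height, and the comparison of zeta with the polynomials.
-/

namespace Pool.Agent.H471.GS

open Complex MeasureTheory Set
open Pool.Agent.Y969.GP (ht lam FR PS V co cr PX ff S_V S_CR S_AFE)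

/-- the amplitude of all coefficients -/
noncomputable def ph (X : ℕ) : ℝ → ℝ := cr X (1, 1)

lemma amp_ph : ∃ C : ℝ, 0 < C ∧ ∀ X : ℕ, 1 ≤ X → Amp2 (ph X) (C * (1 + Real.log X)) := by
  obtain ⟨-, -, C, hC, h⟩ := Pool.Agent.Y545.GP.t_CR Pool.Agent.Y587.GP.t_V
  refine ⟨2 * C, by positivity, fun X hX => ?_⟩
  have hX1 : (1 : ℝ) ≤ X := by exact_mod_cast hX
  have hl : 0 ≤ Real.log X := Real.log_nonneg hX1
  have hmem : (1, 1) ∈ FR X := by
    rw [mem_FR']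
    exact ⟨le_rfl, le_rfl, by simpa using hX, by norm_num⟩
  have hht : ht (1, 1) = 1 := by unfold ht; norm_num
  have hh : ∀ u : ℝ, 0 < u → DifferentiableAt ℝ (ph X) u ∧ DifferentiableAt ℝ (deriv (ph X)) u ∧
      |ph X u| ≤ C * (1 + Real.log X) ∧ |u * deriv (ph X) u| ≤ C * (1 + Real.log X) ∧
      |u ^ 2 * deriv (deriv (ph X)) u| ≤ C * (1 + Real.log X) := by
    intro u hu
    obtain ⟨a, b, _, c, d, e⟩ := h X (1, 1) hmem u hu
    rw [hht, Real.sqrt_one, inv_one, mul_one] at c d e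
    exact ⟨a, b, c, d, e⟩
  have hCl : 0 ≤ C * (1 + Real.log X) := by positivity
  refine ⟨⟨by positivity, fun u hu => ?_, fun u hu => (hh u hu).1, fun u hu => ?_⟩,
    ⟨by positivity, fun u hu => ?_, fun u hu => ?_, fun u hu => ?_⟩⟩
  · have := (hh u hu).2.2.1; linarith
  · have := (hh u hu).2.2.2.1; linarith
  · have := (hh u hu).2.2.2.1; linarith
  · exact differentiableAt_id.mul (hh u hu).2.1
  · have h1 : HasDerivAt (fun u => u * deriv (ph X) u) (1 * deriv (ph X) u + u * deriv (deriv (ph X)) u) u :=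
      (hasDerivAt_id u).mul (hh u hu).2.1.hasDerivAt
    rw [h1.deriv]
    have e : u * (1 * deriv (ph X) u + u * deriv (deriv (ph X)) u) =
        u * deriv (ph X) u + u ^ 2 * deriv (deriv (ph X)) u := by ring
    rw [e]
    refine (abs_add_le _ _).trans ?_
    have h2 := (hh u hu).2.2.2.1
    have h3 := (hh u hu).2.2.2.2
    linarith

/-- the amplitude against the coefficients -/
lemma aP_cr (A : ℝ) (hA : 0 ≤ A) : ∃ C : ℝ, 0 < C ∧ ∀ (X : ℕ) (p : ℕ × ℕ) (u : ℝ), 1 ≤ X → 1 ≤ p.1 → 1 ≤ p.2 →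
    0 < u → |cr X p u - aP (ph X) p u| ≤ C * (X * ((X : ℝ) / u) ^ (-A)) := by
  obtain ⟨hV0, -, -, -, -, hVA, -⟩ := Pool.Agent.Y587.GP.t_V
  obtain ⟨C, hC, hV⟩ := hVA A hA
  refine ⟨2 * C, by positivity, fun X p u hX h1 h2 hu => ?_⟩
  have hX1 : (1 : ℝ) ≤ X := by exact_mod_cast hX
  have hp := ht_pos h1 h2
  have hsq : 0 < √(ht p) := Real.sqrt_pos.2 hp
  have hterm : ∀ g : ℕ, 1 ≤ g → (√(ht p))⁻¹ * co (g * 1, g * 1) (u / ht p) = co (g * p.1, g * p.2) u := by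
    intro g hg
    have hg0 : (0 : ℝ) < g := by exact_mod_cast hg
    have e1 : ht (g * 1, g * 1) = (g : ℝ) ^ 2 := by unfold ht; push_cast; ring
    have e2 : ht (g * p.1, g * p.2) = (g : ℝ) ^ 2 * ht p := by unfold ht; push_cast; ring
    unfold co
    rw [e1, e2, Real.sqrt_mul (by positivity), Real.sqrt_sq hg0.le]
    have e3 : 2 * Real.pi * (g : ℝ) ^ 2 / (u / ht p) = 2 * Real.pi * ((g : ℝ) ^ 2 * ht p) / u := by
      field_simp
    rw [e3, mul_inv]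
    ring
  have e1 : aP (ph X) p u = ∑ g ∈ (Finset.Icc 1 X).filter (fun g => g * g * (1 * 1) ≤ X),
      co (g * p.1, g * p.2) u := by
    unfold aP ph cr
    rw [Finset.mul_sum]
    refine Finset.sum_congr rfl fun g hg => ?_
    rw [Finset.mem_filter, Finset.mem_Icc] at hg
    exact hterm g hg.1.1
  have hpn : 1 ≤ p.1 * p.2 := Nat.mul_pos h1 h2
  have e2 : cr X p u = ∑ g ∈ ((Finset.Icc 1 X).filter (fun g => g * g * (1 * 1) ≤ X)).filter
      (fun g => g * g * (p.1 * p.2) ≤ X), co (g * p.1, g * p.2) u := by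
    unfold cr
    apply Finset.sum_congr _ fun _ _ => rfl
    ext g
    simp only [Finset.mem_filter, Finset.mem_Icc, mul_one]
    constructor
    · rintro ⟨a, b⟩
      exact ⟨⟨a, (Nat.le_mul_of_pos_right _ hpn).trans b⟩, b⟩
    · rintro ⟨⟨a, _⟩, b⟩
      exact ⟨a, b⟩
  have e3 : cr X p u - aP (ph X) p u = -∑ g ∈ ((Finset.Icc 1 X).filter (fun g => g * g * (1 * 1) ≤ X)).filter
      (fun g => ¬ g * g * (p.1 * p.2) ≤ X), co (g * p.1, g * p.2) u := by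
    rw [e1, e2, ← Finset.sum_filter_add_sum_filter_not ((Finset.Icc 1 X).filter (fun g => g * g * (1 * 1) ≤ X))
      (fun g => g * g * (p.1 * p.2) ≤ X)]
    ring
  rw [e3, abs_neg]
  have hXu : 0 < (X : ℝ) / u := by positivity
  have hb : ∀ g ∈ ((Finset.Icc 1 X).filter (fun g => g * g * (1 * 1) ≤ X)).filter
      (fun g => ¬ g * g * (p.1 * p.2) ≤ X), |co (g * p.1, g * p.2) u| ≤ 2 * C * ((X : ℝ) / u) ^ (-A) := by
    intro g hg
    simp only [Finset.mem_filter, Finset.mem_Icc, not_le] at hg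
    obtain ⟨⟨⟨hg1, _⟩, _⟩, hg2⟩ := hg
    have hg0 : (1 : ℝ) ≤ g := by exact_mod_cast hg1
    have e4 : ht (g * p.1, g * p.2) = ((g * g * (p.1 * p.2) : ℕ) : ℝ) := by
      unfold ht; push_cast; ring
    have hh : (X : ℝ) ≤ ht (g * p.1, g * p.2) := by rw [e4]; exact_mod_cast hg2.le
    have hh1 : 1 ≤ ht (g * p.1, g * p.2) := hX1.trans hh
    unfold co
    have hpi : (3 : ℝ) < Real.pi := Real.pi_gt_three
    have harg : (X : ℝ) / u ≤ 2 * Real.pi * ht (g * p.1, g * p.2) / u := by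
      apply div_le_div_of_nonneg_right _ hu.le
      nlinarith
    have harg0 : 0 < 2 * Real.pi * ht (g * p.1, g * p.2) / u := hXu.trans_le harg
    obtain ⟨hV1, -⟩ := hV0 _ harg0
    rw [abs_mul, abs_of_nonneg hV1, abs_of_nonneg (by positivity)]
    have j1 : 2 * (√(ht (g * p.1, g * p.2)))⁻¹ ≤ 2 := by
      have := inv_le_one_of_one_le₀ (Real.one_le_sqrt.2 hh1)
      linarith
    have j2 : V (2 * Real.pi * ht (g * p.1, g * p.2) / u) ≤ C * ((X : ℝ) / u) ^ (-A) := by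
      refine (hV _ harg0).trans ?_
      refine mul_le_mul_of_nonneg_left ?_ hC.le
      exact Real.rpow_le_rpow_of_nonpos hXu harg (by linarith)
    calc _ ≤ 2 * (C * ((X : ℝ) / u) ^ (-A)) := mul_le_mul j1 j2 hV1 (by norm_num)
      _ = _ := by ring
  refine (Finset.abs_sum_le_sum_abs _ _).trans ((Finset.sum_le_card_nsmul _ _ _ hb).trans ?_)
  rw [nsmul_eq_mul]
  have hcard : (((((Finset.Icc 1 X).filter (fun g => g * g * (1 * 1) ≤ X)).filter
      (fun g => ¬ g * g * (p.1 * p.2) ≤ X)).card : ℕ) : ℝ) ≤ X := by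
    have : (((Finset.Icc 1 X).filter (fun g => g * g * (1 * 1) ≤ X)).filter
      (fun g => ¬ g * g * (p.1 * p.2) ≤ X)).card ≤ X := by
      refine (Finset.card_filter_le _ _).trans ((Finset.card_filter_le _ _).trans ?_)
      simp
    exact_mod_cast this
  calc _ ≤ (X : ℝ) * (2 * C * ((X : ℝ) / u) ^ (-A)) := by gcongr
    _ = _ := by ring

/-- the short polynomial with explicit coefficients -/
noncomputable def sh (Z : ℕ) (u : ℝ) : ℂ :=
  ∑ p ∈ FR Z, (((√(ht p))⁻¹ * (Real.log (u / (2 * Real.pi * ht p)) + 2 * Real.eulerMascheroniConstant) : ℝ) : ℂ) *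
    ee u p

/-- the high part -/
noncomputable def hi (X Z : ℕ) (u : ℝ) : ℂ := ∑ p ∈ FH X Z, ((aP (ph X) p u : ℝ) : ℂ) * ee u p

lemma card_FR' (X : ℕ) : (((FR X).card : ℕ) : ℝ) ≤ (X : ℝ) * X := by
  exact_mod_cast Pool.Agent.Y379.GP.card_FR X

lemma sum_sqrt (Z : ℕ) : ∑ p ∈ FR Z, (√(ht p))⁻¹ ≤ 4 * Z := by
  have h1 : ∑ p ∈ FR Z, (√(ht p))⁻¹ ≤ ∑ p ∈ Finset.Icc 1 Z ×ˢ Finset.Icc 1 Z, (√(ht p))⁻¹ := by
    apply Finset.sum_le_sum_of_subset_of_nonneg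
    · intro p hp
      obtain ⟨a, b, _, _, c, d⟩ := Pool.Agent.Y379.GP.mem_FR hp
      exact Finset.mem_product.2 ⟨Finset.mem_Icc.2 ⟨a, c⟩, Finset.mem_Icc.2 ⟨b, d⟩⟩
    · intro p _ _
      positivity
  have h2 : ∑ p ∈ Finset.Icc 1 Z ×ˢ Finset.Icc 1 Z, (√(ht p))⁻¹ = (∑ j ∈ Finset.Icc 1 Z, (√(j : ℝ))⁻¹) ^ 2 := by
    rw [pow_two, Finset.sum_mul_sum, Finset.sum_product]
    refine Finset.sum_congr rfl fun a _ => Finset.sum_congr rfl fun b _ => ?_
    unfold ht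
    rw [Real.sqrt_mul (by positivity), mul_inv]
  have h3 : ∀ n : ℕ, ∑ j ∈ Finset.Icc 1 n, (√(j : ℝ))⁻¹ ≤ 2 * √(n : ℝ) := by
    intro n
    induction n with
    | zero => simp
    | succ n ih =>
      rw [Finset.sum_Icc_succ_top (by omega)]
      have a1 : 0 ≤ √(n : ℝ) := Real.sqrt_nonneg _
      have a2 : 0 < √((n + 1 : ℕ) : ℝ) := Real.sqrt_pos.2 (by positivity)
      have b1 : √(n : ℝ) * √(n : ℝ) = n := Real.mul_self_sqrt (by positivity)
      have b2 : √((n + 1 : ℕ) : ℝ) * √((n + 1 : ℕ) : ℝ) = n + 1 := by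
        rw [Real.mul_self_sqrt (by positivity)]; push_cast; ring
      have c1 : √(n : ℝ) ≤ √((n + 1 : ℕ) : ℝ) := Real.sqrt_le_sqrt (by push_cast; linarith)
      have c2 : (√((n + 1 : ℕ) : ℝ))⁻¹ ≤ 2 * √((n + 1 : ℕ) : ℝ) - 2 * √(n : ℝ) := by
        rw [inv_le_iff_one_le_mul₀ a2]
        nlinarith
      linarith
  rw [h2] at h1
  refine h1.trans ?_
  have h4 := h3 Z
  have h5 : 0 ≤ ∑ j ∈ Finset.Icc 1 Z, (√(j : ℝ))⁻¹ := Finset.sum_nonneg fun _ _ => by positivity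
  calc _ ≤ (2 * √(Z : ℝ)) ^ 2 := by gcongr
    _ = 4 * Z := by rw [mul_pow, Real.sq_sqrt (by positivity)]; norm_num

lemma FR_split {X Z : ℕ} (hZX : Z ≤ X) (f : ℕ × ℕ → ℂ) :
    ∑ p ∈ FR X, f p = ∑ p ∈ FR Z, f p + ∑ p ∈ FH X Z, f p := by
  rw [← Finset.sum_filter_not_add_sum_filter (FR X) (fun p => Z < p.1 * p.2)]
  congr 1
  apply Finset.sum_congr _ fun _ _ => rfl
  ext p
  simp only [Finset.mem_filter, mem_FR', not_lt]
  constructor
  · rintro ⟨⟨a, b, c, d⟩, e⟩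
    exact ⟨a, b, e, d⟩
  · rintro ⟨a, b, c, d⟩
    exact ⟨⟨a, b, c.trans hZX, d⟩, c⟩

/-- zeta against the short polynomial and the high part -/
theorem cmp (ε : ℝ) (hε : 0 < ε) : ∃ C : ℝ, 0 < C ∧ ∀ (U u : ℝ) (X Z : ℕ), 1 ≤ U → 1 ≤ u → u ≤ 2 * U →
    (2 * U) ^ (1 + ε) ≤ X → (X : ℝ) ≤ (2 * U) ^ (3 : ℝ) → Z ≤ X → (Z : ℝ) ≤ u ^ (1 / 2 : ℝ) →
    ‖(ff u : ℂ) - sh Z u - hi X Z u‖ ≤ C * (u ^ (-(1 / 2) + ε) + (2 * U)⁻¹ + Z * u ^ (-(1 / 4) : ℝ)) := by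
  obtain ⟨C1, hC1, h1⟩ := Pool.Agent.Y891.GP.t_AFE Pool.Agent.Y587.GP.t_V Pool.Agent.Y587.GP.Chi.t_CHI ε hε
  obtain ⟨C2, hC2, h2⟩ := aP_cr (10 / ε) (by positivity)
  obtain ⟨C3, hC3, h3⟩ := Pool.Agent.Y620.SX.t_CRA' ε hε
  obtain ⟨hgr, -⟩ := Pool.Agent.Y545.GP.t_CR Pool.Agent.Y587.GP.t_V
  refine ⟨C1 + 2 * C2 + 4 * C3, by positivity, fun U u X Z hU hu huU hX1 hX2 hZX hZu => ?_⟩
  have hU2 : 1 ≤ 2 * U := by linarith
  have hU0 : 0 < 2 * U := by linarith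
  have hu0 : 0 < u := by linarith
  have hX1' : (1 : ℝ) ≤ X := le_trans (Real.one_le_rpow hU2 (by linarith)) hX1
  have hXn : 1 ≤ X := by exact_mod_cast hX1'
  have huX : u ^ (1 + ε) ≤ X := le_trans (Real.rpow_le_rpow hu0.le huU (by linarith)) hX1
  -- the common error
  have herr : ∀ p ∈ FR X, |cr X p u - aP (ph X) p u| ≤ C2 * (X * ((X : ℝ) / u) ^ (-(10 / ε))) := by
    intro p hp
    rw [mem_FR'] at hp
    exact h2 X p u hXn hp.1 hp.2.1 hu0
  have hsm : (X : ℝ) * X * (C2 * (X * ((X : ℝ) / u) ^ (-(10 / ε)))) ≤ C2 * (2 * U)⁻¹ := by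
    have a1 : (2 * U) ^ ε ≤ (X : ℝ) / u := by
      rw [le_div_iff₀ hu0]
      calc (2 * U) ^ ε * u ≤ (2 * U) ^ ε * (2 * U) := by gcongr
        _ = (2 * U) ^ (1 + ε) := by rw [Real.rpow_add hU0, Real.rpow_one]; ring
        _ ≤ X := hX1
    have a2 : ((X : ℝ) / u) ^ (-(10 / ε)) ≤ (2 * U) ^ (-10 : ℝ) := by
      have a0 : -(10 / ε) ≤ 0 := by
        have : 0 < 10 / ε := by positivity
        linarith
      calc ((X : ℝ) / u) ^ (-(10 / ε)) ≤ ((2 * U) ^ ε) ^ (-(10 / ε)) :=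
            Real.rpow_le_rpow_of_nonpos (by positivity) a1 a0
        _ = (2 * U) ^ (-10 : ℝ) := by
            rw [← Real.rpow_mul hU0.le]; congr 1; field_simp
    have a3 : (X : ℝ) * X * X ≤ (2 * U) ^ (9 : ℝ) := by
      calc (X : ℝ) * X * X ≤ (2 * U) ^ (3 : ℝ) * (2 * U) ^ (3 : ℝ) * (2 * U) ^ (3 : ℝ) := by gcongr
        _ = _ := by rw [← Real.rpow_add hU0, ← Real.rpow_add hU0]; norm_num
    calc (X : ℝ) * X * (C2 * (X * ((X : ℝ) / u) ^ (-(10 / ε)))) =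
          C2 * ((X : ℝ) * X * X * ((X : ℝ) / u) ^ (-(10 / ε))) := by ring
      _ ≤ C2 * ((2 * U) ^ (9 : ℝ) * (2 * U) ^ (-10 : ℝ)) := by gcongr
      _ = C2 * (2 * U)⁻¹ := by
          rw [← Real.rpow_add hU0, ← Real.rpow_neg_one]; norm_num
  set D : ℝ := C2 * (X * ((X : ℝ) / u) ^ (-(10 / ε))) with hD
  have hD0 : 0 ≤ D := by positivity
  clear_value D
  -- the four parts
  have s1 : ‖(ff u : ℂ) - PX X u‖ ≤ C1 * u ^ (-(1 / 2) + ε) := h1 u X hu huX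
  have s2 : ‖PX X u - ∑ p ∈ FR X, ((aP (ph X) p u : ℝ) : ℂ) * ee u p‖ ≤ C2 * (2 * U)⁻¹ := by
    rw [hgr]
    have e : ∑ p ∈ FR X, (cr X p u : ℂ) * cexp (I * ((u * lam p : ℝ) : ℂ)) -
        ∑ p ∈ FR X, ((aP (ph X) p u : ℝ) : ℂ) * ee u p =
        ∑ p ∈ FR X, ((cr X p u - aP (ph X) p u : ℝ) : ℂ) * ee u p := by
      rw [← Finset.sum_sub_distrib]
      refine Finset.sum_congr rfl fun p _ => ?_
      unfold ee
      push_cast
      ring
    rw [e]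
    refine (norm_sum_le _ _).trans ?_
    calc _ ≤ ∑ p ∈ FR X, D := by
          refine Finset.sum_le_sum fun p hp => ?_
          rw [norm_mul, norm_ee, mul_one, Complex.norm_real, Real.norm_eq_abs]
          exact herr p hp
      _ = ((FR X).card : ℝ) * D := by rw [Finset.sum_const, nsmul_eq_mul]
      _ ≤ (X : ℝ) * X * D := mul_le_mul_of_nonneg_right (card_FR' X) hD0
      _ ≤ _ := hsm
  have s3 : ‖∑ p ∈ FR Z, ((aP (ph X) p u : ℝ) : ℂ) * ee u p - sh Z u‖ ≤ C2 * (2 * U)⁻¹ +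
      4 * C3 * (Z * u ^ (-(1 / 4) : ℝ)) := by
    unfold sh
    rw [← Finset.sum_sub_distrib]
    have e : ∀ p ∈ FR Z, ‖((aP (ph X) p u : ℝ) : ℂ) * ee u p - (((√(ht p))⁻¹ * (Real.log (u / (2 * Real.pi * ht p)) +
        2 * Real.eulerMascheroniConstant) : ℝ) : ℂ) * ee u p‖ ≤ D + (√(ht p))⁻¹ * (C3 * u ^ (-(1 / 4) : ℝ)) := by
      intro p hp
      rw [mem_FR'] at hp
      have hpX : p ∈ FR X := mem_FR'.2 ⟨hp.1, hp.2.1, hp.2.2.1.trans hZX, hp.2.2.2⟩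
      have hp0 := ht_pos hp.1 hp.2.1
      have hsq : 0 < √(ht p) := Real.sqrt_pos.2 hp0
      have hhu : ht p ≤ u ^ (1 / 2 : ℝ) := by
        refine le_trans ?_ hZu
        rw [← ht_cast]
        exact_mod_cast hp.2.2.1
      have k1 := h3 X p u hp.1 hp.2.1 hu huX hhu
      rw [← sub_mul, norm_mul, norm_ee, mul_one, ← Complex.ofReal_sub, Complex.norm_real, Real.norm_eq_abs]
      set W : ℝ := Real.log (u / (2 * Real.pi * ht p)) + 2 * Real.eulerMascheroniConstant with hW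
      have k2 : aP (ph X) p u - (√(ht p))⁻¹ * W = -(cr X p u - aP (ph X) p u) +
          (√(ht p))⁻¹ * (√(ht p) * cr X p u - W) := by
        field_simp
        ring
      rw [k2]
      refine (abs_add_le _ _).trans (add_le_add ?_ ?_)
      · rw [abs_neg]; exact herr p hpX
      · rw [abs_mul, abs_of_nonneg (by positivity : 0 ≤ (√(ht p))⁻¹)]
        exact mul_le_mul_of_nonneg_left k1 (by positivity)
    refine (norm_sum_le _ _).trans ((Finset.sum_le_sum e).trans ?_)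
    rw [Finset.sum_add_distrib, ← Finset.sum_mul, Finset.sum_const, nsmul_eq_mul]
    refine add_le_add ?_ ?_
    · have hZX' : (Z : ℝ) ≤ X := by exact_mod_cast hZX
      calc ((FR Z).card : ℝ) * D ≤ (X : ℝ) * X * D := by
            refine mul_le_mul_of_nonneg_right ((card_FR' Z).trans ?_) hD0
            gcongr
        _ ≤ _ := hsm
    · calc _ ≤ 4 * Z * (C3 * u ^ (-(1 / 4) : ℝ)) := mul_le_mul_of_nonneg_right (sum_sqrt Z) (by positivity)
        _ = _ := by ring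
  have e : (ff u : ℂ) - sh Z u - hi X Z u = ((ff u : ℂ) - PX X u) +
      (PX X u - ∑ p ∈ FR X, ((aP (ph X) p u : ℝ) : ℂ) * ee u p) +
      (∑ p ∈ FR Z, ((aP (ph X) p u : ℝ) : ℂ) * ee u p - sh Z u) := by
    rw [FR_split hZX]
    unfold hi
    ring
  rw [e]
  refine norm_add₃_le.trans ?_
  have t1 : 0 ≤ u ^ (-(1 / 2) + ε) := by positivity
  have t2 : 0 ≤ (2 * U)⁻¹ := by positivity
  have t3 : 0 ≤ Z * u ^ (-(1 / 4) : ℝ) := by positivity
  nlinarith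

end Pool.Agent.H471.GS
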