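import Pool.Agent.H471.GS.Zs
import Pool.Graph.R_seed8.Y969.GP.Def
import Pool.Graph.R_seed8.Y379.GP.Sp

set_option autoImplicit false

/-!
The sums of `(h/k)^{iV}` over the coprime pairs with `h k ≤ n`: a power saving.
-/

namespace Pool.Agent.H471.GS

open Complex Finset
open Pool.Agent.Y969.GP (ht lam FR PS)
open Pool.Agent.Y957.VK (S_ZS)

/-- the character of a pair -/
noncomputable def ee (V : ℝ) (p : ℕ × ℕ) : ℂ := cexp (I * ((V * lam p : ℝ) : ℂ))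

lemma norm_ee (V : ℝ) (p : ℕ × ℕ) : ‖ee V p‖ = 1 := by
  unfold ee
  rw [mul_comm, Complex.norm_exp_ofReal_mul_I]

lemma ee_eq (V : ℝ) {p : ℕ × ℕ} (h1 : 1 ≤ p.1) (h2 : 1 ≤ p.2) :
    ee V p = zt V p.1 * zt (-V) p.2 := by
  rw [zt_eq V (by exact_mod_cast h1), zt_eq (-V) (by exact_mod_cast h2), ← Complex.exp_add]
  unfold ee lam
  congr 1
  push_cast
  ring

lemma ee_dil (V : ℝ) {g : ℕ} (hg : 1 ≤ g) {p : ℕ × ℕ} (h1 : 1 ≤ p.1) (h2 : 1 ≤ p.2) :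
    ee V (g * p.1, g * p.2) = ee V p := by
  unfold ee lam
  have hg0 : (g : ℝ) ≠ 0 := by positivity
  have h10 : (p.1 : ℝ) ≠ 0 := by positivity
  have h20 : (p.2 : ℝ) ≠ 0 := by positivity
  have e : Real.log ((g * p.2 : ℕ) : ℝ) - Real.log ((g * p.1 : ℕ) : ℝ) =
      Real.log p.2 - Real.log p.1 := by
    push_cast
    rw [Real.log_mul hg0 h20, Real.log_mul hg0 h10]
    ring
  simp only
  rw [e]

lemma mem_PS {n : ℕ} {p : ℕ × ℕ} : p ∈ PS n ↔ 1 ≤ p.1 ∧ 1 ≤ p.2 ∧ p.1 * p.2 ≤ n := by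
  unfold PS
  simp only [mem_filter, mem_product, mem_Icc]
  constructor
  · rintro ⟨⟨⟨a, _⟩, ⟨b, _⟩⟩, c⟩
    exact ⟨a, b, c⟩
  · rintro ⟨a, b, c⟩
    exact ⟨⟨⟨a, (Nat.le_mul_of_pos_right _ b).trans c⟩, ⟨b, (Nat.le_mul_of_pos_left _ a).trans c⟩⟩, c⟩

lemma mem_FR' {n : ℕ} {p : ℕ × ℕ} :
    p ∈ FR n ↔ 1 ≤ p.1 ∧ 1 ≤ p.2 ∧ p.1 * p.2 ≤ n ∧ Nat.Coprime p.1 p.2 := by
  unfold FR
  rw [mem_filter, mem_PS]
  tauto

lemma sum_first (n s : ℕ) (f : ℕ × ℕ → ℂ) :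
    ∑ p ∈ (PS n).filter (fun p => p.1 ≤ s), f p = ∑ h ∈ Icc 1 s, ∑ k ∈ Icc 1 (n / h), f (h, k) := by
  rw [Finset.sum_sigma']
  refine Finset.sum_nbij' (fun p => ⟨p.1, p.2⟩) (fun q => (q.1, q.2)) ?_ ?_ (fun _ _ => rfl)
    (fun _ _ => rfl) (fun _ _ => rfl)
  · intro p hp
    simp only [mem_filter, mem_PS, mem_sigma, mem_Icc] at hp ⊢
    refine ⟨⟨hp.1.1, hp.2⟩, hp.1.2.1, ?_⟩
    rw [Nat.le_div_iff_mul_le hp.1.1, mul_comm]
    exact hp.1.2.2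
  · intro q hq
    simp only [mem_filter, mem_PS, mem_sigma, mem_Icc] at hq ⊢
    refine ⟨⟨hq.1.1, hq.2.1, ?_⟩, hq.1.2⟩
    have := hq.2.2
    rw [Nat.le_div_iff_mul_le hq.1.1, mul_comm] at this
    exact this

lemma sum_second (n s : ℕ) (f : ℕ × ℕ → ℂ) :
    ∑ p ∈ (PS n).filter (fun p => p.2 ≤ s), f p = ∑ k ∈ Icc 1 s, ∑ h ∈ Icc 1 (n / k), f (h, k) := by
  rw [Finset.sum_sigma']
  refine Finset.sum_nbij' (fun p => ⟨p.2, p.1⟩) (fun q => (q.2, q.1)) ?_ ?_ (fun _ _ => rfl)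
    (fun _ _ => rfl) (fun _ _ => rfl)
  · intro p hp
    simp only [mem_filter, mem_PS, mem_sigma, mem_Icc] at hp ⊢
    refine ⟨⟨hp.1.2.1, hp.2⟩, hp.1.1, ?_⟩
    rw [Nat.le_div_iff_mul_le hp.1.2.1]
    exact hp.1.2.2
  · intro q hq
    simp only [mem_filter, mem_PS, mem_sigma, mem_Icc] at hq ⊢
    refine ⟨⟨hq.2.1, hq.1.1, ?_⟩, hq.1.2⟩
    have := hq.2.2
    rw [Nat.le_div_iff_mul_le hq.1.1] at this
    exact this

lemma sum_third (n s : ℕ) (hs : s * s ≤ n) (f : ℕ × ℕ → ℂ) :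
    ∑ p ∈ (PS n).filter (fun p => p.1 ≤ s ∧ p.2 ≤ s), f p =
      ∑ h ∈ Icc 1 s, ∑ k ∈ Icc 1 s, f (h, k) := by
  rw [← Finset.sum_product']
  apply Finset.sum_congr _ fun _ _ => rfl
  ext p
  simp only [mem_filter, mem_PS, mem_product, mem_Icc]
  constructor
  · rintro ⟨⟨a, b, _⟩, c, d⟩
    exact ⟨⟨a, c⟩, b, d⟩
  · rintro ⟨⟨a, c⟩, b, d⟩
    exact ⟨⟨a, b, (Nat.mul_le_mul c d).trans hs⟩, c, d⟩

lemma sum_split (n : ℕ) (f : ℕ × ℕ → ℂ) :
    ∑ p ∈ PS n, f p = ∑ p ∈ (PS n).filter (fun p => p.1 ≤ Nat.sqrt n), f p +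
      ∑ p ∈ (PS n).filter (fun p => p.2 ≤ Nat.sqrt n), f p -
      ∑ p ∈ (PS n).filter (fun p => p.1 ≤ Nat.sqrt n ∧ p.2 ≤ Nat.sqrt n), f p := by
  rw [Finset.sum_filter, Finset.sum_filter, Finset.sum_filter, ← Finset.sum_add_distrib,
    ← Finset.sum_sub_distrib]
  refine Finset.sum_congr rfl fun p hp => ?_
  rw [mem_PS] at hp
  have h : p.1 ≤ Nat.sqrt n ∨ p.2 ≤ Nat.sqrt n := by
    by_contra hc
    push Not at hc
    have h1 : (Nat.sqrt n + 1) * (Nat.sqrt n + 1) ≤ p.1 * p.2 := Nat.mul_le_mul hc.1 hc.2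
    have h2 := Nat.lt_succ_sqrt n
    simp only [Nat.succ_eq_add_one] at h2
    have h3 := hp.2.2
    exact absurd (h2.trans_le (h1.trans h3)) (lt_irrefl _)
  by_cases h1 : p.1 ≤ Nat.sqrt n <;> by_cases h2 : p.2 ≤ Nat.sqrt n <;> simp [h1, h2]
  exact absurd h (by tauto)

/-- the trivial bound for the number of pairs -/
lemma card_PS (n : ℕ) : ((PS n).card : ℝ) ≤ n * (1 + Real.log n) := by
  have h1 : ((PS n).card : ℂ) = ∑ p ∈ (PS n).filter (fun p => p.1 ≤ n), (1 : ℂ) := by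
    rw [Finset.filter_true_of_mem]
    · simp
    · intro p hp
      rw [mem_PS] at hp
      exact (Nat.le_mul_of_pos_right _ hp.2.1).trans hp.2.2
  rw [sum_first n n (fun _ => 1)] at h1
  simp only [sum_const, Nat.card_Icc, Nat.add_sub_cancel, nsmul_eq_mul, mul_one] at h1
  have h2 : ((PS n).card : ℝ) = ∑ h ∈ Icc 1 n, ((n / h : ℕ) : ℝ) := by exact_mod_cast h1
  rw [h2]
  calc ∑ h ∈ Icc 1 n, ((n / h : ℕ) : ℝ) ≤ ∑ h ∈ Icc 1 n, n * (1 / (h : ℝ)) := by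
        refine Finset.sum_le_sum fun h _ => ?_
        rw [mul_one_div]
        exact Nat.cast_div_le
    _ = n * ∑ h ∈ Icc 1 n, 1 / (h : ℝ) := by rw [Finset.mul_sum]
    _ ≤ _ := mul_le_mul_of_nonneg_left (Pool.Agent.Y379.GP.harm n) (Nat.cast_nonneg n)

lemma triv_PS (V : ℝ) (n : ℕ) : ‖∑ p ∈ PS n, ee V p‖ ≤ n * (1 + Real.log n) := by
  refine (norm_sum_le _ _).trans ?_
  simp only [norm_ee, sum_const, nsmul_eq_mul, mul_one]
  exact card_PS n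

/-- the hyperbola method -/
lemma E_bd {V τ : ℝ} {n : ℕ} (hn : 1 ≤ n) (hτ0 : 0 ≤ τ) (hτ1 : τ ≤ 1)
    (hZ : ∀ N : ℕ, Nat.sqrt n ≤ N → ‖∑ m ∈ Icc 1 N, zt V m‖ ≤ N * τ ∧
      ‖∑ m ∈ Icc 1 N, zt (-V) m‖ ≤ N * τ) :
    ‖∑ p ∈ PS n, ee V p‖ ≤ 3 * (n * τ * (1 + Real.log n)) := by
  have hn0 : (1 : ℝ) ≤ n := by exact_mod_cast hn
  have hl : 0 ≤ Real.log n := Real.log_nonneg hn0
  have hss : Nat.sqrt n * Nat.sqrt n ≤ n := Nat.sqrt_le n
  set s := Nat.sqrt n with hs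
  have hdiv : ∀ h ∈ Icc 1 s, s ≤ n / h := by
    intro h hh
    rw [mem_Icc] at hh
    rw [Nat.le_div_iff_mul_le hh.1]
    exact (Nat.mul_le_mul_left _ hh.2).trans hss
  have hsn : (s : ℝ) ≤ n := by exact_mod_cast Nat.sqrt_le_self n
  have hharm : ∑ h ∈ Icc 1 s, 1 / (h : ℝ) ≤ 1 + Real.log n := by
    refine (Finset.sum_le_sum_of_subset_of_nonneg (t := Icc 1 n) ?_ fun _ _ _ => by positivity).trans
      (Pool.Agent.Y379.GP.harm n)
    exact Finset.Icc_subset_Icc_right (Nat.sqrt_le_self n)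
  rw [sum_split, sum_first, sum_second, sum_third n _ hss]
  have a1 : ‖∑ h ∈ Icc 1 s, ∑ k ∈ Icc 1 (n / h), ee V (h, k)‖ ≤ n * τ * (1 + Real.log n) := by
    have e : ∀ h ∈ Icc 1 s, ∑ k ∈ Icc 1 (n / h), ee V (h, k) =
        zt V h * ∑ k ∈ Icc 1 (n / h), zt (-V) k := by
      intro h hh
      rw [Finset.mul_sum]
      exact Finset.sum_congr rfl fun k hk => ee_eq V (mem_Icc.1 hh).1 (mem_Icc.1 hk).1
    rw [Finset.sum_congr rfl e]
    calc _ ≤ ∑ h ∈ Icc 1 s, ‖zt V h * ∑ k ∈ Icc 1 (n / h), zt (-V) k‖ := norm_sum_le _ _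
      _ ≤ ∑ h ∈ Icc 1 s, (n * τ) * (1 / (h : ℝ)) := by
          refine Finset.sum_le_sum fun h hh => ?_
          have hh1 := (mem_Icc.1 hh).1
          rw [norm_mul, norm_zt V (by exact_mod_cast hh1), one_mul]
          refine (hZ _ (hdiv h hh)).2.trans ?_
          have : ((n / h : ℕ) : ℝ) ≤ n / h := Nat.cast_div_le
          calc ((n / h : ℕ) : ℝ) * τ ≤ n / h * τ := by gcongr
            _ = _ := by ring
      _ = n * τ * ∑ h ∈ Icc 1 s, 1 / (h : ℝ) := by rw [Finset.mul_sum]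
      _ ≤ _ := by gcongr
  have a2 : ‖∑ k ∈ Icc 1 s, ∑ h ∈ Icc 1 (n / k), ee V (h, k)‖ ≤ n * τ * (1 + Real.log n) := by
    have e : ∀ k ∈ Icc 1 s, ∑ h ∈ Icc 1 (n / k), ee V (h, k) =
        (∑ h ∈ Icc 1 (n / k), zt V h) * zt (-V) k := by
      intro k hk
      rw [Finset.sum_mul]
      exact Finset.sum_congr rfl fun h hh => ee_eq V (mem_Icc.1 hh).1 (mem_Icc.1 hk).1
    rw [Finset.sum_congr rfl e]
    calc _ ≤ ∑ k ∈ Icc 1 s, ‖(∑ h ∈ Icc 1 (n / k), zt V h) * zt (-V) k‖ := norm_sum_le _ _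
      _ ≤ ∑ k ∈ Icc 1 s, (n * τ) * (1 / (k : ℝ)) := by
          refine Finset.sum_le_sum fun k hk => ?_
          have hk1 := (mem_Icc.1 hk).1
          rw [norm_mul, norm_zt (-V) (by exact_mod_cast hk1), mul_one]
          refine (hZ _ (hdiv k hk)).1.trans ?_
          have : ((n / k : ℕ) : ℝ) ≤ n / k := Nat.cast_div_le
          calc ((n / k : ℕ) : ℝ) * τ ≤ n / k * τ := by gcongr
            _ = _ := by ring
      _ = n * τ * ∑ h ∈ Icc 1 s, 1 / (h : ℝ) := by rw [Finset.mul_sum]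
      _ ≤ _ := by gcongr
  have a3 : ‖∑ h ∈ Icc 1 s, ∑ k ∈ Icc 1 s, ee V (h, k)‖ ≤ n * τ * (1 + Real.log n) := by
    have e : ∑ h ∈ Icc 1 s, ∑ k ∈ Icc 1 s, ee V (h, k) =
        (∑ h ∈ Icc 1 s, zt V h) * ∑ k ∈ Icc 1 s, zt (-V) k := by
      rw [Finset.sum_mul_sum]
      exact Finset.sum_congr rfl fun h hh => Finset.sum_congr rfl fun k hk =>
        ee_eq V (mem_Icc.1 hh).1 (mem_Icc.1 hk).1
    rw [e, norm_mul]
    obtain ⟨b1, b2⟩ := hZ s le_rfl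
    have hssr : (s : ℝ) * s ≤ n := by exact_mod_cast hss
    calc _ ≤ (s * τ) * (s * τ) := mul_le_mul b1 b2 (norm_nonneg _) (by positivity)
      _ = (s * s) * (τ * τ) := by ring
      _ ≤ n * (τ * 1) := by gcongr
      _ ≤ n * τ * (1 + Real.log n) := by
          have : 0 ≤ (n : ℝ) * τ * Real.log n := by positivity
          linarith
  refine (norm_sub_le _ _).trans ?_
  have := norm_add_le (∑ h ∈ Icc 1 s, ∑ k ∈ Icc 1 (n / h), ee V (h, k))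
    (∑ k ∈ Icc 1 s, ∑ h ∈ Icc 1 (n / k), ee V (h, k))
  linarith

lemma moeb_sum {n : ℕ} {p : ℕ × ℕ} (hp : p ∈ PS n) :
    ∑ g ∈ (Icc 1 n).filter (fun g => g ∣ p.1 ∧ g ∣ p.2), (ArithmeticFunction.moebius g : ℂ) =
      if Nat.Coprime p.1 p.2 then 1 else 0 := by
  rw [mem_PS] at hp
  have h1 : (Icc 1 n).filter (fun g => g ∣ p.1 ∧ g ∣ p.2) = (Nat.gcd p.1 p.2).divisors := by
    ext g
    simp only [mem_filter, mem_Icc, Nat.mem_divisors]
    constructor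
    · rintro ⟨_, h2, h3⟩
      exact ⟨Nat.dvd_gcd h2 h3, (Nat.gcd_pos_of_pos_left _ hp.1).ne'⟩
    · rintro ⟨h2, _⟩
      have h3 := h2.trans (Nat.gcd_dvd_left _ _)
      refine ⟨⟨Nat.pos_of_dvd_of_pos h3 hp.1, ?_⟩, h3, h2.trans (Nat.gcd_dvd_right _ _)⟩
      exact (Nat.le_of_dvd hp.1 h3).trans ((Nat.le_mul_of_pos_right _ hp.2.1).trans hp.2.2)
  rw [h1]
  have h2 := ArithmeticFunction.coe_mul_zeta_apply (f := ArithmeticFunction.moebius)
    (x := Nat.gcd p.1 p.2)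
  rw [ArithmeticFunction.moebius_mul_coe_zeta, ArithmeticFunction.one_apply] at h2
  have h3 : ∑ g ∈ (Nat.gcd p.1 p.2).divisors, (ArithmeticFunction.moebius g : ℂ) =
      ((∑ g ∈ (Nat.gcd p.1 p.2).divisors, ArithmeticFunction.moebius g : ℤ) : ℂ) := by
    push_cast; rfl
  rw [h3, ← h2]
  unfold Nat.Coprime
  push_cast
  rfl

lemma inner_sum (V : ℝ) (n g : ℕ) (hg : 1 ≤ g) :
    ∑ p ∈ (PS n).filter (fun p => g ∣ p.1 ∧ g ∣ p.2), ee V p = ∑ q ∈ PS (n / (g * g)), ee V q := by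
  have hgg : 0 < g * g := Nat.mul_pos hg hg
  refine Finset.sum_nbij' (fun p => (p.1 / g, p.2 / g)) (fun q => (g * q.1, g * q.2)) ?_ ?_ ?_ ?_ ?_
  · intro p hp
    simp only [mem_filter, mem_PS] at hp ⊢
    obtain ⟨⟨h1, h2, h3⟩, ⟨a, ha⟩, ⟨b, hb⟩⟩ := hp
    rw [ha, hb, Nat.mul_div_cancel_left _ hg, Nat.mul_div_cancel_left _ hg]
    rw [ha, hb] at h3
    refine ⟨Nat.pos_of_ne_zero (by rintro rfl; simp at ha; omega),
      Nat.pos_of_ne_zero (by rintro rfl; simp at hb; omega), ?_⟩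
    rw [Nat.le_div_iff_mul_le hgg]
    calc a * b * (g * g) = g * a * (g * b) := by ring
      _ ≤ n := h3
  · intro q hq
    simp only [mem_filter, mem_PS] at hq ⊢
    obtain ⟨h1, h2, h3⟩ := hq
    rw [Nat.le_div_iff_mul_le hgg] at h3
    refine ⟨⟨Nat.mul_pos hg h1, Nat.mul_pos hg h2, ?_⟩, Dvd.intro _ rfl, Dvd.intro _ rfl⟩
    calc g * q.1 * (g * q.2) = q.1 * q.2 * (g * g) := by ring
      _ ≤ n := h3
  · intro p hp
    simp only [mem_filter, mem_PS] at hp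
    exact Prod.ext (Nat.mul_div_cancel' hp.2.1) (Nat.mul_div_cancel' hp.2.2)
  · intro q hq
    exact Prod.ext (Nat.mul_div_cancel_left _ hg) (Nat.mul_div_cancel_left _ hg)
  · intro p hp
    simp only [mem_filter, mem_PS] at hp
    obtain ⟨⟨h1, h2, h3⟩, h4, h5⟩ := hp
    have := ee_dil V hg (p := (p.1 / g, p.2 / g)) (Nat.div_pos (Nat.le_of_dvd h1 h4) hg)
      (Nat.div_pos (Nat.le_of_dvd h2 h5) hg)
    rw [← this]
    simp only [Nat.mul_div_cancel' h4, Nat.mul_div_cancel' h5]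

lemma D_eq (V : ℝ) (n : ℕ) : ∑ p ∈ FR n, ee V p =
    ∑ g ∈ Icc 1 n, (ArithmeticFunction.moebius g : ℂ) * ∑ q ∈ PS (n / (g * g)), ee V q := by
  have e1 : ∑ p ∈ FR n, ee V p = ∑ p ∈ PS n, ∑ g ∈ Icc 1 n,
      (if g ∣ p.1 ∧ g ∣ p.2 then (ArithmeticFunction.moebius g : ℂ) * ee V p else 0) := by
    unfold FR
    rw [Finset.sum_filter]
    refine Finset.sum_congr rfl fun p hp => ?_
    rw [← Finset.sum_filter, ← Finset.sum_mul, moeb_sum hp]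
    split_ifs <;> simp
  rw [e1, Finset.sum_comm]
  refine Finset.sum_congr rfl fun g hg => ?_
  rw [← Finset.sum_filter, ← Finset.mul_sum, inner_sum V n g (mem_Icc.1 hg).1]

/-- the coprime sum from the bounds for the zeta sums -/
lemma D_bd {V τ : ℝ} {n G : ℕ} (hn : 1 ≤ n) (hG : 1 ≤ G) (hτ0 : 0 ≤ τ) (hτ1 : τ ≤ 1)
    (hZ : ∀ g : ℕ, 1 ≤ g → g ≤ G → g ≤ n → 1 ≤ n / (g * g) ∧ ∀ N : ℕ, Nat.sqrt (n / (g * g)) ≤ N →
      ‖∑ m ∈ Icc 1 N, zt V m‖ ≤ N * τ ∧ ‖∑ m ∈ Icc 1 N, zt (-V) m‖ ≤ N * τ) :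
    ‖∑ p ∈ FR n, ee V p‖ ≤ n * (1 + Real.log n) * (6 * τ + 2 / G) := by
  have hn0 : (1 : ℝ) ≤ n := by exact_mod_cast hn
  have hl : 0 ≤ Real.log n := Real.log_nonneg hn0
  have hG0 : (1 : ℝ) ≤ G := by exact_mod_cast hG
  rw [D_eq]
  have hmu : ∀ g : ℕ, ‖(ArithmeticFunction.moebius g : ℂ)‖ ≤ 1 := by
    intro g
    rw [Complex.norm_intCast]
    exact_mod_cast ArithmeticFunction.abs_moebius_le_one
  have hlog : ∀ g : ℕ, 1 ≤ g → (((n / (g * g) : ℕ) : ℝ)) * (1 + Real.log ((n / (g * g) : ℕ) : ℝ)) ≤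
      n * (1 + Real.log n) * ((g : ℝ) ^ 2)⁻¹ := by
    intro g hg
    have hg0 : (0 : ℝ) < g := by exact_mod_cast hg
    have i1 : ((n / (g * g) : ℕ) : ℝ) ≤ n * ((g : ℝ) ^ 2)⁻¹ := by
      refine (Nat.cast_div_le).trans (le_of_eq ?_)
      push_cast
      rw [div_eq_mul_inv, pow_two]
    have i3 : ((n / (g * g) : ℕ) : ℝ) ≤ n := by exact_mod_cast Nat.div_le_self _ _
    rcases Nat.eq_zero_or_pos (n / (g * g)) with h0 | h0
    · rw [h0]
      simp only [Nat.cast_zero, zero_mul]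
      positivity
    · have i4 : Real.log ((n / (g * g) : ℕ) : ℝ) ≤ Real.log n :=
        Real.log_le_log (by exact_mod_cast h0) i3
      have i5 : 0 ≤ Real.log ((n / (g * g) : ℕ) : ℝ) := Real.log_nonneg (by exact_mod_cast h0)
      calc _ ≤ (n * ((g : ℝ) ^ 2)⁻¹) * (1 + Real.log n) := by
            apply mul_le_mul i1 (by linarith) (by linarith) (by positivity)
        _ = _ := by ring
  have hterm : ∀ g ∈ Icc 1 n, ‖(ArithmeticFunction.moebius g : ℂ) * ∑ q ∈ PS (n / (g * g)), ee V q‖ ≤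
      n * (1 + Real.log n) * ((g : ℝ) ^ 2)⁻¹ * (3 * τ + if G < g then 1 else 0) := by
    intro g hg
    rw [mem_Icc] at hg
    have hg0 : (0 : ℝ) < g := by exact_mod_cast hg.1
    rw [norm_mul]
    refine (mul_le_of_le_one_left (norm_nonneg _) (hmu g)).trans ?_
    have hP : 0 ≤ n * (1 + Real.log n) * ((g : ℝ) ^ 2)⁻¹ := by positivity
    split_ifs with hGg
    · refine (triv_PS V _).trans ((hlog g hg.1).trans ?_)
      nlinarith [mul_nonneg hP hτ0]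
    · push Not at hGg
      obtain ⟨h1, h2⟩ := hZ g hg.1 hGg hg.2
      refine (E_bd h1 hτ0 hτ1 h2).trans ?_
      have := mul_le_mul_of_nonneg_left (hlog g hg.1) (by positivity : 0 ≤ 3 * τ)
      rw [add_zero]
      calc _ = 3 * τ * (((n / (g * g) : ℕ) : ℝ) * (1 + Real.log ((n / (g * g) : ℕ) : ℝ))) := by ring
        _ ≤ _ := this
        _ = _ := by ring
  refine (norm_sum_le _ _).trans ((Finset.sum_le_sum hterm).trans ?_)
  have s1 : ∑ g ∈ Icc 1 n, ((g : ℝ) ^ 2)⁻¹ ≤ 2 := by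
    have := sum_Ioo_inv_sq_le (α := ℝ) 0 (n + 1)
    have e : Ioo 0 (n + 1) = Icc 1 n := by ext x; simp only [mem_Ioo, mem_Icc]; omega
    rw [e] at this
    norm_num at this
    exact_mod_cast this
  have s2 : ∑ g ∈ Icc 1 n, ((g : ℝ) ^ 2)⁻¹ * (if G < g then (1 : ℝ) else 0) ≤ 2 / G := by
    have := sum_Ioo_inv_sq_le (α := ℝ) G (n + 1)
    have e : ∑ g ∈ Icc 1 n, ((g : ℝ) ^ 2)⁻¹ * (if G < g then (1 : ℝ) else 0) =
        ∑ g ∈ Ioo G (n + 1), ((g : ℝ) ^ 2)⁻¹ := by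
      simp only [mul_ite, mul_one, mul_zero]
      rw [← Finset.sum_filter]
      apply Finset.sum_congr _ fun _ _ => rfl
      ext x
      simp only [mem_filter, mem_Ioo, mem_Icc]
      omega
    rw [e]
    refine this.trans ?_
    apply div_le_div_of_nonneg_left (by norm_num) (by linarith) (by linarith)
  calc _ = n * (1 + Real.log n) * (3 * τ * ∑ g ∈ Icc 1 n, ((g : ℝ) ^ 2)⁻¹ +
        ∑ g ∈ Icc 1 n, ((g : ℝ) ^ 2)⁻¹ * (if G < g then (1 : ℝ) else 0)) := by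
        rw [Finset.mul_sum, ← Finset.sum_add_distrib, Finset.mul_sum]
        refine Finset.sum_congr rfl fun g _ => by ring
    _ ≤ n * (1 + Real.log n) * (3 * τ * 2 + 2 / G) := by gcongr
    _ = _ := by ring

/-- power saving for the coprime sums -/
lemma cop (hZ : S_ZS) (θ ε B : ℝ) (hθ : 0 < θ) (hε : 0 < ε) (hB : 0 < B) : ∃ δ T₀ : ℝ, 0 < δ ∧ 1 ≤ T₀ ∧
    ∀ T : ℝ, T₀ ≤ T → ∀ V : ℝ, T ^ ε ≤ |V| → |V| ≤ T → ∀ n : ℕ, T ^ θ ≤ n → (n : ℝ) ≤ T ^ B →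
    ‖∑ p ∈ FR n, ee V p‖ ≤ n * T ^ (-δ) := by
  obtain ⟨δ1, T1, hδ1, hT1, h1⟩ := zsum hZ (θ / 8) ε (by positivity) hε
  set δ : ℝ := min (δ1 / 2) (θ / 16) with hδ
  have hδ0 : 0 < δ := by positivity
  have hδa : δ ≤ δ1 / 2 := min_le_left _ _
  have hδb : δ ≤ θ / 16 := min_le_right _ _
  obtain ⟨T2, hT2, h2⟩ := log_small δ (by positivity) (10 * (B + 1))
  obtain ⟨T3, hT3, h3⟩ := log_small (θ / 8) (by positivity) 4
  refine ⟨δ, max T1 (max T2 T3), hδ0, hT1.trans (le_max_left _ _), fun T hT V hV1 hV2 n hn1 hn2 => ?_⟩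
  have hTT1 : T1 ≤ T := (le_max_left _ _).trans hT
  have hTT2 : T2 ≤ T := (le_max_left _ _).trans ((le_max_right _ _).trans hT)
  have hTT3 : T3 ≤ T := (le_max_right _ _).trans ((le_max_right _ _).trans hT)
  have hT1' : 1 ≤ T := hT1.trans hTT1
  have hT0 : 0 < T := by linarith
  have g2 := h2 T hTT2
  have g3 := h3 T hTT3
  have hlT : 0 ≤ Real.log T := Real.log_nonneg hT1'
  have hn0 : (1 : ℝ) ≤ n := le_trans (Real.one_le_rpow hT1' hθ.le) hn1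
  have hnn : 1 ≤ n := by exact_mod_cast hn0
  have h4T : 4 ≤ T ^ (θ / 8) := by nlinarith
  set G : ℕ := ⌊T ^ (θ / 8)⌋₊ with hG
  have hGle : (G : ℝ) ≤ T ^ (θ / 8) := Nat.floor_le (by positivity)
  have hGge : T ^ (θ / 8) / 2 ≤ G := by
    have := Nat.lt_floor_add_one (T ^ (θ / 8))
    rw [← hG] at this
    linarith
  have hG1 : 1 ≤ G := by
    have : (1 : ℝ) ≤ G := by linarith
    exact_mod_cast this
  have hτ1 : T ^ (-δ1) ≤ 1 := Real.rpow_le_one_of_one_le_of_nonpos hT1' (by linarith)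
  have hkey := D_bd (V := V) (τ := T ^ (-δ1)) (n := n) (G := G) hnn hG1 (by positivity) hτ1 (by
    intro g hg hgG hgn
    have hgT : (g : ℝ) ≤ T ^ (θ / 8) := le_trans (by exact_mod_cast hgG) hGle
    have hg0 : (0 : ℝ) < g := by exact_mod_cast hg
    have i1 : T ^ (3 * θ / 4) ≤ (n : ℝ) / ((g : ℝ) * g) := by
      rw [le_div_iff₀ (by positivity)]
      calc T ^ (3 * θ / 4) * ((g : ℝ) * g) ≤ T ^ (3 * θ / 4) * (T ^ (θ / 8) * T ^ (θ / 8)) := by gcongr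
        _ = T ^ θ := by rw [← Real.rpow_add hT0, ← Real.rpow_add hT0]; congr 1; ring
        _ ≤ n := hn1
    have i2 : (n : ℝ) / ((g : ℝ) * g) < ((n / (g * g) : ℕ) : ℝ) + 1 := by
      have := Nat.lt_floor_add_one ((n : ℝ) / ((g * g : ℕ) : ℝ))
      rw [Nat.floor_div_eq_div] at this
      push_cast at this ⊢
      exact this
    have i3 : 16 ≤ T ^ (θ / 4) := by
      have : T ^ (θ / 4) = T ^ (θ / 8) * T ^ (θ / 8) := by rw [← Real.rpow_add hT0]; congr 1; ring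
      rw [this]; nlinarith
    have i4 : T ^ (3 * θ / 4) = T ^ (θ / 4) * T ^ (θ / 4) * T ^ (θ / 4) := by
      rw [← Real.rpow_add hT0, ← Real.rpow_add hT0]; congr 1; ring
    have i5 : T ^ (θ / 4) * T ^ (θ / 4) ≤ ((n / (g * g) : ℕ) : ℝ) := by
      have : T ^ (θ / 4) * T ^ (θ / 4) * T ^ (θ / 4) < ((n / (g * g) : ℕ) : ℝ) + 1 := by
        rw [← i4]; exact i1.trans_lt i2
      have k : 0 < T ^ (θ / 4) * T ^ (θ / 4) := by positivity
      nlinarith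
    have i6 : 1 ≤ n / (g * g) := by
      have : (1 : ℝ) ≤ ((n / (g * g) : ℕ) : ℝ) := by nlinarith
      exact_mod_cast this
    refine ⟨i6, fun N hN => ?_⟩
    have i7 : T ^ (θ / 8) ≤ N := by
      have j1 := Nat.lt_succ_sqrt (n / (g * g))
      simp only [Nat.succ_eq_add_one] at j1
      have j2 : ((n / (g * g) : ℕ) : ℝ) < ((N : ℝ) + 1) * ((N : ℝ) + 1) := by
        have : n / (g * g) < (N + 1) * (N + 1) :=
          j1.trans_le (Nat.mul_le_mul (by omega) (by omega))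
        exact_mod_cast this
      have j3 : T ^ (θ / 4) < (N : ℝ) + 1 := by
        by_contra hc
        push Not at hc
        have : ((N : ℝ) + 1) * ((N : ℝ) + 1) ≤ T ^ (θ / 4) * T ^ (θ / 4) :=
          mul_le_mul hc hc (by positivity) (by positivity)
        linarith
      have j4 : T ^ (θ / 4) = T ^ (θ / 8) * T ^ (θ / 8) := by rw [← Real.rpow_add hT0]; congr 1; ring
      nlinarith
    refine ⟨h1 T hTT1 V hV1 hV2 N i7, h1 T hTT1 (-V) (by rwa [abs_neg]) (by rwa [abs_neg]) N i7⟩)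
  refine hkey.trans ?_
  have k1 : Real.log n ≤ B * Real.log T := by
    have := Real.log_le_log (by linarith) hn2
    rwa [Real.log_rpow hT0] at this
  have k2 : T ^ (-δ1) ≤ T ^ (-(2 * δ)) := Real.rpow_le_rpow_of_exponent_le hT1' (by linarith)
  have k3 : 2 / (G : ℝ) ≤ 4 * T ^ (-(2 * δ)) := by
    have : 2 / (G : ℝ) ≤ 4 * T ^ (-(θ / 8)) := by
      rw [Real.rpow_neg hT0.le, div_le_iff₀ (by linarith)]
      have hp : 0 < T ^ (θ / 8) := by positivity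
      calc (2 : ℝ) = 4 * (T ^ (θ / 8))⁻¹ * (T ^ (θ / 8) / 2) := by field_simp; norm_num
        _ ≤ _ := by gcongr
    refine this.trans ?_
    have := Real.rpow_le_rpow_of_exponent_le hT1' (by linarith : -(θ / 8) ≤ -(2 * δ))
    linarith
  have k4 : 0 ≤ T ^ (-(2 * δ)) := by positivity
  have k5 : 10 * (1 + Real.log n) ≤ T ^ δ := by
    refine le_trans ?_ g2
    nlinarith [mul_nonneg hB.le hlT]
  have hl : 0 ≤ Real.log n := Real.log_nonneg hn0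
  calc (n : ℝ) * (1 + Real.log n) * (6 * T ^ (-δ1) + 2 / G)
      ≤ n * (1 + Real.log n) * (10 * T ^ (-(2 * δ))) := by
        apply mul_le_mul_of_nonneg_left _ (by positivity)
        linarith
    _ = n * (10 * (1 + Real.log n)) * T ^ (-(2 * δ)) := by ring
    _ ≤ n * T ^ δ * T ^ (-(2 * δ)) := by gcongr
    _ = n * (T ^ δ * T ^ (-(2 * δ))) := by ring
    _ = n * T ^ (-δ) := by rw [← Real.rpow_add hT0]; congr 2; ring

end Pool.Agent.H471.GS
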