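import Mathlib

set_option autoImplicit false

/-!
Products over several shifts: from one shift to many.
-/

namespace Pool.Agent.H471.GS

open MeasureTheory Set
open scoped ENNReal

lemma lint_succ {n : ℕ} (μ : Measure ℝ) [SigmaFinite μ] (F : (Fin (n + 1) → ℝ) → ℝ≥0∞)
    (hF : Measurable F) : ∫⁻ c, F c ∂(Measure.pi fun _ : Fin (n + 1) => μ) =
      ∫⁻ x, ∫⁻ c, F (Fin.cons x c) ∂(Measure.pi fun _ : Fin n => μ) ∂μ := by
  have h := (measurePreserving_piFinSuccAbove (fun _ : Fin (n + 1) => μ) 0).symm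
  have h1 := h.lintegral_comp hF
  have hm : Measurable (fun z : ℝ × (Fin n → ℝ) =>
      F ((MeasurableEquiv.piFinSuccAbove (fun _ => ℝ) 0).symm z)) :=
    hF.comp (MeasurableEquiv.measurable _)
  rw [← h1, lintegral_prod _ hm.aemeasurable]
  refine lintegral_congr fun x => lintegral_congr fun c => ?_
  congr 1
  exact Fin.insertNth_zero' x c

lemma lint_succ' {n : ℕ} (μ : Measure ℝ) [SigmaFinite μ] (F : (Fin (n + 1) → ℝ) → ℝ≥0∞)
    (hF : Measurable F) : ∫⁻ c, F c ∂(Measure.pi fun _ : Fin (n + 1) => μ) =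
      ∫⁻ c, ∫⁻ x, F (Fin.cons x c) ∂μ ∂(Measure.pi fun _ : Fin n => μ) := by
  have h := (measurePreserving_piFinSuccAbove (fun _ : Fin (n + 1) => μ) 0).symm
  have h1 := h.lintegral_comp hF
  have hm : Measurable (fun z : ℝ × (Fin n → ℝ) =>
      F ((MeasurableEquiv.piFinSuccAbove (fun _ => ℝ) 0).symm z)) :=
    hF.comp (MeasurableEquiv.measurable _)
  rw [← h1, lintegral_prod_symm _ hm.aemeasurable]
  refine lintegral_congr fun c => lintegral_congr fun x => ?_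
  congr 1
  exact Fin.insertNth_zero' x c

lemma cons_meas (n : ℕ) : Measurable (fun z : ℝ × (Fin n → ℝ) => (Fin.cons z.1 z.2 : Fin (n + 1) → ℝ)) := by
  refine measurable_pi_iff.2 fun j => ?_
  refine Fin.cases ?_ (fun i => ?_) j
  · simp only [Fin.cons_zero]; exact measurable_fst
  · simp only [Fin.cons_succ]; exact (measurable_pi_apply i).comp measurable_snd

lemma lint_pow (μ : Measure ℝ) [SigmaFinite μ] (h : ℝ → ℝ≥0∞) (hh : Measurable h) : ∀ n : ℕ,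
    ∫⁻ c, ∏ j, h (c j) ∂(Measure.pi fun _ : Fin n => μ) = (∫⁻ x, h x ∂μ) ^ n := by
  intro n
  induction n with
  | zero => simp
  | succ n ih =>
    rw [lint_succ μ _ (by fun_prop)]
    simp only [Fin.prod_univ_succ, Fin.cons_zero, Fin.cons_succ]
    calc _ = ∫⁻ x, h x * (∫⁻ x, h x ∂μ) ^ n ∂μ := by
          refine lintegral_congr fun x => ?_
          rw [lintegral_const_mul _ (by fun_prop), ih]
      _ = _ := by rw [lintegral_mul_const _ hh, pow_succ, mul_comm]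

/-- the recursion for the bounds -/
noncomputable def Bn (M K : ℝ≥0∞) : ℕ → ℝ≥0∞
  | 0 => 0
  | n + 1 => 2 * M * Bn M K n + 2 * M ^ n * K

lemma Bn_le (M K : ℝ≥0∞) : ∀ n : ℕ, Bn M K (n + 1) ≤ (n + 1 : ℕ) * 2 ^ (n + 1) * M ^ n * K := by
  intro n
  induction n with
  | zero => simp [Bn]
  | succ n ih =>
    have h1 : Bn M K (n + 1 + 1) = 2 * M * Bn M K (n + 1) + 2 * M ^ (n + 1) * K := rfl
    rw [h1]
    calc 2 * M * Bn M K (n + 1) + 2 * M ^ (n + 1) * K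
        ≤ 2 * M * ((n + 1 : ℕ) * 2 ^ (n + 1) * M ^ n * K) + 2 ^ (n + 1 + 1) * M ^ (n + 1) * K := by
          gcongr
          calc (2 : ℝ≥0∞) = 2 ^ 1 := (pow_one 2).symm
            _ ≤ 2 ^ (n + 1 + 1) := pow_le_pow_right₀ (by norm_num) (by omega)
      _ = _ := by push_cast; ring

lemma enorm_add_sq (x y : ℂ) : ‖x + y‖ₑ ^ 2 ≤ 2 * ‖x‖ₑ ^ 2 + 2 * ‖y‖ₑ ^ 2 := by
  have h : ‖x + y‖ ^ 2 ≤ 2 * ‖x‖ ^ 2 + 2 * ‖y‖ ^ 2 := by
    have h1 := norm_add_le x y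
    have h2 : ‖x + y‖ ^ 2 ≤ (‖x‖ + ‖y‖) ^ 2 := pow_le_pow_left₀ (norm_nonneg _) h1 2
    nlinarith [sq_nonneg (‖x‖ - ‖y‖)]
  have e : ∀ z : ℂ, ‖z‖ₑ ^ 2 = ENNReal.ofReal (‖z‖ ^ 2) := by
    intro z
    rw [ENNReal.ofReal_pow (norm_nonneg _), ofReal_norm]
  rw [e, e, e]
  have e2 : ∀ r : ℝ, 2 * ENNReal.ofReal r = ENNReal.ofReal (2 * r) := by
    intro r
    rw [ENNReal.ofReal_mul (by norm_num)]
    norm_num
  rw [e2, e2, ← ENNReal.ofReal_add (by positivity) (by positivity)]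
  exact ENNReal.ofReal_le_ofReal h

section

variable {ν : Measure ℝ} [IsFiniteMeasure ν] {μ : Measure ℝ} [SigmaFinite μ]

lemma int_meas {α : Type} [MeasurableSpace α] {F : α → ℝ → ℂ} (hF : Measurable (Function.uncurry F)) :
    Measurable (fun c => ‖∫ t, F c t ∂ν‖ₑ ^ 2) := by
  have h : StronglyMeasurable (fun c => ∫ t, F c t ∂ν) :=
    StronglyMeasurable.integral_prod_right (f := F) hF.stronglyMeasurable
  exact (h.measurable.enorm).pow_const 2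

/-- the induction over the number of the shifts -/
theorem indK {f s : ℝ → ℂ} (hf : Measurable f) (hs : Measurable s) {M K : ℝ≥0∞}
    {Sx : Set ℝ} (hSx : ∀ᵐ x ∂μ, x ∈ Sx) {St : Set ℝ} (hSt : ∀ᵐ t ∂ν, t ∈ St)
    (hfb : ∀ x ∈ Sx, ∃ C : ℝ, ∀ t ∈ St, ‖f (t + x)‖ ≤ C) (hsb : ∀ x ∈ Sx, ∃ C : ℝ, ∀ t ∈ St, ‖s (t + x)‖ ≤ C)
    (hfM : ∀ t ∈ St, ∫⁻ x, ‖f (t + x)‖ₑ ^ 2 ∂μ ≤ M) (hsM : ∀ t ∈ St, ∫⁻ x, ‖s (t + x)‖ₑ ^ 2 ∂μ ≤ M)
    (h1 : ∀ g : ℝ → ℂ, Measurable g → MemLp g 2 ν →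
      ∫⁻ x, ‖∫ t, (f (t + x) - s (t + x)) * g t ∂ν‖ₑ ^ 2 ∂μ ≤ K * ∫⁻ t, ‖g t‖ₑ ^ 2 ∂ν) :
    ∀ (n : ℕ) (g : ℝ → ℂ), Measurable g → MemLp g 2 ν →
      ∫⁻ c, ‖∫ t, ((∏ j, f (t + c j)) - ∏ j, s (t + c j)) * g t ∂ν‖ₑ ^ 2
        ∂(Measure.pi fun _ : Fin n => μ) ≤ Bn M K n * ∫⁻ t, ‖g t‖ₑ ^ 2 ∂ν := by
  intro n
  induction n with
  | zero =>
    intro g _ _
    simp [Bn]
  | succ n ih =>
    intro g hg hg2
    -- joint measurability
    have mF : Measurable (fun c : Fin (n + 1) → ℝ =>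
        ‖∫ t, ((∏ j, f (t + c j)) - ∏ j, s (t + c j)) * g t ∂ν‖ₑ ^ 2) := by
      refine int_meas (F := fun (c : Fin (n + 1) → ℝ) t => ((∏ j, f (t + c j)) - ∏ j, s (t + c j)) * g t) ?_
      unfold Function.uncurry
      fun_prop
    have m1 : Measurable (fun z : ℝ × (Fin n → ℝ) =>
        ‖∫ t, ((∏ j, f (t + z.2 j)) - ∏ j, s (t + z.2 j)) * (f (t + z.1) * g t) ∂ν‖ₑ ^ 2) := by
      refine int_meas (F := fun (z : ℝ × (Fin n → ℝ)) t =>
        ((∏ j, f (t + z.2 j)) - ∏ j, s (t + z.2 j)) * (f (t + z.1) * g t)) ?_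
      unfold Function.uncurry
      fun_prop
    have m2 : Measurable (fun z : ℝ × (Fin n → ℝ) =>
        ‖∫ t, (f (t + z.1) - s (t + z.1)) * ((∏ j, s (t + z.2 j)) * g t) ∂ν‖ₑ ^ 2) := by
      refine int_meas (F := fun (z : ℝ × (Fin n → ℝ)) t =>
        (f (t + z.1) - s (t + z.1)) * ((∏ j, s (t + z.2 j)) * g t)) ?_
      unfold Function.uncurry
      fun_prop
    -- bounds for the products
    have hae : ∀ᵐ c ∂(Measure.pi fun _ : Fin n => μ), ∀ j, c j ∈ Sx := by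
      rw [ae_all_iff]
      intro j
      exact (Measure.tendsto_eval_ae_ae (μ := fun _ : Fin n => μ) (i := j)).eventually hSx
    have hpf : ∀ c : Fin n → ℝ, (∀ j, c j ∈ Sx) → ∃ C : ℝ, ∀ t ∈ St, ‖∏ j, f (t + c j)‖ ≤ C := by
      intro c hc
      choose C hC using fun j => hfb (c j) (hc j)
      refine ⟨∏ j, C j, fun t ht => ?_⟩
      rw [norm_prod]
      exact Finset.prod_le_prod (fun _ _ => norm_nonneg _) fun j _ => hC j t ht
    have hps : ∀ c : Fin n → ℝ, (∀ j, c j ∈ Sx) → ∃ C : ℝ, ∀ t ∈ St, ‖∏ j, s (t + c j)‖ ≤ C := by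
      intro c hc
      choose C hC using fun j => hsb (c j) (hc j)
      refine ⟨∏ j, C j, fun t ht => ?_⟩
      rw [norm_prod]
      exact Finset.prod_le_prod (fun _ _ => norm_nonneg _) fun j _ => hC j t ht
    have hmul : ∀ (q : ℝ → ℂ), Measurable q → (∃ C : ℝ, ∀ t ∈ St, ‖q t‖ ≤ C) →
        MemLp (fun t => q t * g t) 2 ν := by
      intro q hq ⟨C, hC⟩
      refine hg2.of_le_mul (c := C) (hq.mul hg).aestronglyMeasurable ?_
      filter_upwards [hSt] with t ht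
      rw [norm_mul]
      exact mul_le_mul_of_nonneg_right (hC t ht) (norm_nonneg _)
    -- the splitting
    have split : ∀ x ∈ Sx, ∀ c : Fin n → ℝ, (∀ j, c j ∈ Sx) →
        ‖∫ t, ((∏ j, f (t + (Fin.cons x c : Fin (n + 1) → ℝ) j)) -
          ∏ j, s (t + (Fin.cons x c : Fin (n + 1) → ℝ) j)) * g t ∂ν‖ₑ ^ 2 ≤
        2 * ‖∫ t, ((∏ j, f (t + c j)) - ∏ j, s (t + c j)) * (f (t + x) * g t) ∂ν‖ₑ ^ 2 +
        2 * ‖∫ t, (f (t + x) - s (t + x)) * ((∏ j, s (t + c j)) * g t) ∂ν‖ₑ ^ 2 := by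
      intro x hx c hc
      obtain ⟨C1, hC1⟩ := hpf c hc
      obtain ⟨C2, hC2⟩ := hps c hc
      obtain ⟨C3, hC3⟩ := hfb x hx
      obtain ⟨C4, hC4⟩ := hsb x hx
      have i1 : Integrable (fun t => ((∏ j, f (t + c j)) - ∏ j, s (t + c j)) * (f (t + x) * g t)) ν := by
        have h3 := hmul (fun t => ((∏ j, f (t + c j)) - ∏ j, s (t + c j)) * f (t + x)) (by fun_prop)
          ⟨(C1 + C2) * C3, fun t ht => by
            rw [norm_mul]
            exact mul_le_mul ((norm_sub_le _ _).trans (add_le_add (hC1 t ht) (hC2 t ht))) (hC3 t ht)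
              (norm_nonneg _) (add_nonneg ((norm_nonneg _).trans (hC1 t ht)) ((norm_nonneg _).trans (hC2 t ht)))⟩
        refine (h3.integrable (by norm_num)).congr (Filter.Eventually.of_forall fun t => ?_)
        simp only
        ring
      have i2 : Integrable (fun t => (f (t + x) - s (t + x)) * ((∏ j, s (t + c j)) * g t)) ν := by
        have h3 := hmul (fun t => (f (t + x) - s (t + x)) * (∏ j, s (t + c j))) (by fun_prop)
          ⟨(C3 + C4) * C2, fun t ht => by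
            rw [norm_mul]
            exact mul_le_mul ((norm_sub_le _ _).trans (add_le_add (hC3 t ht) (hC4 t ht))) (hC2 t ht)
              (norm_nonneg _) (add_nonneg ((norm_nonneg _).trans (hC3 t ht)) ((norm_nonneg _).trans (hC4 t ht)))⟩
        refine (h3.integrable (by norm_num)).congr (Filter.Eventually.of_forall fun t => ?_)
        simp only
        ring
      have e : ∫ t, ((∏ j, f (t + (Fin.cons x c : Fin (n + 1) → ℝ) j)) -
          ∏ j, s (t + (Fin.cons x c : Fin (n + 1) → ℝ) j)) * g t ∂ν =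
          (∫ t, ((∏ j, f (t + c j)) - ∏ j, s (t + c j)) * (f (t + x) * g t) ∂ν) +
          ∫ t, (f (t + x) - s (t + x)) * ((∏ j, s (t + c j)) * g t) ∂ν := by
        rw [← integral_add i1 i2]
        refine integral_congr_ae (Filter.Eventually.of_forall fun t => ?_)
        simp only [Fin.prod_univ_succ, Fin.cons_zero, Fin.cons_succ]
        ring
      rw [e]
      exact enorm_add_sq _ _
    have hmain : ∫⁻ x, ∫⁻ c, ‖∫ t, ((∏ j, f (t + (Fin.cons x c : Fin (n + 1) → ℝ) j)) -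
          ∏ j, s (t + (Fin.cons x c : Fin (n + 1) → ℝ) j)) * g t ∂ν‖ₑ ^ 2
          ∂(Measure.pi fun _ : Fin n => μ) ∂μ ≤
        ∫⁻ x, ∫⁻ c, (2 * ‖∫ t, ((∏ j, f (t + c j)) - ∏ j, s (t + c j)) * (f (t + x) * g t) ∂ν‖ₑ ^ 2 +
          2 * ‖∫ t, (f (t + x) - s (t + x)) * ((∏ j, s (t + c j)) * g t) ∂ν‖ₑ ^ 2)
          ∂(Measure.pi fun _ : Fin n => μ) ∂μ := by
      refine lintegral_mono_ae ?_
      filter_upwards [hSx] with x hx
      refine lintegral_mono_ae ?_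
      filter_upwards [hae] with c hc
      exact split x hx c hc
    rw [lint_succ μ _ mF]
    refine hmain.trans ?_
    have m1x : ∀ x, Measurable (fun c : Fin n → ℝ =>
        2 * ‖∫ t, ((∏ j, f (t + c j)) - ∏ j, s (t + c j)) * (f (t + x) * g t) ∂ν‖ₑ ^ 2) := fun x =>
      (m1.comp (measurable_const.prodMk measurable_id : Measurable fun c : Fin n → ℝ => (x, c))).const_mul 2
    have e3 : ∫⁻ x, ∫⁻ c, (2 * ‖∫ t, ((∏ j, f (t + c j)) - ∏ j, s (t + c j)) * (f (t + x) * g t) ∂ν‖ₑ ^ 2 +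
          2 * ‖∫ t, (f (t + x) - s (t + x)) * ((∏ j, s (t + c j)) * g t) ∂ν‖ₑ ^ 2)
          ∂(Measure.pi fun _ : Fin n => μ) ∂μ =
        (∫⁻ x, ∫⁻ c, 2 * ‖∫ t, ((∏ j, f (t + c j)) - ∏ j, s (t + c j)) * (f (t + x) * g t) ∂ν‖ₑ ^ 2
          ∂(Measure.pi fun _ : Fin n => μ) ∂μ) +
        ∫⁻ x, ∫⁻ c, 2 * ‖∫ t, (f (t + x) - s (t + x)) * ((∏ j, s (t + c j)) * g t) ∂ν‖ₑ ^ 2
          ∂(Measure.pi fun _ : Fin n => μ) ∂μ := by
      rw [← lintegral_add_left]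
      · refine lintegral_congr fun x => ?_
        rw [lintegral_add_left (m1x x)]
      · exact (m1.const_mul 2).lintegral_prod_right'
    rw [e3]
    -- the first part
    have p1 : ∫⁻ x, ∫⁻ c, 2 * ‖∫ t, ((∏ j, f (t + c j)) - ∏ j, s (t + c j)) * (f (t + x) * g t) ∂ν‖ₑ ^ 2
          ∂(Measure.pi fun _ : Fin n => μ) ∂μ ≤ 2 * M * Bn M K n * ∫⁻ t, ‖g t‖ₑ ^ 2 ∂ν := by
      have q1 : ∀ᵐ x ∂μ, ∫⁻ c, 2 * ‖∫ t, ((∏ j, f (t + c j)) - ∏ j, s (t + c j)) * (f (t + x) * g t) ∂ν‖ₑ ^ 2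
          ∂(Measure.pi fun _ : Fin n => μ) ≤ 2 * (Bn M K n * ∫⁻ t, ‖f (t + x) * g t‖ₑ ^ 2 ∂ν) := by
        filter_upwards [hSx] with x hx
        rw [lintegral_const_mul' _ _ (by norm_num)]
        gcongr
        exact ih (fun t => f (t + x) * g t) (by fun_prop) (hmul _ (by fun_prop) (hfb x hx))
      refine (lintegral_mono_ae q1).trans ?_
      have mg : Measurable (fun z : ℝ × ℝ => ‖f (z.2 + z.1) * g z.2‖ₑ ^ 2) := by fun_prop
      rw [lintegral_const_mul' _ _ (by norm_num), lintegral_const_mul _ mg.lintegral_prod_right']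
      have q2 : ∫⁻ x, ∫⁻ t, ‖f (t + x) * g t‖ₑ ^ 2 ∂ν ∂μ ≤ M * ∫⁻ t, ‖g t‖ₑ ^ 2 ∂ν := by
        rw [lintegral_lintegral_swap mg.aemeasurable, ← lintegral_const_mul _ (by fun_prop)]
        refine lintegral_mono_ae ?_
        filter_upwards [hSt] with t ht
        simp_rw [enorm_mul, mul_pow]
        rw [lintegral_mul_const _ (by fun_prop)]
        exact mul_le_mul_left (hfM t ht) _
      calc 2 * (Bn M K n * ∫⁻ x, ∫⁻ t, ‖f (t + x) * g t‖ₑ ^ 2 ∂ν ∂μ)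
          ≤ 2 * (Bn M K n * (M * ∫⁻ t, ‖g t‖ₑ ^ 2 ∂ν)) := by gcongr
        _ = _ := by ring
    -- the second part
    have p2 : ∫⁻ x, ∫⁻ c, 2 * ‖∫ t, (f (t + x) - s (t + x)) * ((∏ j, s (t + c j)) * g t) ∂ν‖ₑ ^ 2
          ∂(Measure.pi fun _ : Fin n => μ) ∂μ ≤ 2 * M ^ n * K * ∫⁻ t, ‖g t‖ₑ ^ 2 ∂ν := by
      rw [lintegral_lintegral_swap (m2.const_mul 2).aemeasurable]
      have q1 : ∀ᵐ c ∂(Measure.pi fun _ : Fin n => μ),
          ∫⁻ x, 2 * ‖∫ t, (f (t + x) - s (t + x)) * ((∏ j, s (t + c j)) * g t) ∂ν‖ₑ ^ 2 ∂μ ≤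
          2 * (K * ∫⁻ t, ‖(∏ j, s (t + c j)) * g t‖ₑ ^ 2 ∂ν) := by
        filter_upwards [hae] with c hc
        rw [lintegral_const_mul' _ _ (by norm_num)]
        gcongr
        exact h1 (fun t => (∏ j, s (t + c j)) * g t) (by fun_prop) (hmul _ (by fun_prop) (hps c hc))
      refine (lintegral_mono_ae q1).trans ?_
      have mg : Measurable (fun z : (Fin n → ℝ) × ℝ => ‖(∏ j, s (z.2 + z.1 j)) * g z.2‖ₑ ^ 2) := by fun_prop
      rw [lintegral_const_mul' _ _ (by norm_num), lintegral_const_mul _ mg.lintegral_prod_right']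
      have q2 : ∫⁻ c, ∫⁻ t, ‖(∏ j, s (t + c j)) * g t‖ₑ ^ 2 ∂ν ∂(Measure.pi fun _ : Fin n => μ) ≤
          M ^ n * ∫⁻ t, ‖g t‖ₑ ^ 2 ∂ν := by
        rw [lintegral_lintegral_swap mg.aemeasurable, ← lintegral_const_mul _ (by fun_prop)]
        refine lintegral_mono_ae ?_
        filter_upwards [hSt] with t ht
        simp_rw [enorm_mul, mul_pow]
        rw [lintegral_mul_const _ (by fun_prop)]
        refine mul_le_mul_left ?_ _
        have e4 : ∀ c : Fin n → ℝ, ‖∏ j, s (t + c j)‖ₑ ^ 2 = ∏ j, ‖s (t + c j)‖ₑ ^ 2 := by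
          intro c
          rw [Finset.prod_pow]
          congr 1
          simp only [enorm_eq_nnnorm]
          rw [nnnorm_prod]
          push_cast
          rfl
        simp_rw [e4]
        rw [lint_pow μ (fun x => ‖s (t + x)‖ₑ ^ 2) (by fun_prop) n]
        exact pow_le_pow_left' (hsM t ht) n
      calc 2 * (K * ∫⁻ c, ∫⁻ t, ‖(∏ j, s (t + c j)) * g t‖ₑ ^ 2 ∂ν ∂(Measure.pi fun _ : Fin n => μ))
          ≤ 2 * (K * (M ^ n * ∫⁻ t, ‖g t‖ₑ ^ 2 ∂ν)) := by gcongr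
        _ = _ := by ring
    calc _ ≤ 2 * M * Bn M K n * (∫⁻ t, ‖g t‖ₑ ^ 2 ∂ν) + 2 * M ^ n * K * ∫⁻ t, ‖g t‖ₑ ^ 2 ∂ν :=
          add_le_add p1 p2
      _ = Bn M K (n + 1) * ∫⁻ t, ‖g t‖ₑ ^ 2 ∂ν := by
          rw [← add_mul]; rfl

end

end Pool.Agent.H471.GS
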