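import Pool.Agent.H471.GS.Cop

set_option autoImplicit false

/-!
Partial summation over the heights, and the kernel of the quadratic form.
-/

namespace Pool.Agent.H471.GS

open Complex Finset
open Pool.Agent.Y969.GP (ht lam FR PS)

/-- the coprime pairs with height in `(Z, X]` -/
def FH (X Z : ℕ) : Finset (ℕ × ℕ) := (FR X).filter fun p => Z < p.1 * p.2

lemma FR_succ (X : ℕ) (f : ℕ × ℕ → ℂ) : ∑ p ∈ FR (X + 1), f p =
    ∑ p ∈ FR X, f p + ∑ p ∈ (FR (X + 1)).filter (fun p => p.1 * p.2 = X + 1), f p := by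
  rw [← Finset.sum_filter_add_sum_filter_not (FR (X + 1)) (fun p => p.1 * p.2 = X + 1), add_comm]
  congr 1
  apply Finset.sum_congr _ fun _ _ => rfl
  ext p
  simp only [mem_filter, mem_FR']
  constructor
  · rintro ⟨⟨a, b, c, d⟩, e⟩
    exact ⟨a, b, by omega, d⟩
  · rintro ⟨a, b, c, d⟩
    exact ⟨⟨a, b, by omega, d⟩, by omega⟩

lemma abel_id {Z : ℕ} (g : ℕ → ℝ) (V : ℝ) : ∀ X : ℕ, Z ≤ X →
    ‖∑ p ∈ FH X Z, (g (p.1 * p.2) : ℂ) * ee V p - (g X : ℂ) * ∑ p ∈ FR X, ee V p‖ ≤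
      |g Z| * ‖∑ p ∈ FR Z, ee V p‖ + ∑ n ∈ Ico Z X, |g n - g (n + 1)| * ‖∑ p ∈ FR n, ee V p‖ := by
  intro X hX
  induction X, hX using Nat.le_induction with
  | base =>
    have e : FH Z Z = ∅ := by
      ext p
      unfold FH
      simp only [mem_filter, mem_FR', Finset.notMem_empty, iff_false]
      omega
    rw [e]
    simp
  | succ X hX ih =>
    have e1 : ∑ p ∈ FH (X + 1) Z, (g (p.1 * p.2) : ℂ) * ee V p =
        ∑ p ∈ FH X Z, (g (p.1 * p.2) : ℂ) * ee V p +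
        (g (X + 1) : ℂ) * (∑ p ∈ FR (X + 1), ee V p - ∑ p ∈ FR X, ee V p) := by
      unfold FH
      rw [Finset.sum_filter, Finset.sum_filter, FR_succ, FR_succ X (fun p => ee V p)]
      congr 1
      rw [add_sub_cancel_left, Finset.mul_sum]
      refine Finset.sum_congr rfl fun p hp => ?_
      rw [mem_filter] at hp
      rw [hp.2, if_pos (by omega)]
    rw [Finset.sum_Ico_succ_top hX]
    have e2 : ∑ p ∈ FH (X + 1) Z, (g (p.1 * p.2) : ℂ) * ee V p - (g (X + 1) : ℂ) * ∑ p ∈ FR (X + 1), ee V p =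
        (∑ p ∈ FH X Z, (g (p.1 * p.2) : ℂ) * ee V p - (g X : ℂ) * ∑ p ∈ FR X, ee V p) +
        ((g X - g (X + 1) : ℝ) : ℂ) * ∑ p ∈ FR X, ee V p := by
      rw [e1]; push_cast; ring
    rw [e2]
    refine (norm_add_le _ _).trans ?_
    rw [norm_mul, Complex.norm_real, Real.norm_eq_abs]
    linarith

lemma abel_bd {Z X : ℕ} (hZ : 1 ≤ Z) (hZX : Z ≤ X) {g : ℕ → ℝ} {V A τ : ℝ} (hA : 0 ≤ A) (hτ : 0 ≤ τ)
    (hg1 : ∀ n : ℕ, 1 ≤ n → |g n| ≤ A / n) (hg2 : ∀ n : ℕ, 1 ≤ n → |g n - g (n + 1)| ≤ 3 * A / n ^ 2)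
    (hD : ∀ n : ℕ, Z ≤ n → n ≤ X → ‖∑ p ∈ FR n, ee V p‖ ≤ n * τ) :
    ‖∑ p ∈ FH X Z, (g (p.1 * p.2) : ℂ) * ee V p‖ ≤ 5 * A * τ * (1 + Real.log X) := by
  have h := abel_id (Z := Z) g V X hZX
  have hX1 : 1 ≤ X := hZ.trans hZX
  have hX0 : (1 : ℝ) ≤ X := by exact_mod_cast hX1
  have hl : 0 ≤ Real.log X := Real.log_nonneg hX0
  have term : ∀ n : ℕ, Z ≤ n → n ≤ X → |g n| * ‖∑ p ∈ FR n, ee V p‖ ≤ A * τ := by
    intro n h1 h2
    have hn0 : (0 : ℝ) < n := by exact_mod_cast hZ.trans h1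
    calc _ ≤ A / n * (n * τ) := mul_le_mul (hg1 n (hZ.trans h1)) (hD n h1 h2) (norm_nonneg _) (by positivity)
      _ = A * τ := by field_simp
  have h1 := term Z le_rfl hZX
  have h2 : ‖(g X : ℂ) * ∑ p ∈ FR X, ee V p‖ ≤ A * τ := by
    rw [norm_mul, Complex.norm_real, Real.norm_eq_abs]
    exact term X hZX le_rfl
  have h3 : ∑ n ∈ Ico Z X, |g n - g (n + 1)| * ‖∑ p ∈ FR n, ee V p‖ ≤ 3 * A * τ * (1 + Real.log X) := by
    calc _ ≤ ∑ n ∈ Ico Z X, 3 * A * τ * (1 / (n : ℝ)) := by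
          refine Finset.sum_le_sum fun n hn => ?_
          rw [mem_Ico] at hn
          have hn1 := hZ.trans hn.1
          have hn0 : (0 : ℝ) < n := by exact_mod_cast hn1
          calc _ ≤ 3 * A / n ^ 2 * (n * τ) :=
                mul_le_mul (hg2 n hn1) (hD n hn.1 hn.2.le) (norm_nonneg _) (by positivity)
            _ = _ := by field_simp
      _ = 3 * A * τ * ∑ n ∈ Ico Z X, 1 / (n : ℝ) := by rw [Finset.mul_sum]
      _ ≤ _ := mul_le_mul_of_nonneg_left (harm_Ico Z X hZ) (by positivity)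
  have h4 : ‖∑ p ∈ FH X Z, (g (p.1 * p.2) : ℂ) * ee V p‖ ≤
      ‖∑ p ∈ FH X Z, (g (p.1 * p.2) : ℂ) * ee V p - (g X : ℂ) * ∑ p ∈ FR X, ee V p‖ +
      ‖(g X : ℂ) * ∑ p ∈ FR X, ee V p‖ := by
    have := norm_add_le (∑ p ∈ FH X Z, (g (p.1 * p.2) : ℂ) * ee V p - (g X : ℂ) * ∑ p ∈ FR X, ee V p)
      ((g X : ℂ) * ∑ p ∈ FR X, ee V p)
    rwa [sub_add_cancel] at this
  have h5 : 0 ≤ A * τ * Real.log X := by positivity
  nlinarith

/-- amplitudes: `φ` and `u φ'(u)` are bounded -/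
structure Amp (φ : ℝ → ℝ) (B : ℝ) : Prop where
  nn : 0 ≤ B
  bd : ∀ u : ℝ, 0 < u → |φ u| ≤ B
  di : ∀ u : ℝ, 0 < u → DifferentiableAt ℝ φ u
  dv : ∀ u : ℝ, 0 < u → |u * deriv φ u| ≤ B

lemma gker {φ : ℝ → ℝ} {B : ℝ} (h : Amp φ B) {x y : ℝ} (hx : 0 < x) (hy : 0 < y) (n : ℕ) (hn : 1 ≤ n) :
    |(n : ℝ)⁻¹ * (φ (x / n) * φ (y / n)) -
      (((n + 1 : ℕ) : ℝ))⁻¹ * (φ (x / ((n + 1 : ℕ) : ℝ)) * φ (y / ((n + 1 : ℕ) : ℝ)))| ≤
      3 * B ^ 2 / n ^ 2 := by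
  have hn0 : (0 : ℝ) < n := by exact_mod_cast hn
  have hB := h.nn
  have hd : ∀ s ∈ Set.Icc (n : ℝ) ((n + 1 : ℕ) : ℝ), HasDerivWithinAt
      (fun s : ℝ => s⁻¹ * (φ (x / s) * φ (y / s)))
      (-(s ^ 2)⁻¹ * (φ (x / s) * φ (y / s)) + s⁻¹ * (deriv φ (x / s) * (x * -(s ^ 2)⁻¹) * φ (y / s) +
        φ (x / s) * (deriv φ (y / s) * (y * -(s ^ 2)⁻¹)))) (Set.Icc (n : ℝ) ((n + 1 : ℕ) : ℝ)) s := by
    intro s hs
    have hs0 : 0 < s := hn0.trans_le hs.1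
    have h1 : HasDerivAt (fun s : ℝ => s⁻¹) (-(s ^ 2)⁻¹) s := hasDerivAt_inv hs0.ne'
    have hc : ∀ z : ℝ, 0 < z → HasDerivAt (fun s : ℝ => φ (z / s)) (deriv φ (z / s) * (z * -(s ^ 2)⁻¹)) s := by
      intro z hz
      have h2 : HasDerivAt (fun s : ℝ => z / s) (z * -(s ^ 2)⁻¹) s := by
        simpa only [div_eq_mul_inv] using h1.const_mul z
      exact HasDerivAt.comp s (h.di (z / s) (by positivity)).hasDerivAt h2
    exact (h1.mul ((hc x hx).mul (hc y hy))).hasDerivWithinAt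
  have hb : ∀ s ∈ Set.Icc (n : ℝ) ((n + 1 : ℕ) : ℝ), ‖-(s ^ 2)⁻¹ * (φ (x / s) * φ (y / s)) +
      s⁻¹ * (deriv φ (x / s) * (x * -(s ^ 2)⁻¹) * φ (y / s) +
        φ (x / s) * (deriv φ (y / s) * (y * -(s ^ 2)⁻¹)))‖ ≤ 3 * B ^ 2 / n ^ 2 := by
    intro s hs
    have hs0 : 0 < s := hn0.trans_le hs.1
    have a1 := h.bd (x / s) (by positivity)
    have a2 := h.bd (y / s) (by positivity)
    have b1 := h.dv (x / s) (by positivity)
    have b2 := h.dv (y / s) (by positivity)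
    have e : -(s ^ 2)⁻¹ * (φ (x / s) * φ (y / s)) +
      s⁻¹ * (deriv φ (x / s) * (x * -(s ^ 2)⁻¹) * φ (y / s) +
        φ (x / s) * (deriv φ (y / s) * (y * -(s ^ 2)⁻¹))) =
        -((s ^ 2)⁻¹ * (φ (x / s) * φ (y / s) + (x / s * deriv φ (x / s)) * φ (y / s) +
          φ (x / s) * (y / s * deriv φ (y / s)))) := by
      field_simp; ring
    rw [e, norm_neg, norm_mul, Real.norm_eq_abs, Real.norm_eq_abs, abs_of_nonneg (by positivity)]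
    have c1 : |φ (x / s) * φ (y / s)| ≤ B * B := by
      rw [abs_mul]; exact mul_le_mul a1 a2 (abs_nonneg _) hB
    have c2 : |(x / s * deriv φ (x / s)) * φ (y / s)| ≤ B * B := by
      rw [abs_mul]; exact mul_le_mul b1 a2 (abs_nonneg _) hB
    have c3 : |φ (x / s) * (y / s * deriv φ (y / s))| ≤ B * B := by
      rw [abs_mul]; exact mul_le_mul a1 b2 (abs_nonneg _) hB
    have c4 : |φ (x / s) * φ (y / s) + (x / s * deriv φ (x / s)) * φ (y / s) +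
          φ (x / s) * (y / s * deriv φ (y / s))| ≤ 3 * B ^ 2 := by
      refine (abs_add_three _ _ _).trans ?_
      linarith
    calc _ ≤ (s ^ 2)⁻¹ * (3 * B ^ 2) := by gcongr
      _ ≤ ((n : ℝ) ^ 2)⁻¹ * (3 * B ^ 2) := by
          have := hs.1
          gcongr
      _ = _ := by ring
  have hnn : (n : ℝ) ≤ ((n + 1 : ℕ) : ℝ) := by push_cast; linarith
  have key := (convex_Icc (n : ℝ) ((n + 1 : ℕ) : ℝ)).norm_image_sub_le_of_norm_hasDerivWithin_le hd hb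
    (Set.right_mem_Icc.2 hnn) (Set.left_mem_Icc.2 hnn)
  rw [Real.norm_eq_abs] at key
  refine key.trans (le_of_eq ?_)
  rw [Real.norm_eq_abs]
  push_cast
  rw [show (n : ℝ) - (n + 1) = -1 by ring, abs_neg, abs_one, mul_one]

lemma ht_pos {p : ℕ × ℕ} (h1 : 1 ≤ p.1) (h2 : 1 ≤ p.2) : 0 < ht p := by
  unfold ht
  have a : (0 : ℝ) < p.1 := by exact_mod_cast h1
  have b : (0 : ℝ) < p.2 := by exact_mod_cast h2
  positivity

lemma ht_cast (p : ℕ × ℕ) : ((p.1 * p.2 : ℕ) : ℝ) = ht p := by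
  unfold ht; push_cast; rfl

/-- the kernel -/
noncomputable def KK (φ : ℝ → ℝ) (X Z : ℕ) (x y V : ℝ) : ℂ :=
  ∑ p ∈ FH X Z, (((ht p)⁻¹ * (φ (x / ht p) * φ (y / ht p)) : ℝ) : ℂ) * ee V p

lemma KK_small {φ : ℝ → ℝ} {B : ℝ} (h : Amp φ B) {Z X : ℕ} (hZ : 1 ≤ Z) (hZX : Z ≤ X) {x y V τ : ℝ}
    (hx : 0 < x) (hy : 0 < y) (hτ : 0 ≤ τ)
    (hD : ∀ n : ℕ, Z ≤ n → n ≤ X → ‖∑ p ∈ FR n, ee V p‖ ≤ n * τ) :
    ‖KK φ X Z x y V‖ ≤ 5 * B ^ 2 * τ * (1 + Real.log X) := by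
  have := abel_bd hZ hZX (g := fun n => (n : ℝ)⁻¹ * (φ (x / n) * φ (y / n))) (V := V) (A := B ^ 2)
    (τ := τ) (by positivity) hτ (by
      intro n hn
      have hn0 : (0 : ℝ) < n := by exact_mod_cast hn
      rw [abs_mul, abs_mul, abs_of_nonneg (by positivity : 0 ≤ (n : ℝ)⁻¹)]
      have a1 := h.bd (x / n) (by positivity)
      have a2 := h.bd (y / n) (by positivity)
      have := mul_le_mul a1 a2 (abs_nonneg _) h.nn
      calc _ ≤ (n : ℝ)⁻¹ * (B * B) := by gcongr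
        _ = _ := by ring) (fun n hn => gker h hx hy n hn) hD
  refine le_trans (le_of_eq ?_) this
  unfold KK
  congr 1
  refine Finset.sum_congr rfl fun p _ => ?_
  rw [ht_cast]

lemma sum_inv_ht (X : ℕ) : ∑ p ∈ FR X, (ht p)⁻¹ ≤ (1 + Real.log X) ^ 2 := by
  have h1 : ∑ p ∈ FR X, (ht p)⁻¹ ≤ ∑ p ∈ Icc 1 X ×ˢ Icc 1 X, (ht p)⁻¹ := by
    apply Finset.sum_le_sum_of_subset_of_nonneg
    · intro p hp
      obtain ⟨a, b, _, _, c, d⟩ := Pool.Agent.Y379.GP.mem_FR hp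
      exact mem_product.2 ⟨mem_Icc.2 ⟨a, c⟩, mem_Icc.2 ⟨b, d⟩⟩
    · intro p _ _
      unfold ht; positivity
  have h2 : ∑ p ∈ Icc 1 X ×ˢ Icc 1 X, (ht p)⁻¹ = (∑ j ∈ Icc 1 X, 1 / (j : ℝ)) ^ 2 := by
    rw [pow_two, Finset.sum_mul_sum, Finset.sum_product]
    refine Finset.sum_congr rfl fun a _ => Finset.sum_congr rfl fun b _ => ?_
    unfold ht
    simp only [one_div, mul_inv]
  rw [h2] at h1
  refine h1.trans ?_
  have h3 := Pool.Agent.Y379.GP.harm X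
  have h4 : 0 ≤ ∑ j ∈ Icc 1 X, 1 / (j : ℝ) := Finset.sum_nonneg fun _ _ => by positivity
  gcongr

lemma KK_triv {φ : ℝ → ℝ} {B : ℝ} (h : Amp φ B) {Z X : ℕ} {x y V : ℝ}
    (hx : 0 < x) (hy : 0 < y) : ‖KK φ X Z x y V‖ ≤ B ^ 2 * (1 + Real.log X) ^ 2 := by
  unfold KK
  refine (norm_sum_le _ _).trans ?_
  calc _ ≤ ∑ p ∈ FH X Z, B ^ 2 * (ht p)⁻¹ := by
        refine Finset.sum_le_sum fun p hp => ?_
        unfold FH at hp
        rw [mem_filter, mem_FR'] at hp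
        have hp0 := ht_pos hp.1.1 hp.1.2.1
        rw [norm_mul, norm_ee, mul_one, Complex.norm_real, Real.norm_eq_abs, abs_mul, abs_mul,
          abs_of_nonneg (by positivity : 0 ≤ (ht p)⁻¹)]
        have a1 := h.bd (x / ht p) (by positivity)
        have a2 := h.bd (y / ht p) (by positivity)
        have := mul_le_mul a1 a2 (abs_nonneg _) h.nn
        calc _ ≤ (ht p)⁻¹ * (B * B) := by gcongr
          _ = _ := by ring
    _ ≤ ∑ p ∈ FR X, B ^ 2 * (ht p)⁻¹ := by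
        apply Finset.sum_le_sum_of_subset_of_nonneg (Finset.filter_subset _ _)
        intro p _ _
        have : 0 ≤ ht p := by unfold ht; positivity
        positivity
    _ = B ^ 2 * ∑ p ∈ FR X, (ht p)⁻¹ := by rw [Finset.mul_sum]
    _ ≤ _ := mul_le_mul_of_nonneg_left (sum_inv_ht X) (by positivity)

end Pool.Agent.H471.GS
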