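import Pool.Graph.R_seed8.Y125.GP.LSW
import Pool.Graph.R_seed8.Y379.GP.Sp

set_option autoImplicit false

/-!
The large sieve in one variable with amplitudes of bounded variation, in the form used here.
-/

namespace Pool.Agent.H471.GS

open Complex MeasureTheory Set
open Pool.Agent.Y969.GP (ht lam FR PS mB)

lemma pi1 (F : Finset (ℕ × ℕ)) {R : Type} [AddCommMonoid R] (f : (Fin 1 → ℕ × ℕ) → R) :
    ∑ q ∈ Fintype.piFinset (fun _ : Fin 1 => F), f q = ∑ p ∈ F, f (fun _ => p) := by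
  refine Finset.sum_nbij' (fun q => q 0) (fun p _ => p) ?_ ?_ ?_ ?_ ?_
  · intro q hq
    exact Fintype.mem_piFinset.1 hq 0
  · intro p hp
    exact Fintype.mem_piFinset.2 fun _ => hp
  · intro q _
    ext j
    · rw [Subsingleton.elim j 0]
    · rw [Subsingleton.elim j 0]
  · intro p _
    rfl
  · intro q _
    congr 1
    ext j
    · rw [Subsingleton.elim j 0]
    · rw [Subsingleton.elim j 0]

theorem LS1 : ∃ C : ℝ, 0 < C ∧ ∀ (X : ℕ) (a T : ℝ), 1 ≤ X → 1 ≤ T → 0 ≤ a → a ≤ T →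
    ∀ (A A' : ℕ × ℕ → ℝ → ℂ) (w : ℕ × ℕ → ℝ),
    (∀ p ∈ FR X, ∀ x ∈ Icc a T, HasDerivAt (A p) (A' p x) x) →
    (∀ p ∈ FR X, ContinuousOn (A' p) (Icc a T)) →
    (∀ p ∈ FR X, ∀ x ∈ Icc a T, ‖A p x‖ ≤ w p) →
    (∀ p ∈ FR X, ∫ x in a..T, ‖A' p x‖ ≤ w p) →
    ∫ x in Icc a T, ‖∑ p ∈ FR X, A p x * cexp (I * ((x * lam p : ℝ) : ℂ))‖ ^ 2 ≤
      C * ((T + X) * (1 + Real.log X)) * ∑ p ∈ FR X, w p ^ 2 := by
  obtain ⟨C, hC, h⟩ := Pool.Agent.Y125.GP.t_LSW Pool.Agent.Y379.GP.t_SP 1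
  refine ⟨C, hC, fun X a T hX hT ha haT A A' w h1 h2 h3 h4 => ?_⟩
  have h5 := h X a T hX hT ha haT (fun _ => A) (fun _ => A') (fun _ => 1) (fun _ => w)
    (fun _ => h1) (fun _ => h2) (fun _ => h3) (fun _ => h4)
  simp only [pi1, Finset.univ_unique, Fin.default_eq_zero, Fin.isValue, Finset.prod_singleton,
    one_mul, norm_one, one_pow, pow_one] at h5
  refine le_trans (le_of_eq ?_) h5
  have h6 := (measurePreserving_funUnique (volume.restrict (Icc a T)) (Fin 1)).integral_comp'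
    (fun x : ℝ => ‖∑ p ∈ FR X, A p x * cexp (I * ((x * lam p : ℝ) : ℂ))‖ ^ 2)
  rw [← h6]
  rfl

end Pool.Agent.H471.GS
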