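import Pool.Agent.H471.GS.Ms
import Pool.Agent.H471.GS.Ind

set_option autoImplicit false

/-!
One shift: zeta minus the short polynomial, against a weighted measure.
-/

namespace Pool.Agent.H471.GS

open Complex MeasureTheory Set
open scoped ENNReal
open Pool.Agent.Y969.GP (ht lam FR PS V co cr PX ff S_V S_CR S_AFE)

lemma FH_mem {X Z : ℕ} {p : ℕ × ℕ} (hp : p ∈ FH X Z) : 1 ≤ p.1 ∧ 1 ≤ p.2 := by
  unfold FH at hp
  rw [Finset.mem_filter, mem_FR'] at hp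
  exact ⟨hp.1.1, hp.1.2.1⟩

lemma ee_add (t x : ℝ) (p : ℕ × ℕ) : ee (t + x) p = ee t p * ee x p := by
  unfold ee
  rw [← Complex.exp_add]
  congr 1
  push_cast
  ring

lemma hi_eq {ν : Measure ℝ} {T : ℝ} (hν : ∀ᵐ t ∂ν, t ∈ Icc 0 T) {g : ℝ → ℂ} (hg : Integrable g ν)
    {φ : ℝ → ℝ} {B : ℝ} (h : Amp φ B) (X Z : ℕ) {x : ℝ} (hx : 0 < x) :
    Integrable (fun t => (∑ p ∈ FH X Z, ((aP φ p (t + x) : ℝ) : ℂ) * ee (t + x) p) * g t) ν ∧
    ∫ t, (∑ p ∈ FH X Z, ((aP φ p (t + x) : ℝ) : ℂ) * ee (t + x) p) * g t ∂ν =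
      ∑ p ∈ FH X Z, AA φ ν g p x * ee x p := by
  have h3 : ∀ p ∈ FH X Z, Integrable (fun t => ((aP φ p (t + x) : ℝ) : ℂ) * ee (t + x) p * g t) ν := by
    intro p hp
    have h3 : Integrable (fun t => cP φ x p t * g t) ν :=
      hg.bdd_mul (aesm hν (cP_cont h (ht_pos (FH_mem hp).1 (FH_mem hp).2) hx T)) (c := B)
        (by filter_upwards [hν] with t ht'; exact cP_norm h (FH_mem hp).1 (FH_mem hp).2 (by linarith [ht'.1]))
    refine (h3.mul_const (ee x p)).congr (Filter.Eventually.of_forall fun t => ?_)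
    simp only
    unfold cP
    rw [ee_add]
    ring
  simp_rw [Finset.sum_mul]
  refine ⟨integrable_finsetSum _ h3, ?_⟩
  rw [integral_finsetSum _ h3]
  refine Finset.sum_congr rfl fun p _ => ?_
  unfold AA
  rw [← integral_mul_const]
  refine integral_congr_ae (Filter.Eventually.of_forall fun t => ?_)
  simp only
  unfold cP
  rw [ee_add]
  ring

lemma hi_cont {ν : Measure ℝ} {T : ℝ} (hν : ∀ᵐ t ∂ν, t ∈ Icc 0 T) {g : ℝ → ℂ} (hg : Integrable g ν)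
    {φ : ℝ → ℝ} {B : ℝ} (h : Amp2 φ B) (X Z : ℕ) {a U : ℝ} (ha : 0 < a) :
    ContinuousOn (fun x => ∫ t, (∑ p ∈ FH X Z, ((aP φ p (t + x) : ℝ) : ℂ) * ee (t + x) p) * g t ∂ν)
      (Icc a U) := by
  have h1 : ContinuousOn (fun x => ∑ p ∈ FH X Z, AA φ ν g p x * ee x p) (Icc a U) := by
    refine continuousOn_finsetSum _ fun p hp => ?_
    refine ContinuousOn.mul ?_ (ee_cont p).continuousOn
    intro x hx
    exact (AA_deriv hν hg h (FH_mem hp).1 (FH_mem hp).2 (ha.trans_le hx.1)).continuousAt.continuousWithinAt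
  refine h1.congr fun x hx => ?_
  exact (hi_eq hν hg h.a0 X Z (ha.trans_le hx.1)).2

/-- one shift -/
theorem one : ∃ C : ℝ, 0 < C ∧ ∀ (ν : Measure ℝ) [IsProbabilityMeasure ν] (T : ℝ), (∀ᵐ t ∂ν, t ∈ Icc 0 T) →
    ∀ (g : ℝ → ℂ), MemLp g 2 ν → ∀ (X Z : ℕ), 1 ≤ Z → Z ≤ X → ∀ (a U : ℝ), 1 ≤ a → a ≤ U →
    T ≤ U → ∀ (H τ m η : ℝ), 0 ≤ τ → 0 ≤ η → (∀ t : ℝ, ν.real (Metric.ball t H) ≤ m) →
    (∀ V : ℝ, H ≤ |V| → |V| ≤ T → ∀ n : ℕ, Z ≤ n → n ≤ X → ‖∑ p ∈ FR n, ee V p‖ ≤ n * τ) →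
    (∀ u : ℝ, a ≤ u → u ≤ 2 * U → ‖(ff u : ℂ) - sh Z u - hi X Z u‖ ≤ η) →
    ∫⁻ x in Icc a U, ‖∫ t, ((ff (t + x) : ℂ) - sh Z (t + x)) * g t ∂ν‖ₑ ^ 2 ≤
      ENNReal.ofReal (C * ((U + X) * (1 + Real.log X) ^ 5 * (1 + Real.log U) ^ 2 * (5 * τ + m)) +
        2 * U * η ^ 2) * ∫⁻ t, ‖g t‖ₑ ^ 2 ∂ν := by
  obtain ⟨C1, hC1, hov⟩ := ovl
  obtain ⟨C2, hC2, hamp⟩ := amp_ph
  refine ⟨2 * C1 * C2 ^ 2, by positivity, fun ν _ T hν g hg X Z hZ hZX a U ha haU hTU H τ m η hτ hη hm hD hE => ?_⟩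
  have hX : 1 ≤ X := hZ.trans hZX
  have hX1 : (1 : ℝ) ≤ X := by exact_mod_cast hX
  have hlX : 0 ≤ Real.log X := Real.log_nonneg hX1
  have ha0 : 0 < a := by linarith
  have hU0 : 0 < U := by linarith
  have hlU : 0 ≤ Real.log U := Real.log_nonneg (by linarith)
  have hm0 : 0 ≤ m := measureReal_nonneg.trans (hm 0)
  have hg1 : Integrable g ν := hg.integrable (by norm_num)
  have hg2 : Integrable (fun t => ‖g t‖ ^ 2) ν := hg.integrable_norm_pow (by norm_num)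
  set G : ℝ := ∫ t, ‖g t‖ ^ 2 ∂ν with hG
  have hG0 : 0 ≤ G := integral_nonneg fun _ => by positivity
  have h1 := hov ν T hν g hg (ph X) (C2 * (1 + Real.log X)) (hamp X hX) X Z hZ hZX a U ha haU H τ 1 m hτ
    (by simp) hm hD
  set R : ℝ := C1 * ((U + X) * (1 + Real.log X) ^ 3 * (1 + Real.log U) ^ 2 * (C2 * (1 + Real.log X)) ^ 2 *
    (5 * τ * 1 + m)) with hR
  have hR0 : 0 ≤ R := by positivity
  have eG : ∫⁻ t, ‖g t‖ₑ ^ 2 ∂ν = ENNReal.ofReal G := by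
    have e1 : ∀ t : ℝ, ‖g t‖ₑ ^ 2 = ENNReal.ofReal (‖g t‖ ^ 2) := by
      intro t
      rw [← ofReal_norm, ← ENNReal.ofReal_pow (norm_nonneg _)]
    simp_rw [e1]
    rw [← ofReal_integral_eq_lintegral_ofReal hg2 (Filter.Eventually.of_forall fun x => by positivity)]
  have hhi := hi_cont hν hg1 (hamp X hX) X Z (a := a) (U := U) ha0
  set Hf : ℝ → ℂ := fun x => ∫ t, (∑ p ∈ FH X Z, ((aP (ph X) p (t + x) : ℝ) : ℂ) * ee (t + x) p) * g t ∂ν with hHf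
  -- the norm of g
  have hgn : (∫ t, ‖g t‖ ∂ν) ^ 2 ≤ G := by
    have h3 : 0 ≤ ∫ t, (‖g t‖ - ∫ s, ‖g s‖ ∂ν) ^ 2 ∂ν := integral_nonneg fun _ => by positivity
    have h4 : ∫ t, (‖g t‖ - ∫ s, ‖g s‖ ∂ν) ^ 2 ∂ν = G - (∫ t, ‖g t‖ ∂ν) ^ 2 := by
      have e : ∀ t, (‖g t‖ - ∫ s, ‖g s‖ ∂ν) ^ 2 = ‖g t‖ ^ 2 - (2 * ∫ s, ‖g s‖ ∂ν) * ‖g t‖ +
          (∫ s, ‖g s‖ ∂ν) ^ 2 := by intro t; ring
      simp_rw [e]
      have i0 : Integrable (fun t => (2 * ∫ s, ‖g s‖ ∂ν) * ‖g t‖) ν := hg1.norm.const_mul _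
      have i1 : Integrable (fun t => ‖g t‖ ^ 2 - (2 * ∫ s, ‖g s‖ ∂ν) * ‖g t‖) ν := hg2.sub i0
      rw [integral_add i1 (integrable_const _), integral_sub hg2 i0, integral_const_mul, integral_const]
      simp only [probReal_univ, one_smul]
      ring
    linarith
  have hI0 : 0 ≤ ∫ t, ‖g t‖ ∂ν := integral_nonneg fun _ => norm_nonneg _
  -- pointwise
  have hpt : ∀ x ∈ Icc a U, ‖∫ t, ((ff (t + x) : ℂ) - sh Z (t + x)) * g t ∂ν‖ₑ ^ 2 ≤
      ENNReal.ofReal (2 * ‖Hf x‖ ^ 2 + 2 * (η ^ 2 * G)) := by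
    intro x hx
    have hx0 : 0 < x := ha0.trans_le hx.1
    obtain ⟨i1, -⟩ := hi_eq hν hg1 (hamp X hX).a0 X Z hx0
    have hEm : AEStronglyMeasurable (fun t : ℝ => (ff (t + x) : ℂ) - sh Z (t + x) - hi X Z (t + x)) ν := by
      refine aesm hν (T := T) ?_
      intro t ht'
      have htx : 0 < t + x := by linarith [ht'.1]
      have c0 : ContinuousAt (fun t : ℝ => t + x) t := by fun_prop
      apply ContinuousAt.continuousWithinAt
      have c1 : ContinuousAt (fun t : ℝ => (ff (t + x) : ℂ)) t :=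
        Complex.continuous_ofReal.continuousAt.comp (ff_cont.continuousAt.comp c0)
      have c2 : ContinuousAt (fun t : ℝ => sh Z (t + x)) t :=
        ContinuousAt.comp (f := fun t : ℝ => t + x) (g := sh Z) (sh_cont Z htx) c0
      have c3 : ContinuousAt (fun t : ℝ => hi X Z (t + x)) t := by
        unfold hi
        refine tendsto_finsetSum _ fun p hp => ?_
        have c4 : ContinuousAt (fun t : ℝ => aP (ph X) p (t + x)) t :=
          ContinuousAt.comp (f := fun t : ℝ => t + x) (g := aP (ph X) p)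
            (aP_cont (hamp X hX).a0 (ht_pos (FH_mem hp).1 (FH_mem hp).2) htx) c0
        have c5 : ContinuousAt (fun t : ℝ => ee (t + x) p) t :=
          ContinuousAt.comp (f := fun t : ℝ => t + x) (g := fun u => ee u p) (ee_cont p).continuousAt c0
        exact (Complex.continuous_ofReal.continuousAt.comp c4).mul c5
      exact (c1.sub c2).sub c3
    have hEb : ∀ᵐ t ∂ν, ‖(ff (t + x) : ℂ) - sh Z (t + x) - hi X Z (t + x)‖ ≤ η := by
      filter_upwards [hν] with t ht'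
      exact hE (t + x) (by linarith [ht'.1, hx.1]) (by linarith [ht'.2, hx.2])
    have i2 : Integrable (fun t => ((ff (t + x) : ℂ) - sh Z (t + x) - hi X Z (t + x)) * g t) ν :=
      hg1.bdd_mul hEm hEb
    have e : ∫ t, ((ff (t + x) : ℂ) - sh Z (t + x)) * g t ∂ν = Hf x +
        ∫ t, ((ff (t + x) : ℂ) - sh Z (t + x) - hi X Z (t + x)) * g t ∂ν := by
      simp only [hHf]
      rw [← integral_add i1 i2]
      refine integral_congr_ae (Filter.Eventually.of_forall fun t => ?_)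
      simp only
      unfold hi
      ring
    have hEI : ‖∫ t, ((ff (t + x) : ℂ) - sh Z (t + x) - hi X Z (t + x)) * g t ∂ν‖ ≤ η * ∫ t, ‖g t‖ ∂ν := by
      rw [← integral_const_mul]
      refine norm_integral_le_of_norm_le (hg1.norm.const_mul η) ?_
      filter_upwards [hEb] with t ht'
      rw [norm_mul]
      exact mul_le_mul_of_nonneg_right ht' (norm_nonneg _)
    rw [← ofReal_norm, ← ENNReal.ofReal_pow (norm_nonneg _)]
    apply ENNReal.ofReal_le_ofReal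
    rw [e]
    have h5 := norm_add_le (Hf x) (∫ t, ((ff (t + x) : ℂ) - sh Z (t + x) - hi X Z (t + x)) * g t ∂ν)
    have h6 : ‖∫ t, ((ff (t + x) : ℂ) - sh Z (t + x) - hi X Z (t + x)) * g t ∂ν‖ ^ 2 ≤ η ^ 2 * G := by
      calc _ ≤ (η * ∫ t, ‖g t‖ ∂ν) ^ 2 := by gcongr
        _ = η ^ 2 * (∫ t, ‖g t‖ ∂ν) ^ 2 := by ring
        _ ≤ _ := by gcongr
    have h7 : ‖Hf x + ∫ t, ((ff (t + x) : ℂ) - sh Z (t + x) - hi X Z (t + x)) * g t ∂ν‖ ^ 2 ≤
        (‖Hf x‖ + ‖∫ t, ((ff (t + x) : ℂ) - sh Z (t + x) - hi X Z (t + x)) * g t ∂ν‖) ^ 2 := by gcongr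
    nlinarith [sq_nonneg (‖Hf x‖ - ‖∫ t, ((ff (t + x) : ℂ) - sh Z (t + x) - hi X Z (t + x)) * g t ∂ν‖)]
  have hint : Integrable (fun x => 2 * ‖Hf x‖ ^ 2 + 2 * (η ^ 2 * G)) (volume.restrict (Icc a U)) :=
    ((continuousOn_const.mul (hhi.norm.pow 2)).add continuousOn_const).integrableOn_compact isCompact_Icc
  have hint2 : Integrable (fun x => ‖Hf x‖ ^ 2) (volume.restrict (Icc a U)) :=
    (hhi.norm.pow 2).integrableOn_compact isCompact_Icc
  calc ∫⁻ x in Icc a U, ‖∫ t, ((ff (t + x) : ℂ) - sh Z (t + x)) * g t ∂ν‖ₑ ^ 2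
      ≤ ∫⁻ x in Icc a U, ENNReal.ofReal (2 * ‖Hf x‖ ^ 2 + 2 * (η ^ 2 * G)) := by
        refine setLIntegral_mono' measurableSet_Icc fun x hx => hpt x hx
    _ = ENNReal.ofReal (∫ x in Icc a U, (2 * ‖Hf x‖ ^ 2 + 2 * (η ^ 2 * G))) := by
        rw [ofReal_integral_eq_lintegral_ofReal hint (Filter.Eventually.of_forall fun x => by positivity)]
    _ ≤ ENNReal.ofReal ((2 * C1 * C2 ^ 2 * ((U + X) * (1 + Real.log X) ^ 5 * (1 + Real.log U) ^ 2 * (5 * τ + m)) +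
        2 * U * η ^ 2) * G) := by
        apply ENNReal.ofReal_le_ofReal
        rw [integral_add (hint2.const_mul 2) (integrable_const _), integral_const_mul, integral_const]
        simp only [smul_eq_mul, measureReal_restrict_apply_univ, Real.volume_real_Icc_of_le haU]
        have h8 : ∫ x in Icc a U, ‖Hf x‖ ^ 2 ≤ R * G := h1
        have h9 : (U - a) * (2 * (η ^ 2 * G)) ≤ U * (2 * (η ^ 2 * G)) := by
          have : 0 ≤ 2 * (η ^ 2 * G) := by positivity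
          nlinarith
        have h10 : R = C1 * C2 ^ 2 * ((U + X) * (1 + Real.log X) ^ 5 * (1 + Real.log U) ^ 2 * (5 * τ + m)) := by
          rw [hR]; ring
        rw [h10] at h8
        linarith
    _ = _ := by
        rw [eG, ← ENNReal.ofReal_mul (by positivity)]

end Pool.Agent.H471.GS
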