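import Mathlib

set_option autoImplicit false

/-!
A quadratic form of integrals against a finite measure.
-/

namespace Pool.Agent.H471.GS

open MeasureTheory Set

/-- the majorant of the kernel -/
noncomputable def kap (a b H : ℝ) (z : ℝ × ℝ) : ℝ :=
  a + b * Set.indicator {z : ℝ × ℝ | |z.1 - z.2| < H} (fun _ => (1 : ℝ)) z

lemma kap_meas (a b H : ℝ) : Measurable (kap a b H) := by
  unfold kap
  refine measurable_const.add (measurable_const.mul (measurable_const.indicator ?_))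
  exact measurableSet_lt (by fun_prop) measurable_const

lemma kap_nn {a b : ℝ} (ha : 0 ≤ a) (hb : 0 ≤ b) (H : ℝ) (z : ℝ × ℝ) : 0 ≤ kap a b H z := by
  unfold kap
  refine add_nonneg ha (mul_nonneg hb ?_)
  exact Set.indicator_nonneg (fun _ _ => zero_le_one) z

lemma kap_le {a b : ℝ} (hb : 0 ≤ b) (H : ℝ) (z : ℝ × ℝ) : kap a b H z ≤ a + b := by
  unfold kap
  have : Set.indicator {z : ℝ × ℝ | |z.1 - z.2| < H} (fun _ => (1 : ℝ)) z ≤ 1 :=
    Set.indicator_le_self' (fun _ _ => zero_le_one) z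
  nlinarith

lemma kap_swap (a b H : ℝ) (t s : ℝ) : kap a b H (t, s) = kap a b H (s, t) := by
  unfold kap
  congr 2
  by_cases h : |t - s| < H
  · have h' : |s - t| < H := by rwa [abs_sub_comm]
    rw [Set.indicator_of_mem (show (t, s) ∈ {z : ℝ × ℝ | |z.1 - z.2| < H} from h),
      Set.indicator_of_mem (show (s, t) ∈ {z : ℝ × ℝ | |z.1 - z.2| < H} from h')]
  · have h' : ¬ |s - t| < H := by rwa [abs_sub_comm]
    rw [Set.indicator_of_notMem (show (t, s) ∉ {z : ℝ × ℝ | |z.1 - z.2| < H} from h),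
      Set.indicator_of_notMem (show (s, t) ∉ {z : ℝ × ℝ | |z.1 - z.2| < H} from h')]

lemma kap_row {ν : Measure ℝ} [IsFiniteMeasure ν] {a b H M m : ℝ} (ha : 0 ≤ a) (hb : 0 ≤ b)
    (hM : ν.real univ ≤ M) (hm : ∀ t : ℝ, ν.real (Metric.ball t H) ≤ m) (t : ℝ) :
    ∫ s, kap a b H (t, s) ∂ν ≤ a * M + b * m := by
  have e : ∀ s, kap a b H (t, s) = a + b * Set.indicator (Metric.ball t H) (fun _ => (1 : ℝ)) s := by
    intro s
    unfold kap
    congr 2
    by_cases h : |t - s| < H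
    · have h' : s ∈ Metric.ball t H := by rw [Metric.mem_ball, Real.dist_eq, abs_sub_comm]; exact h
      rw [Set.indicator_of_mem (show (t, s) ∈ {z : ℝ × ℝ | |z.1 - z.2| < H} from h),
        Set.indicator_of_mem h']
    · have h' : s ∉ Metric.ball t H := by rw [Metric.mem_ball, Real.dist_eq, abs_sub_comm]; exact h
      rw [Set.indicator_of_notMem (show (t, s) ∉ {z : ℝ × ℝ | |z.1 - z.2| < H} from h),
        Set.indicator_of_notMem h']
  simp_rw [e]
  have i1 : Integrable (fun s => Set.indicator (Metric.ball t H) (fun _ => (1 : ℝ)) s) ν :=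
    (integrable_const 1).indicator Metric.isOpen_ball.measurableSet
  rw [integral_add (integrable_const a) (i1.const_mul b), integral_const_mul, integral_const,
    integral_indicator_const _ Metric.isOpen_ball.measurableSet]
  simp only [smul_eq_mul, mul_one]
  have h1 := mul_le_mul_of_nonneg_left hM ha
  have h2 := mul_le_mul_of_nonneg_left (hm t) hb
  linarith

/-- the quadratic form -/
lemma QF {ι : Type} {ν : Measure ℝ} [IsFiniteMeasure ν] {g : ℝ → ℂ} (hg : MemLp g 2 ν)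
    {P : Finset ι} {c : ι → ℝ → ℂ} (hc : ∀ p ∈ P, AEStronglyMeasurable (c p) ν)
    (hcb : ∀ p ∈ P, ∃ C : ℝ, ∀ᵐ t ∂ν, ‖c p t‖ ≤ C) {a b H M m : ℝ} (ha : 0 ≤ a) (hb : 0 ≤ b)
    (hM : ν.real univ ≤ M) (hm : ∀ t : ℝ, ν.real (Metric.ball t H) ≤ m)
    {S : Set ℝ} (hS : ∀ᵐ t ∂ν, t ∈ S)
    (hk : ∀ t ∈ S, ∀ s ∈ S, ‖∑ p ∈ P, c p t * (starRingEnd ℂ) (c p s)‖ ≤ kap a b H (t, s)) :
    ∑ p ∈ P, ‖∫ t, c p t * g t ∂ν‖ ^ 2 ≤ (a * M + b * m) * ∫ t, ‖g t‖ ^ 2 ∂ν := by
  have hg1 : Integrable g ν := hg.integrable (by norm_num)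
  have hg2 : Integrable (fun t => ‖g t‖ ^ 2) ν := hg.integrable_norm_pow (by norm_num)
  have hfi : ∀ p ∈ P, Integrable (fun t => c p t * g t) ν := by
    intro p hp
    obtain ⟨C, hC⟩ := hcb p hp
    exact hg1.bdd_mul (hc p hp) hC
  have hfi' : ∀ p ∈ P, Integrable (fun t => (starRingEnd ℂ) (c p t * g t)) ν := by
    intro p hp
    exact (LinearIsometryEquiv.integrable_comp_iff (Complex.conjLIE) (φ := fun t => c p t * g t)).2 (hfi p hp)
  -- the sum as an integral over the product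
  have e1 : ((∑ p ∈ P, ‖∫ t, c p t * g t ∂ν‖ ^ 2 : ℝ) : ℂ) =
      ∫ z : ℝ × ℝ, ∑ p ∈ P, (c p z.1 * g z.1) * (starRingEnd ℂ) (c p z.2 * g z.2) ∂(ν.prod ν) := by
    rw [integral_finsetSum _ fun p hp => (hfi p hp).mul_prod (hfi' p hp)]
    push_cast
    refine Finset.sum_congr rfl fun p _ => ?_
    rw [integral_prod_mul (fun t => c p t * g t) (fun t => (starRingEnd ℂ) (c p t * g t)),
      integral_conj, ← Complex.mul_conj']
  have hGG : Integrable (fun z : ℝ × ℝ => ‖g z.1‖ ^ 2 * kap a b H z) (ν.prod ν) := by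
    have h1 : Integrable (fun z : ℝ × ℝ => ‖g z.1‖ ^ 2 * (1 : ℝ)) (ν.prod ν) :=
      hg2.mul_prod (integrable_const (1 : ℝ))
    simp only [mul_one] at h1
    have h2 := h1.mul_bdd (c := a + b) (g := kap a b H) (kap_meas a b H).aestronglyMeasurable
      (Filter.Eventually.of_forall fun z => by
        rw [Real.norm_of_nonneg (kap_nn ha hb H z)]; exact kap_le hb H z)
    exact h2
  have hGG2 : Integrable (fun z : ℝ × ℝ => ‖g z.2‖ ^ 2 * kap a b H z) (ν.prod ν) := by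
    have := hGG.swap
    refine this.congr (Filter.Eventually.of_forall fun z => ?_)
    simp only [Function.comp, Prod.swap]
    rw [kap_swap]
  have key : ‖∫ z : ℝ × ℝ, ∑ p ∈ P, (c p z.1 * g z.1) * (starRingEnd ℂ) (c p z.2 * g z.2) ∂(ν.prod ν)‖ ≤
      ∫ z : ℝ × ℝ, ((‖g z.1‖ ^ 2 * kap a b H z) / 2 + (‖g z.2‖ ^ 2 * kap a b H z) / 2) ∂(ν.prod ν) := by
    apply norm_integral_le_of_norm_le ((hGG.div_const 2).add (hGG2.div_const 2))
    have q1 : ∀ᵐ z ∂(ν.prod ν), z.1 ∈ S := Measure.quasiMeasurePreserving_fst.ae hS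
    have q2 : ∀ᵐ z ∂(ν.prod ν), z.2 ∈ S := Measure.quasiMeasurePreserving_snd.ae hS
    filter_upwards [q1, q2] with z hz1 hz2
    have hz := hk z.1 hz1 z.2 hz2
    have e2 : ∑ p ∈ P, (c p z.1 * g z.1) * (starRingEnd ℂ) (c p z.2 * g z.2) =
        (g z.1 * (starRingEnd ℂ) (g z.2)) * ∑ p ∈ P, c p z.1 * (starRingEnd ℂ) (c p z.2) := by
      rw [Finset.mul_sum]
      refine Finset.sum_congr rfl fun p _ => ?_
      rw [map_mul]; ring
    rw [e2, norm_mul, norm_mul, RCLike.norm_conj]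
    have h0 := kap_nn ha hb H z
    have h1 : ‖g z.1‖ * ‖g z.2‖ ≤ (‖g z.1‖ ^ 2 + ‖g z.2‖ ^ 2) / 2 := by
      nlinarith [sq_nonneg (‖g z.1‖ - ‖g z.2‖)]
    calc _ ≤ (‖g z.1‖ ^ 2 + ‖g z.2‖ ^ 2) / 2 * kap a b H z :=
          mul_le_mul h1 hz (norm_nonneg _) (by positivity)
      _ = _ := by simp only [Pi.add_apply]; ring
  have hrow : ∫ z : ℝ × ℝ, ‖g z.1‖ ^ 2 * kap a b H z ∂(ν.prod ν) ≤ (a * M + b * m) * ∫ t, ‖g t‖ ^ 2 ∂ν := by
    rw [integral_prod _ hGG]
    simp only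
    rw [← integral_const_mul]
    refine integral_mono hGG.integral_prod_left (hg2.const_mul _) fun t => ?_
    simp only
    rw [integral_const_mul, mul_comm]
    exact mul_le_mul_of_nonneg_right (kap_row ha hb hM hm t) (by positivity)
  have hrow2 : ∫ z : ℝ × ℝ, ‖g z.2‖ ^ 2 * kap a b H z ∂(ν.prod ν) ≤ (a * M + b * m) * ∫ t, ‖g t‖ ^ 2 ∂ν := by
    refine le_trans (le_of_eq ?_) hrow
    rw [← integral_prod_swap]
    refine integral_congr_ae (Filter.Eventually.of_forall fun z => ?_)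
    simp only [Prod.swap]
    rw [kap_swap]
  have h0 : 0 ≤ ∑ p ∈ P, ‖∫ t, c p t * g t ∂ν‖ ^ 2 := Finset.sum_nonneg fun _ _ => by positivity
  have h1 : ∑ p ∈ P, ‖∫ t, c p t * g t ∂ν‖ ^ 2 =
      ‖((∑ p ∈ P, ‖∫ t, c p t * g t ∂ν‖ ^ 2 : ℝ) : ℂ)‖ := by
    rw [Complex.norm_real, Real.norm_of_nonneg h0]
  rw [h1, e1]
  refine key.trans ?_
  rw [integral_add (hGG.div_const 2) (hGG2.div_const 2), integral_div, integral_div]
  linarith

end Pool.Agent.H471.GS
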