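import Pool.Agent.H471.GS.Ker
import Pool.Agent.H471.GS.QF
import Pool.Agent.H471.GS.LS

set_option autoImplicit false

/-!
The high part of the polynomial against a weighted measure: mean square over one shift.
-/

namespace Pool.Agent.H471.GS

open Complex MeasureTheory Set
open Pool.Agent.Y969.GP (ht lam FR PS)

/-- amplitudes with two derivatives -/
structure Amp2 (φ : ℝ → ℝ) (B : ℝ) : Prop where
  a0 : Amp φ B
  a1 : Amp (fun u => u * deriv φ u) B

/-- the coefficient -/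
noncomputable def aP (φ : ℝ → ℝ) (p : ℕ × ℕ) (x : ℝ) : ℝ := (√(ht p))⁻¹ * φ (x / ht p)

lemma aP_deriv {φ : ℝ → ℝ} {B : ℝ} (h : Amp φ B) {p : ℕ × ℕ} (hp : 0 < ht p) {x : ℝ} (hx : 0 < x) :
    HasDerivAt (aP φ p) (aP (fun u => u * deriv φ u) p x / x) x := by
  unfold aP
  have h1 : HasDerivAt (fun x : ℝ => x / ht p) (1 / ht p) x := (hasDerivAt_id x).div_const _
  have h2 := (HasDerivAt.comp x (h.di (x / ht p) (by positivity)).hasDerivAt h1).const_mul (√(ht p))⁻¹
  have e : (√(ht p))⁻¹ * (deriv φ (x / ht p) * (1 / ht p)) =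
      (√(ht p))⁻¹ * ((x / ht p) * deriv φ (x / ht p)) / x := by
    field_simp
  rw [e] at h2
  exact h2

lemma aP_bd {φ : ℝ → ℝ} {B : ℝ} (h : Amp φ B) {p : ℕ × ℕ} (h1 : 1 ≤ p.1) (h2 : 1 ≤ p.2) {x : ℝ}
    (hx : 0 < x) : |aP φ p x| ≤ B := by
  have hp := ht_pos h1 h2
  have hp1 : 1 ≤ ht p := by
    unfold ht
    have a : (1 : ℝ) ≤ p.1 := by exact_mod_cast h1
    have b : (1 : ℝ) ≤ p.2 := by exact_mod_cast h2
    nlinarith
  unfold aP
  rw [abs_mul, abs_of_nonneg (by positivity)]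
  have a1 := h.bd (x / ht p) (by positivity)
  have a2 : (√(ht p))⁻¹ ≤ 1 := inv_le_one_of_one_le₀ (Real.one_le_sqrt.2 hp1)
  calc _ ≤ 1 * B := mul_le_mul a2 a1 (abs_nonneg _) zero_le_one
    _ = B := one_mul _

lemma aP_cont {φ : ℝ → ℝ} {B : ℝ} (h : Amp φ B) {p : ℕ × ℕ} (hp : 0 < ht p) {x : ℝ}
    (hx : 0 < x) : ContinuousAt (aP φ p) x := by
  unfold aP
  have h1 : ContinuousAt (fun x : ℝ => x / ht p) x := by fun_prop
  exact (ContinuousAt.comp (f := fun x : ℝ => x / ht p) (g := φ)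
    (h.di (x / ht p) (by positivity)).continuousAt h1).const_mul _

lemma aesm {ν : Measure ℝ} {T : ℝ} (hν : ∀ᵐ t ∂ν, t ∈ Icc 0 T) {f : ℝ → ℂ}
    (hf : ContinuousOn f (Icc 0 T)) : AEStronglyMeasurable f ν := by
  rw [← Measure.restrict_eq_self_of_ae_mem hν]
  exact hf.aestronglyMeasurable measurableSet_Icc

lemma ee_cont (p : ℕ × ℕ) : Continuous (fun t : ℝ => ee t p) := by
  unfold ee
  fun_prop

/-- the weight -/
noncomputable def cP (φ : ℝ → ℝ) (x : ℝ) (p : ℕ × ℕ) (t : ℝ) : ℂ := ((aP φ p (t + x) : ℝ) : ℂ) * ee t p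

lemma cP_cont {φ : ℝ → ℝ} {B : ℝ} (h : Amp φ B) {p : ℕ × ℕ} (hp : 0 < ht p) {x : ℝ}
    (hx : 0 < x) (T : ℝ) : ContinuousOn (cP φ x p) (Icc 0 T) := by
  intro t ht'
  apply ContinuousAt.continuousWithinAt
  unfold cP
  have h1 : ContinuousAt (fun t : ℝ => t + x) t := by fun_prop
  have h2 : ContinuousAt (fun t : ℝ => aP φ p (t + x)) t :=
    ContinuousAt.comp (f := fun t : ℝ => t + x) (g := aP φ p)
      (aP_cont h hp (by linarith [ht'.1])) h1
  exact (Complex.continuous_ofReal.continuousAt.comp h2).mul (ee_cont p).continuousAt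

lemma cP_norm {φ : ℝ → ℝ} {B : ℝ} (h : Amp φ B) {p : ℕ × ℕ} (h1 : 1 ≤ p.1) (h2 : 1 ≤ p.2) {x t : ℝ}
    (hx : 0 < t + x) : ‖cP φ x p t‖ ≤ B := by
  unfold cP
  rw [norm_mul, norm_ee, mul_one, Complex.norm_real, Real.norm_eq_abs]
  exact aP_bd h h1 h2 hx

lemma cP_kernel (φ : ℝ → ℝ) (X Z : ℕ) (x t s : ℝ) :
    ∑ p ∈ FH X Z, cP φ x p t * (starRingEnd ℂ) (cP φ x p s) = KK φ X Z (t + x) (s + x) (t - s) := by
  unfold KK
  refine Finset.sum_congr rfl fun p hp => ?_
  unfold FH at hp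
  rw [Finset.mem_filter, mem_FR'] at hp
  have hp0 := ht_pos hp.1.1 hp.1.2.1
  unfold cP
  rw [map_mul, Complex.conj_ofReal]
  have e1 : ee t p * (starRingEnd ℂ) (ee s p) = ee (t - s) p := by
    unfold ee
    rw [← Complex.exp_conj, ← Complex.exp_add]
    congr 1
    simp only [map_mul, conj_I, Complex.conj_ofReal]
    push_cast
    ring
  have e2 : ((aP φ p (t + x) : ℝ) : ℂ) * ((aP φ p (s + x) : ℝ) : ℂ) =
      (((ht p)⁻¹ * (φ ((t + x) / ht p) * φ ((s + x) / ht p)) : ℝ) : ℂ) := by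
    rw [← Complex.ofReal_mul]
    congr 1
    unfold aP
    have : (√(ht p))⁻¹ * (√(ht p))⁻¹ = (ht p)⁻¹ := by
      rw [← mul_inv, Real.mul_self_sqrt hp0.le]
    calc _ = ((√(ht p))⁻¹ * (√(ht p))⁻¹) * (φ ((t + x) / ht p) * φ ((s + x) / ht p)) := by ring
      _ = _ := by rw [this]
  calc _ = (((aP φ p (t + x) : ℝ) : ℂ) * ((aP φ p (s + x) : ℝ) : ℂ)) * (ee t p * (starRingEnd ℂ) (ee s p)) := by
        ring
    _ = _ := by rw [e1, e2]

/-- Cauchy's inequality with the weight `1/x` -/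
lemma csx {a U : ℝ} (ha : 0 < a) (haU : a ≤ U) {f : ℝ → ℝ} (hf : ContinuousOn f (Icc a U)) :
    (∫ x in a..U, f x) ^ 2 ≤ Real.log (U / a) * ∫ x in a..U, x * f x ^ 2 := by
  have hU : 0 < U := ha.trans_le haU
  have hu : uIcc a U = Icc a U := uIcc_of_le haU
  have i1 : IntervalIntegrable f volume a U := ContinuousOn.intervalIntegrable (by rwa [hu])
  have i2 : IntervalIntegrable (fun x => x * f x ^ 2) volume a U := by
    apply ContinuousOn.intervalIntegrable
    rw [hu]
    exact continuousOn_id.mul (hf.pow 2)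
  have i3 : IntervalIntegrable (fun x : ℝ => 1 / x) volume a U := by
    apply ContinuousOn.intervalIntegrable
    rw [hu]
    exact continuousOn_const.div continuousOn_id fun x hx => (ha.trans_le hx.1).ne'
  have e3 : ∫ x in a..U, 1 / x = Real.log (U / a) := integral_one_div_of_pos ha hU
  have key : ∀ l : ℝ, 0 ≤ Real.log (U / a) * (l * l) + (-2 * ∫ x in a..U, f x) * l +
      ∫ x in a..U, x * f x ^ 2 := by
    intro l
    have h1 : 0 ≤ ∫ x in a..U, (l * l * (1 / x) + (-2 * l) * f x + x * f x ^ 2) := by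
      apply intervalIntegral.integral_nonneg haU
      intro x hx
      have hx0 : 0 < x := ha.trans_le hx.1
      have : l * l * (1 / x) + (-2 * l) * f x + x * f x ^ 2 = (l - x * f x) ^ 2 / x := by
        field_simp
        ring
      rw [this]
      positivity
    rw [intervalIntegral.integral_add ((i3.const_mul _).add (i1.const_mul _)) i2,
      intervalIntegral.integral_add (i3.const_mul _) (i1.const_mul _),
      intervalIntegral.integral_const_mul, intervalIntegral.integral_const_mul, e3] at h1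
    linarith
  have h2 := discrim_le_zero key
  unfold discrim at h2
  nlinarith

section

variable {ν : Measure ℝ} {T : ℝ}

/-- the integral of the weight -/
noncomputable def AA (φ : ℝ → ℝ) (ν : Measure ℝ) (g : ℝ → ℂ) (p : ℕ × ℕ) (x : ℝ) : ℂ :=
  ∫ t, cP φ x p t * g t ∂ν

/-- its derivative -/
noncomputable def AB (φ : ℝ → ℝ) (ν : Measure ℝ) (g : ℝ → ℂ) (p : ℕ × ℕ) (x : ℝ) : ℂ :=
  ∫ t, cP (fun u => u * deriv φ u) x p t * (g t / ((t + x : ℝ) : ℂ)) ∂ν

lemma gx_cont (T : ℝ) {x : ℝ} (hx : 0 < x) : ContinuousOn (fun t : ℝ => (((t + x : ℝ) : ℂ))⁻¹) (Icc 0 T) := by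
  intro t ht'
  apply ContinuousAt.continuousWithinAt
  apply ContinuousAt.inv₀ (by fun_prop)
  have : t + x ≠ 0 := by linarith [ht'.1]
  exact_mod_cast this

lemma AA_deriv (hν : ∀ᵐ t ∂ν, t ∈ Icc 0 T) {g : ℝ → ℂ} (hg : Integrable g ν) {φ : ℝ → ℝ} {B : ℝ}
    (h : Amp2 φ B) {p : ℕ × ℕ} (h1 : 1 ≤ p.1) (h2 : 1 ≤ p.2) {x : ℝ} (hx : 0 < x) :
    HasDerivAt (AA φ ν g p) (AB φ ν g p x) x := by
  have hp := ht_pos h1 h2
  unfold AA AB
  have hev : ∀ᶠ y in nhds x, 0 < y := lt_mem_nhds hx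
  refine (hasDerivAt_integral_of_dominated_loc_of_deriv_le (F := fun x t => cP φ x p t * g t)
    (F' := fun x t => cP (fun u => u * deriv φ u) x p t * (g t / ((t + x : ℝ) : ℂ)))
    (bound := fun t => B * (‖g t‖ * (2 / x))) (s := Metric.ball x (x / 2))
    (Metric.ball_mem_nhds x (by positivity)) ?_ ?_ ?_ ?_ ?_ ?_).2
  · filter_upwards [hev] with y hy
    exact (aesm hν (cP_cont h.a0 hp hy T)).mul hg.aestronglyMeasurable
  · exact hg.bdd_mul (aesm hν (cP_cont h.a0 hp hx T)) (c := B)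
      (by filter_upwards [hν] with t ht'; exact cP_norm h.a0 h1 h2 (by linarith [ht'.1]))
  · refine (aesm hν (cP_cont h.a1 hp hx T)).mul ?_
    simp only [div_eq_mul_inv]
    exact hg.aestronglyMeasurable.mul (aesm hν (gx_cont T hx))
  · filter_upwards [hν] with t ht' y hy
    rw [Metric.mem_ball, Real.dist_eq, abs_lt] at hy
    have hy0 : x / 2 < y := by linarith [hy.1]
    have hty : x / 2 ≤ t + y := by linarith [ht'.1]
    have hty0 : 0 < t + y := by linarith
    rw [norm_mul, norm_div, Complex.norm_real, Real.norm_of_nonneg hty0.le]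
    have a1 := cP_norm h.a1 h1 h2 (x := y) (t := t) hty0
    have a2 : ‖g t‖ / (t + y) ≤ ‖g t‖ * (2 / x) := by
      rw [div_eq_mul_inv]
      refine mul_le_mul_of_nonneg_left ?_ (norm_nonneg _)
      rw [inv_le_comm₀ hty0 (by positivity), inv_div]
      exact hty
    exact mul_le_mul a1 a2 (by positivity) h.a1.nn
  · exact (hg.norm.mul_const _).const_mul _
  · filter_upwards [hν] with t ht' y hy
    rw [Metric.mem_ball, Real.dist_eq, abs_lt] at hy
    have hty0 : 0 < t + y := by linarith [ht'.1, hy.1]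
    have d1 : HasDerivAt (fun y : ℝ => aP φ p (t + y)) (aP (fun u => u * deriv φ u) p (t + y) / (t + y)) y := by
      have := HasDerivAt.comp_const_add t y (aP_deriv h.a0 hp hty0)
      exact this
    have d2 := ((d1.ofReal_comp).mul_const (ee t p)).mul_const (g t)
    have e : cP (fun u => u * deriv φ u) y p t * (g t / ((t + y : ℝ) : ℂ)) =
        ((aP (fun u => u * deriv φ u) p (t + y) / (t + y) : ℝ) : ℂ) * ee t p * g t := by
      unfold cP
      rw [Complex.ofReal_div, div_eq_mul_inv, div_eq_mul_inv]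
      ring
    rw [e]
    exact d2

lemma AB_cont (hν : ∀ᵐ t ∂ν, t ∈ Icc 0 T) {g : ℝ → ℂ} (hg : Integrable g ν) {φ : ℝ → ℝ} {B : ℝ}
    (h : Amp2 φ B) {p : ℕ × ℕ} (h1 : 1 ≤ p.1) (h2 : 1 ≤ p.2) {x : ℝ} (hx : 0 < x) :
    ContinuousAt (AB φ ν g p) x := by
  have hp := ht_pos h1 h2
  unfold AB
  have hev : ∀ᶠ y in nhds x, x / 2 < y := lt_mem_nhds (by linarith)
  refine continuousAt_of_dominated (bound := fun t => B * (‖g t‖ * (2 / x))) ?_ ?_ ?_ ?_
  · filter_upwards [hev] with y hy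
    have hy0 : 0 < y := by linarith
    refine (aesm hν (cP_cont h.a1 hp hy0 T)).mul ?_
    simp only [div_eq_mul_inv]
    exact hg.aestronglyMeasurable.mul (aesm hν (gx_cont T hy0))
  · filter_upwards [hev] with y hy
    filter_upwards [hν] with t ht'
    have hty : x / 2 ≤ t + y := by linarith [ht'.1]
    have hty0 : 0 < t + y := by linarith
    rw [norm_mul, norm_div, Complex.norm_real, Real.norm_of_nonneg hty0.le]
    have a1 := cP_norm h.a1 h1 h2 (x := y) (t := t) hty0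
    have a2 : ‖g t‖ / (t + y) ≤ ‖g t‖ * (2 / x) := by
      rw [div_eq_mul_inv]
      refine mul_le_mul_of_nonneg_left ?_ (norm_nonneg _)
      rw [inv_le_comm₀ hty0 (by positivity), inv_div]
      exact hty
    exact mul_le_mul a1 a2 (by positivity) h.a1.nn
  · exact (hg.norm.mul_const _).const_mul _
  · filter_upwards [hν] with t ht'
    have htx : 0 < t + x := by linarith [ht'.1]
    have c1 : ContinuousAt (fun y : ℝ => t + y) x := by fun_prop
    have c2 : ContinuousAt (fun y : ℝ => aP (fun u => u * deriv φ u) p (t + y)) x :=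
      ContinuousAt.comp (f := fun y : ℝ => t + y) (g := aP (fun u => u * deriv φ u) p)
        (aP_cont h.a1 hp htx) c1
    have c3 : ContinuousAt (fun y : ℝ => (((t + y : ℝ) : ℂ))⁻¹) x := by
      apply ContinuousAt.inv₀ (by fun_prop)
      exact_mod_cast htx.ne'
    unfold cP
    simp only [div_eq_mul_inv]
    exact ((Complex.continuous_ofReal.continuousAt.comp c2).mul_const _).mul (continuousAt_const.mul c3)

/-- the bound for the kernel -/
lemma ker_kap {φ : ℝ → ℝ} {B : ℝ} (h : Amp φ B) {X Z : ℕ} (hZ : 1 ≤ Z) (hZX : Z ≤ X) {H τ : ℝ}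
    (hτ : 0 ≤ τ) (hD : ∀ V : ℝ, H ≤ |V| → |V| ≤ T → ∀ n : ℕ, Z ≤ n → n ≤ X →
      ‖∑ p ∈ FR n, ee V p‖ ≤ n * τ) {x : ℝ} (hx : 0 < x) :
    ∀ t ∈ Icc 0 T, ∀ s ∈ Icc 0 T, ‖∑ p ∈ FH X Z, cP φ x p t * (starRingEnd ℂ) (cP φ x p s)‖ ≤
      kap (5 * B ^ 2 * τ * (1 + Real.log X)) (B ^ 2 * (1 + Real.log X) ^ 2) H (t, s) := by
  intro t ht' s hs
  have hX1 : (1 : ℝ) ≤ X := by exact_mod_cast hZ.trans hZX
  have hl : 0 ≤ Real.log X := Real.log_nonneg hX1
  rw [cP_kernel]
  have htx : 0 < t + x := by linarith [ht'.1]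
  have hsx : 0 < s + x := by linarith [hs.1]
  have hB := h.nn
  unfold kap
  by_cases hts : |t - s| < H
  · rw [Set.indicator_of_mem (show (t, s) ∈ {z : ℝ × ℝ | |z.1 - z.2| < H} from hts)]
    have := KK_triv h (X := X) (Z := Z) (V := t - s) htx hsx
    have h0 : 0 ≤ 5 * B ^ 2 * τ * (1 + Real.log X) := by positivity
    linarith
  · rw [Set.indicator_of_notMem (show (t, s) ∉ {z : ℝ × ℝ | |z.1 - z.2| < H} from hts)]
    push Not at hts
    have hV : |t - s| ≤ T := by
      rw [abs_le]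
      constructor <;> linarith [ht'.1, ht'.2, hs.1, hs.2]
    have := KK_small h hZ hZX htx hsx hτ (hD (t - s) hts hV)
    linarith

end

/-- the mean square of the high part -/
theorem ovl : ∃ C : ℝ, 0 < C ∧ ∀ (ν : Measure ℝ) [IsFiniteMeasure ν] (T : ℝ),
    (∀ᵐ t ∂ν, t ∈ Icc 0 T) → ∀ (g : ℝ → ℂ),
    MemLp g 2 ν → ∀ (φ : ℝ → ℝ) (B : ℝ), Amp2 φ B → ∀ (X Z : ℕ), 1 ≤ Z → Z ≤ X → ∀ (a U : ℝ), 1 ≤ a → a ≤ U →
    ∀ (H τ M m : ℝ), 0 ≤ τ → ν.real univ ≤ M → (∀ t : ℝ, ν.real (Metric.ball t H) ≤ m) →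
    (∀ V : ℝ, H ≤ |V| → |V| ≤ T → ∀ n : ℕ, Z ≤ n → n ≤ X → ‖∑ p ∈ FR n, ee V p‖ ≤ n * τ) →
    ∫ x in Icc a U, ‖∫ t, (∑ p ∈ FH X Z, ((aP φ p (t + x) : ℝ) : ℂ) * ee (t + x) p) * g t ∂ν‖ ^ 2 ≤
      C * ((U + X) * (1 + Real.log X) ^ 3 * (1 + Real.log U) ^ 2 * B ^ 2 * (5 * τ * M + m)) *
        ∫ t, ‖g t‖ ^ 2 ∂ν := by
  obtain ⟨C, hC, hLS⟩ := LS1
  refine ⟨2 * C, by positivity, fun ν _ T hν g hg φ B h X Z hZ hZX a U ha haU H τ M m hτ hM hm hD => ?_⟩
  have hX : 1 ≤ X := hZ.trans hZX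
  have hX1 : (1 : ℝ) ≤ X := by exact_mod_cast hX
  have hlX : 0 ≤ Real.log X := Real.log_nonneg hX1
  have hU1 : 1 ≤ U := ha.trans haU
  have hlU : 0 ≤ Real.log U := Real.log_nonneg hU1
  have ha0 : 0 < a := by linarith
  have hU0 : 0 < U := by linarith
  have hg1 : Integrable g ν := hg.integrable (by norm_num)
  have hg2 : Integrable (fun t => ‖g t‖ ^ 2) ν := hg.integrable_norm_pow (by norm_num)
  set G : ℝ := ∫ t, ‖g t‖ ^ 2 ∂ν with hG
  have hG0 : 0 ≤ G := integral_nonneg fun _ => by positivity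
  have hM0 : 0 ≤ M := measureReal_nonneg.trans hM
  have hm0 : 0 ≤ m := measureReal_nonneg.trans (hm 0)
  set R : ℝ := B ^ 2 * (1 + Real.log X) ^ 2 * (5 * τ * M + m) with hR
  have hR0 : 0 ≤ R := by positivity
  have hmem : ∀ p ∈ FH X Z, 1 ≤ p.1 ∧ 1 ≤ p.2 := by
    intro p hp
    unfold FH at hp
    rw [Finset.mem_filter, mem_FR'] at hp
    exact ⟨hp.1.1, hp.1.2.1⟩
  -- the two quadratic forms
  have hRle : 5 * B ^ 2 * τ * (1 + Real.log X) * M + B ^ 2 * (1 + Real.log X) ^ 2 * m ≤ R := by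
    rw [hR]
    have : 0 ≤ 5 * B ^ 2 * τ * M * ((1 + Real.log X) * Real.log X) := by positivity
    nlinarith
  have q0 : ∀ x : ℝ, 0 < x → ∑ p ∈ FH X Z, ‖AA φ ν g p x‖ ^ 2 ≤ R * G := by
    intro x hx
    unfold AA
    refine (QF hg (P := FH X Z) (c := cP φ x) (a := 5 * B ^ 2 * τ * (1 + Real.log X))
      (b := B ^ 2 * (1 + Real.log X) ^ 2) (H := H) (M := M) (m := m) ?_ ?_ ?_ ?_ hM hm hν
      (ker_kap h.a0 hZ hZX hτ hD hx)).trans ?_
    · intro p hp
      exact aesm hν (cP_cont h.a0 (ht_pos (hmem p hp).1 (hmem p hp).2) hx T)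
    · intro p hp
      exact ⟨B, by filter_upwards [hν] with t ht'; exact cP_norm h.a0 (hmem p hp).1 (hmem p hp).2 (by linarith [ht'.1])⟩
    · positivity
    · positivity
    · exact mul_le_mul_of_nonneg_right hRle hG0
  have q1 : ∀ x : ℝ, 0 < x → ∑ p ∈ FH X Z, ‖AB φ ν g p x‖ ^ 2 ≤ R * G / x ^ 2 := by
    intro x hx
    unfold AB
    have hgm : AEStronglyMeasurable (fun t : ℝ => g t / ((t + x : ℝ) : ℂ)) ν := by
      simp only [div_eq_mul_inv]
      exact hg.aestronglyMeasurable.mul (aesm hν (gx_cont T hx))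
    have hgb : ∀ᵐ t ∂ν, ‖g t / ((t + x : ℝ) : ℂ)‖ ≤ x⁻¹ * ‖g t‖ := by
      filter_upwards [hν] with t ht'
      have htx : x ≤ t + x := by linarith [ht'.1]
      rw [norm_div, Complex.norm_real, Real.norm_of_nonneg (by linarith), div_eq_inv_mul]
      exact mul_le_mul_of_nonneg_right (inv_anti₀ hx htx) (norm_nonneg _)
    have hgx : MemLp (fun t : ℝ => g t / ((t + x : ℝ) : ℂ)) 2 ν :=
      hg.of_le_mul hgm hgb
    refine (QF hgx (P := FH X Z) (c := cP (fun u => u * deriv φ u) x)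
      (a := 5 * B ^ 2 * τ * (1 + Real.log X))
      (b := B ^ 2 * (1 + Real.log X) ^ 2) (H := H) (M := M) (m := m) ?_ ?_ ?_ ?_ hM hm hν
      (ker_kap h.a1 hZ hZX hτ hD hx)).trans ?_
    · intro p hp
      exact aesm hν (cP_cont h.a1 (ht_pos (hmem p hp).1 (hmem p hp).2) hx T)
    · intro p hp
      exact ⟨B, by filter_upwards [hν] with t ht'; exact cP_norm h.a1 (hmem p hp).1 (hmem p hp).2 (by linarith [ht'.1])⟩
    · positivity
    · positivity
    · have hI : ∫ t, ‖g t / ((t + x : ℝ) : ℂ)‖ ^ 2 ∂ν ≤ (x ^ 2)⁻¹ * G := by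
        rw [hG, ← integral_const_mul]
        refine integral_mono_ae (hgx.integrable_norm_pow (by norm_num)) (hg2.const_mul _) ?_
        filter_upwards [hgb] with t ht'
        calc ‖g t / ((t + x : ℝ) : ℂ)‖ ^ 2 ≤ (x⁻¹ * ‖g t‖) ^ 2 := by gcongr
          _ = _ := by rw [mul_pow, inv_pow]
      calc _ ≤ R * ((x ^ 2)⁻¹ * G) := mul_le_mul hRle hI (integral_nonneg fun _ => by positivity) hR0
        _ = _ := by field_simp
  -- the weights
  set A : ℕ × ℕ → ℝ → ℂ := fun p x => if p ∈ FH X Z then AA φ ν g p x else 0 with hA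
  set A' : ℕ × ℕ → ℝ → ℂ := fun p x => if p ∈ FH X Z then AB φ ν g p x else 0 with hA'
  set w : ℕ × ℕ → ℝ := fun p => if p ∈ FH X Z then ‖AA φ ν g p a‖ + ∫ x in a..U, ‖AB φ ν g p x‖ else 0 with hw
  have hcB : ∀ p ∈ FH X Z, ContinuousOn (AB φ ν g p) (Icc a U) := fun p hp x hx =>
    (AB_cont hν hg1 h (hmem p hp).1 (hmem p hp).2 (ha0.trans_le hx.1)).continuousWithinAt
  have hiB : ∀ p ∈ FH X Z, ∀ b c : ℝ, a ≤ b → b ≤ c → c ≤ U → IntervalIntegrable (AB φ ν g p) volume b c := by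
    intro p hp b c hb hbc hc
    apply ContinuousOn.intervalIntegrable
    rw [uIcc_of_le hbc]
    exact (hcB p hp).mono (Icc_subset_Icc hb hc)
  have hls := hLS X a U hX hU1 ha0.le haU A A' w (by
      intro p _ x hx
      by_cases hp : p ∈ FH X Z
      · simp only [hA, hA', if_pos hp]
        exact AA_deriv hν hg1 h (hmem p hp).1 (hmem p hp).2 (ha0.trans_le hx.1)
      · simp only [hA, hA', if_neg hp]
        exact hasDerivAt_const x 0) (by
      intro p _
      by_cases hp : p ∈ FH X Z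
      · simp only [hA', if_pos hp]
        exact hcB p hp
      · simp only [hA', if_neg hp]
        exact continuousOn_const) (by
      intro p _ x hx
      by_cases hp : p ∈ FH X Z
      · simp only [hA, hw, if_pos hp]
        have e : AA φ ν g p x - AA φ ν g p a = ∫ y in a..x, AB φ ν g p y := by
          rw [intervalIntegral.integral_eq_sub_of_hasDerivAt]
          · intro y hy
            rw [uIcc_of_le hx.1] at hy
            exact AA_deriv hν hg1 h (hmem p hp).1 (hmem p hp).2 (ha0.trans_le hy.1)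
          · exact hiB p hp a x le_rfl hx.1 hx.2
        have e2 : AA φ ν g p x = AA φ ν g p a + ∫ y in a..x, AB φ ν g p y := by rw [← e]; ring
        rw [e2]
        refine (norm_add_le _ _).trans (add_le_add le_rfl ?_)
        refine (intervalIntegral.norm_integral_le_integral_norm hx.1).trans ?_
        refine intervalIntegral.integral_mono_interval le_rfl hx.1 hx.2
          (Filter.Eventually.of_forall fun _ => norm_nonneg _) (hiB p hp a U le_rfl haU le_rfl).norm
      · simp only [hA, hw, if_neg hp, norm_zero, le_refl]) (by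
      intro p _
      by_cases hp : p ∈ FH X Z
      · simp only [hA', hw, if_pos hp]
        have := norm_nonneg (AA φ ν g p a)
        linarith
      · simp only [hA', hw, if_neg hp, norm_zero, intervalIntegral.integral_zero, le_refl])
  -- the left side
  have hsub : FH X Z ⊆ FR X := Finset.filter_subset _ _
  have eL : ∀ x ∈ Icc a U, ∑ p ∈ FR X, A p x * cexp (I * ((x * lam p : ℝ) : ℂ)) =
      ∫ t, (∑ p ∈ FH X Z, ((aP φ p (t + x) : ℝ) : ℂ) * ee (t + x) p) * g t ∂ν := by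
    intro x hx
    have hx0 : 0 < x := ha0.trans_le hx.1
    have e1 : ∑ p ∈ FR X, A p x * cexp (I * ((x * lam p : ℝ) : ℂ)) =
        ∑ p ∈ FH X Z, AA φ ν g p x * ee x p := by
      rw [← Finset.sum_subset hsub]
      · refine Finset.sum_congr rfl fun p hp => ?_
        simp only [hA, if_pos hp]
        rfl
      · intro p _ hp
        simp only [hA, if_neg hp, zero_mul]
    rw [e1]
    unfold AA
    simp_rw [Finset.sum_mul, ← integral_mul_const]
    rw [integral_finsetSum]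
    · refine Finset.sum_congr rfl fun p _ => ?_
      refine integral_congr_ae (Filter.Eventually.of_forall fun t => ?_)
      simp only
      unfold cP
      have : ee (t + x) p = ee t p * ee x p := by
        unfold ee
        rw [← Complex.exp_add]
        congr 1
        push_cast
        ring
      rw [this]
      ring
    · intro p hp
      have h3 : Integrable (fun t => cP φ x p t * g t) ν :=
        hg1.bdd_mul (aesm hν (cP_cont h.a0 (ht_pos (hmem p hp).1 (hmem p hp).2) hx0 T)) (c := B)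
          (by filter_upwards [hν] with t ht'; exact cP_norm h.a0 (hmem p hp).1 (hmem p hp).2 (by linarith [ht'.1]))
      refine (h3.mul_const (ee x p)).congr (Filter.Eventually.of_forall fun t => ?_)
      simp only
      unfold cP
      have : ee (t + x) p = ee t p * ee x p := by
        unfold ee
        rw [← Complex.exp_add]
        congr 1
        push_cast
        ring
      rw [this]
      ring
  have eL2 : ∫ x in Icc a U, ‖∫ t, (∑ p ∈ FH X Z, ((aP φ p (t + x) : ℝ) : ℂ) * ee (t + x) p) * g t ∂ν‖ ^ 2 =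
      ∫ x in Icc a U, ‖∑ p ∈ FR X, A p x * cexp (I * ((x * lam p : ℝ) : ℂ))‖ ^ 2 := by
    refine setIntegral_congr_fun measurableSet_Icc fun x hx => ?_
    rw [← eL x hx]
  rw [eL2]
  refine hls.trans ?_
  -- the sum of the weights
  have hLUa : Real.log (U / a) ≤ Real.log U := by
    apply Real.log_le_log (by positivity)
    exact div_le_self hU0.le ha
  have hLUa0 : 0 ≤ Real.log (U / a) := Real.log_nonneg (by rw [le_div_iff₀ ha0]; linarith)
  have sw : ∑ p ∈ FR X, w p ^ 2 = ∑ p ∈ FH X Z, (‖AA φ ν g p a‖ + ∫ x in a..U, ‖AB φ ν g p x‖) ^ 2 := by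
    rw [← Finset.sum_subset hsub]
    · refine Finset.sum_congr rfl fun p hp => ?_
      simp only [hw, if_pos hp]
    · intro p _ hp
      simp only [hw, if_neg hp]
      norm_num
  have sI : ∑ p ∈ FH X Z, (∫ x in a..U, ‖AB φ ν g p x‖) ^ 2 ≤ Real.log U ^ 2 * (R * G) := by
    calc ∑ p ∈ FH X Z, (∫ x in a..U, ‖AB φ ν g p x‖) ^ 2
        ≤ ∑ p ∈ FH X Z, Real.log (U / a) * ∫ x in a..U, x * ‖AB φ ν g p x‖ ^ 2 :=
          Finset.sum_le_sum fun p hp => csx ha0 haU (hcB p hp).norm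
      _ = Real.log (U / a) * ∫ x in a..U, x * ∑ p ∈ FH X Z, ‖AB φ ν g p x‖ ^ 2 := by
          rw [← Finset.mul_sum, ← intervalIntegral.integral_finsetSum]
          · simp_rw [Finset.mul_sum]
          · intro p hp
            apply ContinuousOn.intervalIntegrable
            rw [uIcc_of_le haU]
            exact continuousOn_id.mul ((hcB p hp).norm.pow 2)
      _ ≤ Real.log (U / a) * ∫ x in a..U, (R * G) * (1 / x) := by
          refine mul_le_mul_of_nonneg_left ?_ hLUa0
          apply intervalIntegral.integral_mono_on haU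
          · apply ContinuousOn.intervalIntegrable
            rw [uIcc_of_le haU]
            refine continuousOn_id.mul (continuousOn_finsetSum _ fun p hp => (hcB p hp).norm.pow 2)
          · apply ContinuousOn.intervalIntegrable
            rw [uIcc_of_le haU]
            exact continuousOn_const.mul (continuousOn_const.div continuousOn_id fun x hx => (ha0.trans_le hx.1).ne')
          · intro x hx
            have hx0 : 0 < x := ha0.trans_le hx.1
            have := mul_le_mul_of_nonneg_left (q1 x hx0) hx0.le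
            refine this.trans (le_of_eq ?_)
            field_simp
      _ = Real.log (U / a) * (R * G * Real.log (U / a)) := by
          rw [intervalIntegral.integral_const_mul, integral_one_div_of_pos ha0 hU0]
      _ = Real.log (U / a) ^ 2 * (R * G) := by ring
      _ ≤ _ := by
          have : 0 ≤ R * G := by positivity
          gcongr
  have sA : ∑ p ∈ FR X, w p ^ 2 ≤ 2 * (1 + Real.log U) ^ 2 * (R * G) := by
    rw [sw]
    calc _ ≤ ∑ p ∈ FH X Z, (2 * ‖AA φ ν g p a‖ ^ 2 + 2 * (∫ x in a..U, ‖AB φ ν g p x‖) ^ 2) := by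
          refine Finset.sum_le_sum fun p _ => ?_
          nlinarith [sq_nonneg (‖AA φ ν g p a‖ - ∫ x in a..U, ‖AB φ ν g p x‖)]
      _ = 2 * ∑ p ∈ FH X Z, ‖AA φ ν g p a‖ ^ 2 + 2 * ∑ p ∈ FH X Z, (∫ x in a..U, ‖AB φ ν g p x‖) ^ 2 := by
          rw [Finset.sum_add_distrib, Finset.mul_sum, Finset.mul_sum]
      _ ≤ 2 * (R * G) + 2 * (Real.log U ^ 2 * (R * G)) := by
          have := q0 a ha0
          linarith
      _ ≤ _ := by
          have h1 : 0 ≤ R * G := by positivity
          have h2 : 0 ≤ Real.log U * (R * G) := by positivity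
          nlinarith
  have hUX : 0 ≤ (U + X) * (1 + Real.log X) := by positivity
  calc C * ((U + X) * (1 + Real.log X)) * ∑ p ∈ FR X, w p ^ 2
      ≤ C * ((U + X) * (1 + Real.log X)) * (2 * (1 + Real.log U) ^ 2 * (R * G)) := by gcongr
    _ = _ := by rw [hR]; ring

end Pool.Agent.H471.GS
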