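import Pool.Graph.R_seed8.Y957.VK.Fin1

set_option autoImplicit false

/-!
Zeta sums `∑ n^{-iV}` over `n ≤ N` for `T^ε ≤ |V| ≤ T` and `N ≥ T^θ`: a power saving.
-/

namespace Pool.Agent.H471.GS

open Complex Finset MeasureTheory
open Pool.Agent.Y957.VK (S_ZS)

/-- the term `n^{-it}` -/
noncomputable def zt (t : ℝ) (x : ℝ) : ℂ := (x : ℂ) ^ (-(t : ℂ) * I)

lemma zt_eq (t : ℝ) {x : ℝ} (hx : 0 < x) : zt t x = cexp (I * ((-(t * Real.log x) : ℝ) : ℂ)) := by
  unfold zt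
  rw [Complex.cpow_def_of_ne_zero (by exact_mod_cast hx.ne'), ← Complex.ofReal_log hx.le]
  congr 1
  push_cast
  ring

lemma norm_zt (t : ℝ) {x : ℝ} (hx : 0 < x) : ‖zt t x‖ = 1 := by
  rw [zt_eq t hx, mul_comm, Complex.norm_exp_ofReal_mul_I]

/-- `∫_a^b x^{-it} dx` -/
lemma int_pow {t : ℝ} (ht : t ≠ 0) {a b : ℝ} (ha : 0 < a) (hab : a ≤ b) :
    ‖∫ x in a..b, zt t x‖ ≤ 2 * b / |t| := by
  unfold zt
  rw [integral_cpow (Or.inl (by simp))]
  have hb : 0 < b := ha.trans_le hab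
  have h1 : ‖(b : ℂ) ^ (-(t : ℂ) * I + 1)‖ = b := by
    rw [Complex.norm_cpow_eq_rpow_re_of_pos hb]; simp
  have h2 : ‖(a : ℂ) ^ (-(t : ℂ) * I + 1)‖ = a := by
    rw [Complex.norm_cpow_eq_rpow_re_of_pos ha]; simp
  have h3 : |t| ≤ ‖-(t : ℂ) * I + 1‖ := by
    have := Complex.abs_im_le_norm (-(t : ℂ) * I + 1)
    simpa using this
  have ht0 : 0 < |t| := abs_pos.2 ht
  rw [norm_div]
  have h4 : ‖(b : ℂ) ^ (-(t : ℂ) * I + 1) - (a : ℂ) ^ (-(t : ℂ) * I + 1)‖ ≤ 2 * b := by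
    refine (norm_sub_le _ _).trans ?_
    rw [h1, h2]; linarith
  exact div_le_div₀ (by positivity) h4 ht0 h3

lemma zt_ii (t : ℝ) {a b : ℝ} (ha : 0 < a) (hab : a ≤ b) :
    IntervalIntegrable (zt t) volume a b := by
  apply intervalIntegral.intervalIntegrable_cpow
  right
  rw [Set.uIcc_of_le hab]
  intro h
  linarith [h.1]

lemma zt_diff (t : ℝ) {x y : ℝ} (hx : 0 < x) (hxy : x ≤ y) :
    ‖zt t x - zt t y‖ ≤ |t| * ((y - x) / x) := by
  have hy : 0 < y := hx.trans_le hxy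
  have e : zt t x = zt t y * cexp (I * ((t * (Real.log y - Real.log x) : ℝ) : ℂ)) := by
    rw [zt_eq t hx, zt_eq t hy, ← Complex.exp_add]
    congr 1
    push_cast
    ring
  have e2 : zt t x - zt t y = zt t y * (cexp (I * ((t * (Real.log y - Real.log x) : ℝ) : ℂ)) - 1) := by
    rw [e]; ring
  rw [e2, norm_mul, norm_zt t hy, one_mul]
  refine Real.norm_exp_I_mul_ofReal_sub_one_le.trans ?_
  rw [norm_mul, Real.norm_eq_abs, Real.norm_eq_abs]
  refine mul_le_mul_of_nonneg_left ?_ (abs_nonneg _)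
  rw [abs_of_nonneg (sub_nonneg.2 (Real.log_le_log hx hxy)), ← Real.log_div hy.ne' hx.ne']
  refine (Real.log_le_sub_one_of_pos (by positivity)).trans (le_of_eq ?_)
  field_simp

lemma zt_step (t : ℝ) {n : ℕ} (hn : 1 ≤ n) :
    ‖(∫ x in (n : ℝ)..((n + 1 : ℕ) : ℝ), zt t x) - zt t ((n + 1 : ℕ) : ℝ)‖ ≤ |t| / n := by
  have hn0 : (0 : ℝ) < n := by exact_mod_cast hn
  have hnn : (n : ℝ) ≤ ((n + 1 : ℕ) : ℝ) := by push_cast; linarith
  have e : (∫ x in (n : ℝ)..((n + 1 : ℕ) : ℝ), zt t x) - zt t ((n + 1 : ℕ) : ℝ) =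
      ∫ x in (n : ℝ)..((n + 1 : ℕ) : ℝ), (zt t x - zt t ((n + 1 : ℕ) : ℝ)) := by
    rw [intervalIntegral.integral_sub (zt_ii t hn0 hnn) intervalIntegrable_const]
    simp
  rw [e]
  have h := intervalIntegral.norm_integral_le_of_norm_le_const (a := (n : ℝ))
    (b := ((n + 1 : ℕ) : ℝ)) (f := fun x => zt t x - zt t ((n + 1 : ℕ) : ℝ)) (C := |t| / n) (by
      intro x hx
      rw [Set.uIoc_of_le hnn] at hx
      have hx0 : 0 < x := hn0.trans hx.1
      refine (zt_diff t hx0 hx.2).trans ?_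
      have h1 : ((n + 1 : ℕ) : ℝ) - x ≤ 1 := by push_cast; linarith [hx.1]
      have h2 : (((n + 1 : ℕ) : ℝ) - x) / x ≤ 1 / n := div_le_div₀ (by norm_num) h1 hn0 hx.1.le
      calc |t| * ((((n + 1 : ℕ) : ℝ) - x) / x) ≤ |t| * (1 / n) :=
            mul_le_mul_of_nonneg_left h2 (abs_nonneg _)
        _ = |t| / n := by ring)
  refine h.trans (le_of_eq ?_)
  push_cast
  simp

lemma harm_Ico (M N : ℕ) (hM : 1 ≤ M) :
    ∑ n ∈ Ico M N, 1 / (n : ℝ) ≤ 1 + Real.log N := by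
  have h := harmonic_le_one_add_log N
  rw [harmonic_eq_sum_Icc] at h
  push_cast at h
  have h2 : ∑ n ∈ Ico M N, 1 / (n : ℝ) ≤ ∑ j ∈ Finset.Icc 1 N, ((j : ℝ))⁻¹ := by
    simp only [one_div]
    refine Finset.sum_le_sum_of_subset_of_nonneg ?_ fun _ _ _ => by positivity
    intro x hx
    simp only [Finset.mem_Ico, Finset.mem_Icc] at hx ⊢
    omega
  linarith

/-- Euler-Maclaurin of order one -/
lemma em (t : ℝ) (ht : t ≠ 0) {M N : ℕ} (hM : 1 ≤ M) (hMN : M ≤ N) :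
    ‖∑ n ∈ Ioc M N, zt t n‖ ≤ 2 * N / |t| + |t| * (1 + Real.log N) := by
  have hM0 : (0 : ℝ) < M := by exact_mod_cast hM
  have e1 : ∑ n ∈ Ioc M N, zt t n = ∑ n ∈ Ico M N, zt t ((n + 1 : ℕ) : ℝ) := by
    rw [Finset.sum_Ico_add' (fun n : ℕ => zt t (n : ℝ)) M N 1]
    apply Finset.sum_congr _ fun _ _ => rfl
    ext x
    simp only [Finset.mem_Ioc, Finset.mem_Ico]
    omega
  have e2 : ∑ n ∈ Ico M N, ∫ x in (n : ℝ)..((n + 1 : ℕ) : ℝ), zt t x =
      ∫ x in (M : ℝ)..(N : ℝ), zt t x := by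
    exact intervalIntegral.sum_integral_adjacent_intervals_Ico (a := fun n : ℕ => (n : ℝ)) hMN
      fun k hk => zt_ii t (hM0.trans_le (by exact_mod_cast hk.1)) (by push_cast; linarith)
  have e3 : ∑ n ∈ Ioc M N, zt t n = (∫ x in (M : ℝ)..(N : ℝ), zt t x) -
      ∑ n ∈ Ico M N, ((∫ x in (n : ℝ)..((n + 1 : ℕ) : ℝ), zt t x) - zt t ((n + 1 : ℕ) : ℝ)) := by
    rw [Finset.sum_sub_distrib, e2, e1]; ring
  rw [e3]
  refine (norm_sub_le _ _).trans (add_le_add (int_pow ht hM0 (by exact_mod_cast hMN)) ?_)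
  refine (norm_sum_le _ _).trans ?_
  calc ∑ n ∈ Ico M N, ‖(∫ x in (n : ℝ)..((n + 1 : ℕ) : ℝ), zt t x) - zt t ((n + 1 : ℕ) : ℝ)‖
      ≤ ∑ n ∈ Ico M N, |t| * (1 / (n : ℝ)) := by
        refine Finset.sum_le_sum fun n hn => ?_
        rw [mul_one_div]
        exact zt_step t (hM.trans (Finset.mem_Ico.1 hn).1)
    _ = |t| * ∑ n ∈ Ico M N, 1 / (n : ℝ) := by rw [Finset.mul_sum]
    _ ≤ _ := mul_le_mul_of_nonneg_left (harm_Ico M N hM) (abs_nonneg _)

/-- logarithms are small -/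
lemma log_small (η : ℝ) (hη : 0 < η) (K : ℝ) : ∃ T₀ : ℝ, 1 ≤ T₀ ∧ ∀ T : ℝ, T₀ ≤ T →
    K * (1 + Real.log T) ≤ T ^ η := by
  have h1 : (fun T : ℝ => K * (1 + Real.log T)) =o[Filter.atTop] fun T => T ^ η := by
    apply Asymptotics.IsLittleO.const_mul_left
    exact (Asymptotics.isLittleO_const_left.2 (Or.inr (tendsto_norm_atTop_atTop.comp
      (tendsto_rpow_atTop hη)))).add (isLittleO_log_rpow_atTop hη)
  have h2 := (h1.bound (c := 1) one_pos)
  obtain ⟨T₀, hT₀⟩ := Filter.eventually_atTop.1 (h2.and (Filter.eventually_ge_atTop 1))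
  refine ⟨max T₀ 1, le_max_right _ _, fun T hT => ?_⟩
  obtain ⟨h3, h4⟩ := hT₀ T ((le_max_left _ _).trans hT)
  rw [one_mul, Real.norm_eq_abs, Real.norm_eq_abs, abs_of_nonneg (a := T ^ η) (by positivity)] at h3
  exact (le_abs_self _).trans h3

/-- blocks -/
lemma block (hZ : S_ZS) (θ ε : ℝ) (hθ : 0 < θ) (hε : 0 < ε) : ∃ δ T₀ : ℝ, 0 < δ ∧ 1 ≤ T₀ ∧
    ∀ T : ℝ, T₀ ≤ T → ∀ V : ℝ, T ^ ε ≤ |V| → |V| ≤ T → ∀ N N' : ℕ, T ^ θ ≤ N → N ≤ N' → N' ≤ 2 * N →
    ‖∑ n ∈ Ioc N N', zt V n‖ ≤ N * T ^ (-δ) := by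
  obtain ⟨C, c, hc0, hc1, hZ⟩ := hZ
  set δ1 : ℝ := θ * (c / (1 + 1 / θ) ^ 2) with hδ1
  have hδ10 : 0 < δ1 := by positivity
  set δ : ℝ := min (min (δ1 / 2) (ε / 2)) (θ / 8) with hδ
  have hδ0 : 0 < δ := by positivity
  have hδa : δ ≤ δ1 / 2 := (min_le_left _ _).trans (min_le_left _ _)
  have hδb : δ ≤ ε / 2 := (min_le_left _ _).trans (min_le_right _ _)
  have hδc : δ ≤ θ / 8 := min_le_right _ _
  set E : ℝ := Real.exp (C * (1 + 1 / θ) ^ C) with hE
  obtain ⟨T1, hT1, h1⟩ := log_small (δ1 / 2) (by positivity) E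
  obtain ⟨T2, hT2, h2⟩ := log_small (ε / 2) (by positivity) 8
  obtain ⟨T3, hT3, h3⟩ := log_small (1 / 4) (by norm_num) 4
  obtain ⟨T4, hT4, h4⟩ := log_small (θ / 8) (by positivity) 4
  obtain ⟨T5, hT5, h5⟩ := log_small θ hθ (T3 + 2)
  refine ⟨δ, max (max T1 T2) (max T4 T5), hδ0, (hT1.trans (le_max_left _ _)).trans (le_max_left _ _),
    fun T hT V hV1 hV2 N N' hN hNN hN2 => ?_⟩
  have hTT1 : T1 ≤ T := (le_max_left _ _).trans ((le_max_left _ _).trans hT)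
  have hTT2 : T2 ≤ T := (le_max_right _ _).trans ((le_max_left _ _).trans hT)
  have hTT4 : T4 ≤ T := (le_max_left _ _).trans ((le_max_right _ _).trans hT)
  have hTT5 : T5 ≤ T := (le_max_right _ _).trans ((le_max_right _ _).trans hT)
  have hT1' : 1 ≤ T := hT1.trans hTT1
  have hT0 : 0 < T := by linarith
  have hlT : 0 ≤ Real.log T := Real.log_nonneg hT1'
  have g1 := h1 T hTT1
  have g2 := h2 T hTT2
  have g4 := h4 T hTT4
  have g5 := h5 T hTT5
  have hNT3 : T3 + 2 ≤ (N : ℝ) := by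
    refine le_trans ?_ (g5.trans hN)
    have : 0 ≤ (T3 + 2) * Real.log T := mul_nonneg (by linarith) hlT
    linarith
  have hN1r : (1 : ℝ) < N := by linarith
  have hN0 : (0 : ℝ) < N := by linarith
  have hNn : 2 ≤ N := by
    have : (1 : ℝ) < (N : ℝ) := hN1r
    exact_mod_cast this
  have hlN : 0 < Real.log N := Real.log_pos hN1r
  have hV0 : 0 < |V| := lt_of_lt_of_le (by positivity) hV1
  have hVne : V ≠ 0 := abs_pos.1 hV0
  have hV1' : 1 ≤ |V| := le_trans (Real.one_le_rpow hT1' hε.le) hV1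
  have hgoal : ∀ x : ℝ, δ ≤ x → T ^ (-x) ≤ T ^ (-δ) := fun x hx =>
    Real.rpow_le_rpow_of_exponent_le hT1' (by linarith)
  rcases le_or_gt ((N : ℝ) ^ (1 / 2 : ℝ)) |V| with hc | hc
  · -- Vinogradov
    set κ : ℝ := Real.log |V| / Real.log N with hκ
    have hκV : |V| = (N : ℝ) ^ κ := by
      rw [Real.rpow_def_of_pos hN0, hκ, mul_div_cancel₀ _ hlN.ne', Real.exp_log hV0]
    have hκ1 : 1 / 2 ≤ κ := by
      rw [hκ, le_div_iff₀ hlN]
      have := Real.log_le_log (by positivity) hc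
      rwa [Real.log_rpow hN0] at this
    have hκ2 : κ ≤ 1 / θ := by
      rw [hκ, div_le_div_iff₀ hlN hθ, one_mul]
      have i1 := Real.log_le_log (by positivity) hN
      rw [Real.log_rpow hT0] at i1
      have i2 := Real.log_le_log hV0 hV2
      nlinarith
    have hmain := hZ N N' V κ hNn hNN hN2 hκ1 hκV
    have e : ∑ n ∈ Ioc N N', zt V n = ∑ n ∈ Ioc N N', (n : ℂ) ^ (-(V : ℂ) * I) := by
      refine Finset.sum_congr rfl fun n _ => ?_
      unfold zt; push_cast; rfl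
    rw [e]
    refine hmain.trans ?_
    have i1 : Real.exp (C * (1 + κ) ^ C) ≤ E := by
      apply Real.exp_le_exp.2
      gcongr
    have i2 : (N : ℝ) ^ (1 - c / (1 + κ) ^ 2 : ℝ) ≤ N * T ^ (-δ1) := by
      have j1 : (N : ℝ) ^ (1 - c / (1 + κ) ^ 2 : ℝ) ≤ (N : ℝ) ^ (1 - c / (1 + 1 / θ) ^ 2 : ℝ) := by
        apply Real.rpow_le_rpow_of_exponent_le hN1r.le
        have : c / (1 + 1 / θ) ^ 2 ≤ c / (1 + κ) ^ 2 := by gcongr
        linarith
      refine j1.trans ?_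
      rw [sub_eq_add_neg, Real.rpow_add hN0, Real.rpow_one]
      refine mul_le_mul_of_nonneg_left ?_ hN0.le
      have j2 : T ^ (-δ1) = (T ^ θ) ^ (-(c / (1 + 1 / θ) ^ 2)) := by
        rw [← Real.rpow_mul hT0.le, hδ1]; congr 1; ring
      rw [j2]
      apply Real.rpow_le_rpow_of_nonpos (by positivity) hN
      have : 0 ≤ c / (1 + 1 / θ) ^ 2 := by positivity
      linarith
    have i3 : E * T ^ (-δ1) ≤ T ^ (-δ) := by
      have hE0 : 0 ≤ E := (Real.exp_pos _).le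
      have j1 : E ≤ T ^ (δ1 / 2) := by
        refine le_trans ?_ g1
        nlinarith
      calc E * T ^ (-δ1) ≤ T ^ (δ1 / 2) * T ^ (-δ1) := by gcongr
        _ = T ^ (-(δ1 / 2)) := by rw [← Real.rpow_add hT0]; congr 1; ring
        _ ≤ _ := hgoal _ hδa
    calc _ ≤ E * (N * T ^ (-δ1)) := by gcongr
      _ = N * (E * T ^ (-δ1)) := by ring
      _ ≤ N * T ^ (-δ) := by gcongr
  · -- Euler-Maclaurin
    have hem := em V hVne (M := N) (N := N') (by omega) hNN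
    have hN'N : (N' : ℝ) ≤ 2 * N := by exact_mod_cast hN2
    have hN'0 : (0 : ℝ) < N' := lt_of_lt_of_le hN0 (by exact_mod_cast hNN)
    refine hem.trans ?_
    have j1 : 2 * (N' : ℝ) / |V| ≤ N * (T ^ (-δ) / 2) := by
      have k1 : 2 * (N' : ℝ) / |V| ≤ 4 * N / T ^ ε := by
        apply div_le_div₀ (by positivity) (by linarith) (by positivity) hV1
      refine k1.trans ?_
      have k2 : 8 * T ^ (-ε) ≤ T ^ (-δ) := by
        have : (8 : ℝ) ≤ T ^ (ε / 2) := by nlinarith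
        calc 8 * T ^ (-ε) ≤ T ^ (ε / 2) * T ^ (-ε) := by gcongr
          _ = T ^ (-(ε / 2)) := by rw [← Real.rpow_add hT0]; congr 1; ring
          _ ≤ _ := hgoal _ hδb
      have k3 : 4 * (N : ℝ) / T ^ ε = N * (8 * T ^ (-ε) / 2) := by
        rw [Real.rpow_neg hT0.le]; field_simp; norm_num
      rw [k3]
      gcongr
    have j2 : |V| * (1 + Real.log N') ≤ N * (T ^ (-δ) / 2) := by
      have k0 : Real.log N' ≤ 1 + Real.log N := by
        have := Real.log_le_log hN'0 hN'N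
        rw [Real.log_mul (by norm_num) hN0.ne'] at this
        have := Real.log_two_lt_d9
        linarith
      have k1 : 4 * (1 + Real.log N) ≤ (N : ℝ) ^ (1 / 4 : ℝ) := h3 N (by linarith)
      have k2 : |V| * (1 + Real.log N') ≤ (N : ℝ) ^ (1 / 2 : ℝ) * ((N : ℝ) ^ (1 / 4 : ℝ) / 2) := by
        apply mul_le_mul hc.le _ (by have := Real.log_nonneg (x := (N' : ℝ)) (by exact_mod_cast (by omega : 1 ≤ N')); linarith) (by positivity)
        linarith
      refine k2.trans ?_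
      have k3 : (N : ℝ) ^ (1 / 2 : ℝ) * ((N : ℝ) ^ (1 / 4 : ℝ) / 2) = N * ((N : ℝ) ^ (-(1 / 4) : ℝ) / 2) := by
        nth_rewrite 3 [← Real.rpow_one (N : ℝ)]
        rw [mul_div_assoc', mul_div_assoc', ← Real.rpow_add hN0, ← Real.rpow_add hN0]
        norm_num
      rw [k3]
      have k4 : (N : ℝ) ^ (-(1 / 4) : ℝ) ≤ T ^ (-δ) := by
        calc (N : ℝ) ^ (-(1 / 4) : ℝ) ≤ (T ^ θ) ^ (-(1 / 4) : ℝ) :=
              Real.rpow_le_rpow_of_nonpos (by positivity) hN (by norm_num)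
          _ = T ^ (-(θ / 4)) := by rw [← Real.rpow_mul hT0.le]; congr 1; ring
          _ ≤ _ := hgoal _ (by linarith)
      gcongr
    linarith

/-- the sum over all `n ≤ N` -/
lemma zsum (hZ : S_ZS) (θ ε : ℝ) (hθ : 0 < θ) (hε : 0 < ε) : ∃ δ T₀ : ℝ, 0 < δ ∧ 1 ≤ T₀ ∧
    ∀ T : ℝ, T₀ ≤ T → ∀ V : ℝ, T ^ ε ≤ |V| → |V| ≤ T → ∀ N : ℕ, T ^ θ ≤ N →
    ‖∑ n ∈ Icc 1 N, zt V n‖ ≤ N * T ^ (-δ) := by
  obtain ⟨δ1, T1, hδ1, hT1, h1⟩ := block hZ (θ / 2) ε (by positivity) hε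
  set δ : ℝ := min δ1 (θ / 4) with hδ
  have hδ0 : 0 < δ := by positivity
  have hδa : δ ≤ δ1 := min_le_left _ _
  have hδb : δ ≤ θ / 4 := min_le_right _ _
  obtain ⟨T2, hT2, h2⟩ := log_small (δ / 2) (by positivity) 6
  refine ⟨δ / 2, max T1 T2, by positivity, hT1.trans (le_max_left _ _), fun T hT V hV1 hV2 N hN => ?_⟩
  have hTT1 : T1 ≤ T := (le_max_left _ _).trans hT
  have hTT2 : T2 ≤ T := (le_max_right _ _).trans hT
  have hT1' : 1 ≤ T := hT1.trans hTT1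
  have hT0 : 0 < T := by linarith
  have g2 := h2 T hTT2
  have hlT : 0 ≤ Real.log T := Real.log_nonneg hT1'
  have hτ0 : 0 < T ^ (-δ) := by positivity
  -- induction
  have key : ∀ n : ℕ, ‖∑ m ∈ Icc 1 n, zt V m‖ ≤ 2 * T ^ (-δ) * n + (2 * T ^ (θ / 2) + 1) := by
    intro n
    induction n using Nat.strong_induction_on with
    | _ n ih =>
      rcases le_or_gt (n : ℝ) (2 * T ^ (θ / 2) + 1) with hn | hn
      · have i1 : ‖∑ m ∈ Icc 1 n, zt V m‖ ≤ n := by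
          refine (norm_sum_le _ _).trans ?_
          calc ∑ m ∈ Icc 1 n, ‖zt V m‖ ≤ ∑ m ∈ Icc 1 n, (1 : ℝ) := by
                refine Finset.sum_le_sum fun m hm => ?_
                rw [norm_zt V (by exact_mod_cast (Finset.mem_Icc.1 hm).1)]
            _ = n := by simp
        have : 0 ≤ 2 * T ^ (-δ) * n := by positivity
        linarith
      · have hn1 : 1 < n := by
          have : (1 : ℝ) < n := by
            have : 0 < T ^ (θ / 2) := by positivity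
            linarith
          exact_mod_cast this
        set m := n / 2 with hm
        have hmn : m < n := by omega
        have h2m : n ≤ 2 * m + 1 := by omega
        have h2m' : 2 * m ≤ n := by omega
        have hmT : T ^ (θ / 2) ≤ (m : ℝ) := by
          have : (n : ℝ) ≤ 2 * m + 1 := by exact_mod_cast h2m
          linarith
        have hm1 : 1 ≤ m := by omega
        have e : ∑ k ∈ Icc 1 n, zt V k = ∑ k ∈ Icc 1 m, zt V k + ∑ k ∈ Ioc m (2 * m), zt V k +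
            ∑ k ∈ Ioc (2 * m) n, zt V k := by
          have a1 : Icc 1 n = Ioc 0 n := by ext x; simp only [Finset.mem_Icc, Finset.mem_Ioc]; omega
          have a2 : Icc 1 m = Ioc 0 m := by ext x; simp only [Finset.mem_Icc, Finset.mem_Ioc]; omega
          rw [a1, a2, Finset.sum_Ioc_consecutive _ (by omega) (by omega),
            Finset.sum_Ioc_consecutive _ (by omega) (by omega)]
        have i1 := ih m hmn
        have i2 := h1 T hTT1 V hV1 hV2 m (2 * m) hmT (by omega) le_rfl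
        have i3 : ‖∑ k ∈ Ioc (2 * m) n, zt V k‖ ≤ 1 := by
          refine (norm_sum_le _ _).trans ?_
          calc ∑ k ∈ Ioc (2 * m) n, ‖zt V k‖ ≤ ∑ k ∈ Ioc (2 * m) n, (1 : ℝ) := by
                refine Finset.sum_le_sum fun k hk => ?_
                rw [norm_zt V (by exact_mod_cast (by have := (Finset.mem_Ioc.1 hk).1; omega : 0 < k))]
            _ = ((n - 2 * m : ℕ) : ℝ) := by simp
            _ ≤ 1 := by exact_mod_cast (by omega)
        have i4 : (m : ℝ) * T ^ (-δ1) ≤ m * T ^ (-δ) := by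
          have := Real.rpow_le_rpow_of_exponent_le hT1' (by linarith : -δ1 ≤ -δ)
          gcongr
        have i5 : 1 ≤ (m : ℝ) * T ^ (-δ) := by
          calc (1 : ℝ) ≤ T ^ (θ / 2 - δ) := Real.one_le_rpow hT1' (by linarith)
            _ = T ^ (θ / 2) * T ^ (-δ) := by rw [← Real.rpow_add hT0]; congr 1
            _ ≤ _ := by gcongr
        have i6 : 2 * T ^ (-δ) * (2 * m : ℝ) ≤ 2 * T ^ (-δ) * n := by
          have : (2 * m : ℝ) ≤ n := by exact_mod_cast h2m'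
          gcongr
        rw [e]
        refine (norm_add₃_le).trans ?_
        nlinarith
  refine (key N).trans ?_
  have hN0 : 0 < (N : ℝ) := lt_of_lt_of_le (by positivity) hN
  have hTh : 1 ≤ T ^ (θ / 2) := Real.one_le_rpow hT1' (by positivity)
  have j1 : 2 * T ^ (θ / 2) + 1 ≤ 3 * (N * T ^ (-δ)) := by
    have k1 : T ^ (θ / 2) ≤ N * T ^ (-δ) := by
      calc T ^ (θ / 2) ≤ T ^ (θ - δ) := Real.rpow_le_rpow_of_exponent_le hT1' (by linarith)
        _ = T ^ θ * T ^ (-δ) := by rw [← Real.rpow_add hT0]; congr 1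
        _ ≤ _ := by gcongr
    linarith
  have j2 : (6 : ℝ) ≤ T ^ (δ / 2) := by nlinarith
  calc 2 * T ^ (-δ) * N + (2 * T ^ (θ / 2) + 1) ≤ 5 * (N * T ^ (-δ)) := by linarith
    _ ≤ T ^ (δ / 2) * (N * T ^ (-δ)) := by
        have : 0 ≤ (N : ℝ) * T ^ (-δ) := by positivity
        nlinarith
    _ = N * (T ^ (δ / 2) * T ^ (-δ)) := by ring
    _ = N * T ^ (-(δ / 2)) := by rw [← Real.rpow_add hT0]; congr 2; ring

end Pool.Agent.H471.GS
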